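import Pool.Agent.P.MP_ac93c9_an.Prob

namespace Pool.Agent.P.MP_ac93c9_an

open Filter Topology Finset MeasureTheory ProbabilityTheory
open scoped NNReal ENNReal

theorem le_dimH_of_ae {q : ℕ → ℕ} {t : ℕ → ℝ} (hq : ∀ n, 2 ≤ q n) {τ : ℝ} (hτ : ∀ n, |t n| ≤ τ)
    (hτ1 : τ ≤ 1) (s : ℝ≥0) (hs : (s : ℝ) ≤ 1) (hτs : 1 + τ ≤ (2 : ℝ) ^ (1 - (s : ℝ)))
    {S : Set ℝ} (hS : ∀ᵐ ω ∂(PP q t), (∀ n, ∃ m, n ≤ m ∧ ω (m + 1) = 0) ∧ xOf q ω ∈ S) :
    (s : ℝ≥0∞) ≤ dimH S := by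
  have ht : ∀ n, |t n| ≤ 1 := fun n => (hτ n).trans hτ1
  have hτ0 : 0 ≤ τ := (abs_nonneg _).trans (hτ 0)
  have := PP_prob hq ht
  let X : (ℕ → ℕ) → ℝ := fun ω => xOf q fun m => min (ω m) (q m - 1)
  have hXc : Continuous X := continuous_xOf hq
    (fun ω m => lt_of_le_of_lt (min_le_right _ _) (by have := hq m; omega))
    (fun m => (continuous_apply m).min continuous_const)
  have hXm : Measurable X := hXc.measurable
  let G : Set (ℕ → ℕ) := {ω | (∀ m, ω m < q m) ∧ (∀ n, ∃ m, n ≤ m ∧ ω (m + 1) = 0) ∧ xOf q ω ∈ S}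
  have hG : ∀ᵐ ω ∂(PP q t), ω ∈ G := by
    filter_upwards [ae_PP_lt hq ht, hS] with ω h1 h2 using ⟨h1, h2⟩
  have hXG : ∀ ω ∈ G, X ω = xOf q ω := by
    intro ω hω
    simp only [X]
    congr 1
    ext m
    have := hω.1 m
    omega
  have h1 : ∀ (n : ℕ) (k : ℤ), PP q t {ω | ⌊(prodQ q n : ℝ) * X ω⌋ = k} ≤
      ENNReal.ofReal ((1 + τ) ^ n / prodQ q n) := by
    intro n k
    rw [← Measure.measure_inter_eq_of_ae hG]
    rcases Set.eq_empty_or_nonempty (G ∩ {ω | ⌊(prodQ q n : ℝ) * X ω⌋ = k}) with h | ⟨ω₀, h⟩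
    · rw [h]
      simp
    · have hsub : G ∩ {ω | ⌊(prodQ q n : ℝ) * X ω⌋ = k} ⊆
          {ω | ∀ j < n, ω (j + 1) = (fun j => ω₀ (j + 1)) j} := by
        intro ω hω j hj
        have e : ⌊(prodQ q n : ℝ) * xOf q ω⌋ = ⌊(prodQ q n : ℝ) * xOf q ω₀⌋ := by
          rw [← hXG ω hω.1, ← hXG ω₀ h.1]
          exact hω.2.trans h.2.symm
        have := digit_eq_of_floor_eq hq n e j hj
        rwa [(xOf_spec hq hω.1.1 hω.1.2.1).2, (xOf_spec hq h.1.1 h.1.2.1).2] at this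
      refine (measure_mono hsub).trans ?_
      rw [← ofReal_measureReal]
      exact ENNReal.ofReal_le_ofReal (measure_cyl_le hq ht hτ n _)
  have h2 : ∀ a r : ℝ, 0 < r → r < 1 →
      PP q t (X ⁻¹' Set.Icc (a - r) (a + r)) ≤ ENNReal.ofReal (8 * r ^ (s : ℝ)) := by
    intro a r hr hr1
    have hex : ∃ n, 1 / r < prodQ q (n + 1) := by
      obtain ⟨n, hn⟩ := pow_unbounded_of_one_lt (1 / r) (one_lt_two (α := ℝ))
      refine ⟨n, hn.trans_le ?_⟩
      have : (2 : ℝ) ^ (n + 1) ≤ prodQ q (n + 1) := by exact_mod_cast two_pow_le_prodQ hq (n + 1)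
      rw [pow_succ] at this
      linarith [show (0 : ℝ) < 2 ^ n by positivity]
    classical
    set n := Nat.find hex with hn
    have hn1 : 1 / r < prodQ q (n + 1) := Nat.find_spec hex
    have hn2 : (prodQ q n : ℝ) ≤ 1 / r := by
      rcases Nat.eq_zero_or_eq_succ_pred n with h0 | h0
      · rw [h0, prodQ_zero, Nat.cast_one]
        exact (one_le_div hr).2 hr1.le
      · have := Nat.find_min hex (m := n - 1) (by omega)
        rw [h0]
        exact not_lt.1 this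
    set Pn : ℝ := ((prodQ q (n + 1) : ℕ) : ℝ) with hPn
    have hP : 0 < Pn := prodQ_pos hq _
    have hrP : 1 < r * Pn := by rwa [div_lt_iff₀' hr] at hn1
    have hsub : X ⁻¹' Set.Icc (a - r) (a + r) ⊆
        ⋃ k ∈ Icc ⌊Pn * (a - r)⌋ ⌊Pn * (a + r)⌋, {ω | ⌊Pn * X ω⌋ = k} := by
      intro ω hω
      simp only [Set.mem_iUnion, Set.mem_setOf_eq, mem_Icc]
      exact ⟨_, ⟨Int.floor_mono (mul_le_mul_of_nonneg_left hω.1 hP.le),
        Int.floor_mono (mul_le_mul_of_nonneg_left hω.2 hP.le)⟩, rfl⟩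
    refine (measure_mono hsub).trans ((measure_biUnion_finset_le _ _).trans ?_)
    refine (sum_le_card_nsmul _ _ _ fun k _ => h1 (n + 1) k).trans ?_
    rw [nsmul_eq_mul, ← ENNReal.ofReal_natCast, ← ENNReal.ofReal_mul (Nat.cast_nonneg _)]
    apply ENNReal.ofReal_le_ofReal
    have hcard : (#(Icc ⌊Pn * (a - r)⌋ ⌊Pn * (a + r)⌋) : ℝ) ≤ 4 * (r * Pn) := by
      have hle : ⌊Pn * (a - r)⌋ ≤ ⌊Pn * (a + r)⌋ + 1 :=
        (Int.floor_mono (mul_le_mul_of_nonneg_left (show a - r ≤ a + r by linarith) hP.le)).trans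
          (by omega)
      have e := Int.card_Icc_of_le _ _ hle
      have e' : (#(Icc ⌊Pn * (a - r)⌋ ⌊Pn * (a + r)⌋) : ℝ) =
          ⌊Pn * (a + r)⌋ + 1 - ⌊Pn * (a - r)⌋ := by exact_mod_cast e
      rw [e']
      have f1 := Int.floor_le (Pn * (a + r))
      have f2 := Int.lt_floor_add_one (Pn * (a - r))
      nlinarith
    have hpow : (1 + τ) ^ n ≤ r ^ ((s : ℝ) - 1) := by
      calc (1 + τ) ^ n ≤ ((2 : ℝ) ^ (1 - (s : ℝ))) ^ n := pow_le_pow_left₀ (by linarith) hτs n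
        _ = ((2 : ℝ) ^ n) ^ (1 - (s : ℝ)) := by
          rw [← Real.rpow_natCast, ← Real.rpow_mul zero_le_two, mul_comm,
            Real.rpow_mul zero_le_two, Real.rpow_natCast]
        _ ≤ (1 / r) ^ (1 - (s : ℝ)) := by
          apply Real.rpow_le_rpow (by positivity) _ (by linarith)
          refine le_trans ?_ hn2
          exact_mod_cast two_pow_le_prodQ hq n
        _ = r ^ ((s : ℝ) - 1) := by
          rw [one_div, Real.inv_rpow hr.le, ← Real.rpow_neg hr.le, neg_sub]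
    calc (#(Icc ⌊Pn * (a - r)⌋ ⌊Pn * (a + r)⌋) : ℝ) * ((1 + τ) ^ (n + 1) / Pn)
        ≤ 4 * (r * Pn) * ((1 + τ) ^ (n + 1) / Pn) :=
          mul_le_mul_of_nonneg_right hcard (by positivity)
      _ = 4 * r * (1 + τ) * (1 + τ) ^ n := by field_simp; ring
      _ ≤ 4 * r * 2 * r ^ ((s : ℝ) - 1) :=
          mul_le_mul (mul_le_mul_of_nonneg_left (by linarith) (by positivity)) hpow
            (by positivity) (by positivity)
      _ = 8 * r ^ (s : ℝ) := by
          rw [Real.rpow_sub_one hr.ne']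
          field_simp
          norm_num
  let ν : Measure ℝ := (8 : ℝ≥0∞)⁻¹ • (PP q t).map X
  have h3 : ν ≤ Measure.hausdorffMeasure (s : ℝ) := by
    refine Measure.le_hausdorffMeasure _ ν (ENNReal.ofReal (1 / 2)) (by simp) fun A hA => ?_
    rcases A.eq_empty_or_nonempty with rfl | ⟨a, ha⟩
    · simp
    have hfin : Metric.ediam A ≠ ⊤ := ne_top_of_le_ne_top ENNReal.ofReal_ne_top hA
    set r₀ := (Metric.ediam A).toReal with hr₀
    have hr0 : 0 ≤ r₀ := ENNReal.toReal_nonneg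
    have hr1 : r₀ ≤ 1 / 2 := ENNReal.toReal_le_of_le_ofReal (by norm_num) hA
    have hb : ∀ r, r₀ < r → r < 1 → (PP q t).map X A ≤ ENNReal.ofReal (8 * r ^ (s : ℝ)) := by
      intro r h1 h2'
      have hsub : A ⊆ Set.Icc (a - r) (a + r) := by
        intro b hb
        have : dist b a ≤ r₀ := by
          rw [dist_edist]
          exact ENNReal.toReal_mono hfin (Metric.edist_le_ediam_of_mem hb ha)
        rw [Real.dist_eq, abs_le] at this
        constructor <;> linarith [this.1, this.2]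
      refine (measure_mono hsub).trans ?_
      rw [Measure.map_apply hXm measurableSet_Icc]
      exact h2 a r (by linarith) h2'
    have hlim : Tendsto (fun r : ℝ => ENNReal.ofReal (8 * r ^ (s : ℝ))) (𝓝[>] r₀)
        (𝓝 (ENNReal.ofReal (8 * r₀ ^ (s : ℝ)))) := by
      apply Tendsto.mono_left _ nhdsWithin_le_nhds
      exact (ENNReal.continuous_ofReal.comp
        (continuous_const.mul (Real.continuous_rpow_const s.2))).tendsto r₀
    have h4 : (PP q t).map X A ≤ ENNReal.ofReal (8 * r₀ ^ (s : ℝ)) := by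
      refine ge_of_tendsto hlim ?_
      filter_upwards [Ioo_mem_nhdsGT (show r₀ < 1 by linarith)] with r hr using hb r hr.1 hr.2
    rw [ENNReal.ofReal_mul (by norm_num), ← ENNReal.ofReal_rpow_of_nonneg hr0 (NNReal.coe_nonneg s), hr₀,
      ENNReal.ofReal_toReal hfin] at h4
    simp only [ν, Measure.smul_apply, smul_eq_mul]
    calc (8 : ℝ≥0∞)⁻¹ * (PP q t).map X A
        ≤ (8 : ℝ≥0∞)⁻¹ * (ENNReal.ofReal 8 * Metric.ediam A ^ (s : ℝ)) := by gcongr
      _ = Metric.ediam A ^ (s : ℝ) := by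
          rw [← mul_assoc, ENNReal.ofReal_ofNat, ENNReal.inv_mul_cancel (by simp) (by simp),
            one_mul]
  apply le_dimH_of_hausdorffMeasure_ne_zero
  intro h0
  have h5 : ν S = 0 := le_antisymm ((h3 S).trans h0.le) zero_le
  simp only [ν, Measure.smul_apply, smul_eq_mul, mul_eq_zero, ENNReal.inv_eq_zero] at h5
  have h6 : PP q t (X ⁻¹' S) = 0 := by
    rcases h5 with h5 | h5
    · simp at h5
    · exact le_antisymm ((Measure.le_map_apply hXm.aemeasurable S).trans h5.le) zero_le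
  have h7 : ∀ᵐ ω ∂(PP q t), ω ∉ X ⁻¹' S := measure_eq_zero_iff_ae_notMem.1 h6
  obtain ⟨ω, hω1, hω2⟩ := (hG.and h7).exists
  exact hω2 (by rw [Set.mem_preimage, hXG ω hω1]; exact hω1.2.2)

end Pool.Agent.P.MP_ac93c9_an
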