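import Pool.Agent.P.MP_ac93c9_an.Defs

namespace Pool.Agent.P.MP_ac93c9_an

open Filter Topology Set

section Pi03
variable {Y : Type} [TopologicalSpace Y]

theorem isPi03_of_countable {ι : Type} [Countable ι] (F : ι → ℕ → Set Y)
    (hF : ∀ i j, IsClosed (F i j)) : IsPi03 (⋂ i, ⋃ j, F i j) := by
  rcases isEmpty_or_nonempty ι with h | h
  · refine ⟨fun _ _ => univ, fun _ _ => isClosed_univ, ?_⟩
    ext y
    simp
  · obtain ⟨e, he⟩ := exists_surjective_nat ι
    refine ⟨fun i j => F (e i) j, fun i j => hF _ _, ?_⟩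
    ext y
    simp only [mem_iInter]
    constructor
    · intro h i
      exact h (e i)
    · intro h i
      obtain ⟨k, rfl⟩ := he i
      exact h k

theorem IsPi03.inter {A B : Set Y} (hA : IsPi03 A) (hB : IsPi03 B) : IsPi03 (A ∩ B) := by
  obtain ⟨F, hF, rfl⟩ := hA
  obtain ⟨G, hG, rfl⟩ := hB
  have := isPi03_of_countable (ι := ℕ ⊕ ℕ) (fun i j => Sum.elim (fun a => F a j) (fun b => G b j) i)
    (by rintro (a | b) j <;> simp [hF, hG])
  convert this using 1
  ext y
  simp only [mem_inter_iff, mem_iInter, Sum.forall, Sum.elim_inl, Sum.elim_inr]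

/-- Convergence conditions for functions continuous at the points of `I` are of the class
relative to `I`. -/
theorem exists_isPi03_tendsto {ι : Type} [Countable ι] (I : Set Y) (u : ι → ℕ → Y → ℝ)
    (c : ι → ℝ) (hu : ∀ i N, ∀ y ∈ I, ContinuousAt (u i N) y) :
    ∃ B : Set Y, IsPi03 B ∧ ∀ y ∈ I, (y ∈ B ↔ ∀ i, Tendsto (fun N => u i N y) atTop (𝓝 (c i))) := by
  let F : ι × ℕ → ℕ → Set Y := fun p j => {y | ∀ N, j ≤ N → |u p.1 N y - c p.1| ≤ 1 / (p.2 + 1)}
  refine ⟨⋂ p, ⋃ j, closure (F p j), isPi03_of_countable _ (fun _ _ => isClosed_closure), ?_⟩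
  intro y hy
  have hcl : ∀ p j, y ∈ closure (F p j) ↔ y ∈ F p j := by
    intro p j
    refine ⟨fun h => ?_, fun h => subset_closure h⟩
    intro N hN
    have hc : ContinuousAt (fun z => |u p.1 N z - c p.1|) y :=
      ((hu p.1 N y hy).sub continuousAt_const).abs
    have := hc.continuousWithinAt.mem_closure_image h
    have h2 : (fun z => |u p.1 N z - c p.1|) '' F p j ⊆ Iic (1 / ((p.2 : ℝ) + 1)) := by
      rintro _ ⟨z, hz, rfl⟩
      exact hz N hN
    exact isClosed_Iic.closure_subset_iff.2 h2 this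
  simp only [mem_iInter, mem_iUnion, hcl]
  constructor
  · intro h i
    rw [Metric.tendsto_atTop]
    intro ε hε
    obtain ⟨k, hk⟩ := exists_nat_one_div_lt hε
    obtain ⟨j, hj⟩ := h (i, k)
    exact ⟨j, fun N hN => lt_of_le_of_lt (by simpa [Real.dist_eq] using hj N hN) hk⟩
  · rintro h ⟨i, k⟩
    have := h i
    rw [Metric.tendsto_atTop] at this
    obtain ⟨j, hj⟩ := this (1 / ((k : ℝ) + 1)) Nat.one_div_pos_of_nat
    exact ⟨j, fun N hN => by simpa [Real.dist_eq] using (hj N hN).le⟩

end Pi03

theorem isPi03_irrational : IsPi03 {y : Set.Ico (0 : ℝ) 1 | Irrational y.1} := by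
  have := isPi03_of_countable (Y := Set.Ico (0 : ℝ) 1) (ι := ℚ)
    (fun r j => {y | 1 / ((j : ℝ) + 1) ≤ |y.1 - r|})
    (fun r j => isClosed_le continuous_const (by fun_prop))
  convert this using 1
  ext y
  simp only [mem_setOf_eq, mem_iInter, mem_iUnion]
  constructor
  · intro h r
    have : 0 < |y.1 - r| := abs_pos.2 (sub_ne_zero.2 (fun e => h ⟨r, e.symm⟩))
    obtain ⟨k, hk⟩ := exists_nat_one_div_lt this
    exact ⟨k, hk.le⟩
  · rintro h ⟨r, hr⟩
    obtain ⟨j, hj⟩ := h r
    rw [hr, sub_self, abs_zero] at hj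
    exact absurd hj (not_le.2 Nat.one_div_pos_of_nat)

/-- A set of the class in Cantor space is the set where a sequence of locally determined
functions tends to infinity. -/
theorem exists_seq_of_isPi03 {A : Set (ℕ → Bool)} (hA : IsPi03 A) :
    ∃ a : ℕ → (ℕ → Bool) → ℕ, (∀ n, Continuous (a n)) ∧ (∀ n z, a n z ≤ n) ∧
      ∀ z, z ∈ A ↔ Tendsto (fun n => a n z) atTop atTop := by
  obtain ⟨F, hF, rfl⟩ := hA
  let J : ℕ → ℕ → (ℕ → Bool) → ℕ := fun i n z =>
    sInf {j | n ≤ j ∨ ∃ z' ∈ F i j, ∀ k < n, z' k = z k}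
  let a : ℕ → (ℕ → Bool) → ℕ := fun n z => sInf {i | n ≤ i ∨ J i (n + 1) z ≠ J i n z}
  have hJloc : ∀ i n z w, (∀ k < n, z k = w k) → J i n z = J i n w := by
    intro i n z w h
    simp only [J]
    congr 1
    ext j
    simp only [mem_setOf_eq]
    refine or_congr Iff.rfl ⟨?_, ?_⟩
    · rintro ⟨z', hz', h'⟩
      exact ⟨z', hz', fun k hk => (h' k hk).trans (h k hk)⟩
    · rintro ⟨z', hz', h'⟩
      exact ⟨z', hz', fun k hk => (h' k hk).trans (h k hk).symm⟩
  have haloc : ∀ n z w, (∀ k < n + 1, z k = w k) → a n z = a n w := by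
    intro n z w h
    simp only [a]
    congr 1
    ext i
    simp only [mem_setOf_eq]
    rw [hJloc i (n + 1) z w h, hJloc i n z w (fun k hk => h k (by omega))]
  have hJmem : ∀ i n z, n ≤ J i n z ∨ ∃ z' ∈ F i (J i n z), ∀ k < n, z' k = z k := by
    intro i n z
    exact Nat.sInf_mem (s := {j | n ≤ j ∨ ∃ z' ∈ F i j, ∀ k < n, z' k = z k}) ⟨n, Or.inl le_rfl⟩
  have hJmono : ∀ i z, Monotone (fun n => J i n z) := by
    intro i z
    apply monotone_nat_of_le_succ
    intro n
    apply Nat.sInf_le
    rcases hJmem i (n + 1) z with h | ⟨z', hz', h⟩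
    · exact Or.inl (by omega)
    · exact Or.inr ⟨z', hz', fun k hk => h k (by omega)⟩
  have hamem : ∀ n z, n ≤ a n z ∨ J (a n z) (n + 1) z ≠ J (a n z) n z := by
    intro n z
    exact Nat.sInf_mem (s := {i | n ≤ i ∨ J i (n + 1) z ≠ J i n z}) ⟨n, Or.inl le_rfl⟩
  refine ⟨a, ?_, ?_, ?_⟩
  · intro n
    refine IsLocallyConstant.continuous ?_
    rw [IsLocallyConstant.iff_eventually_eq]
    intro z
    have : ∀ᶠ w in 𝓝 z, ∀ k ∈ Finset.range (n + 1), w k = z k := by
      rw [Finset.eventually_all]
      intro k _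
      exact (continuous_apply k).continuousAt.eventually (isOpen_discrete {z k} |>.mem_nhds rfl)
    filter_upwards [this] with w hw
    exact haloc n w z (fun k hk => hw k (Finset.mem_range.2 hk))
  · intro n z
    exact Nat.sInf_le (Or.inl le_rfl)
  · intro z
    simp only [mem_iInter, mem_iUnion]
    constructor
    · intro h
      have hev : ∀ i, ∀ᶠ n in atTop, J i (n + 1) z = J i n z := by
        intro i
        obtain ⟨j, hj⟩ := h i
        have hb : ∀ n, J i n z ≤ j := fun n => Nat.sInf_le (Or.inr ⟨z, hj, fun _ _ => rfl⟩)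
        obtain ⟨b, n₀, hn₀⟩ := converges_of_monotone_of_bounded (hJmono i z) hb
        filter_upwards [eventually_ge_atTop n₀] with n hn
        rw [hn₀ n hn, hn₀ (n + 1) (by omega)]
      rw [tendsto_atTop]
      intro I
      have : ∀ᶠ n in atTop, ∀ i ∈ Finset.range I, J i (n + 1) z = J i n z :=
        (Finset.eventually_all _).2 (fun i _ => hev i)
      filter_upwards [this, eventually_ge_atTop I] with n hn hI
      by_contra hlt
      rcases hamem n z with h1 | h1
      · omega
      · exact h1 (hn _ (Finset.mem_range.2 (by omega)))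
    · intro h i
      by_contra hne
      push Not at hne
      have h1 : ∀ᶠ n in atTop, J i (n + 1) z = J i n z := by
        filter_upwards [h.eventually_gt_atTop i] with n hn
        by_contra hc
        have : a n z ≤ i := Nat.sInf_le (Or.inr hc)
        omega
      obtain ⟨n₀, hn₀⟩ := eventually_atTop.1 h1
      have h2 : ∀ n, n₀ ≤ n → J i n z = J i n₀ z := by
        intro n hn
        induction n, hn using Nat.le_induction with
        | base => rfl
        | succ n hn ih => rw [hn₀ n hn, ih]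
      set j := J i n₀ z with hj
      have hz : z ∈ F i j := by
        have hcl : z ∈ closure (F i j) := by
          rw [mem_closure_iff_nhds]
          intro U hU
          rw [nhds_pi, Filter.mem_pi] at hU
          obtain ⟨S, hS, t, ht, hsub⟩ := hU
          obtain ⟨m, hm⟩ := hS.bddAbove
          set n := max (max n₀ (m + 1)) (j + 1) with hn
          rcases hJmem i n z with h3 | ⟨z', hz', h3⟩
          · rw [h2 n (by omega)] at h3
            omega
          · rw [h2 n (by omega)] at hz'
            refine ⟨z', hsub ?_, hz'⟩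
            intro k hk
            have := hm hk
            rw [h3 k (by omega)]
            exact mem_of_mem_nhds (ht k)
        exact (hF i j).closure_subset hcl
      exact hne j hz

end Pool.Agent.P.MP_ac93c9_an
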