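import Pool.Agent.P.MP_ac93c9_an.Expansion
import Pool.Agent.P.MP_ac93c9_an.Pi03

namespace Pool.Agent.P.MP_ac93c9_an

open Filter Topology Finset

theorem isD2Pi03_diff {q : ℕ → ℕ} (hq : ∀ n, 2 ≤ q n) :
    IsD2Pi03 ((Subtype.val : Set.Ico (0 : ℝ) 1 → ℝ) ⁻¹' (distNormalSet q \ normalSet q)) := by
  let I : Set (Set.Ico (0 : ℝ) 1) := {y | Irrational y.1}
  obtain ⟨A, hA, hA'⟩ := exists_isPi03_tendsto (ι := ℚ) I
    (fun r N y => avg (fun i => ind r (yy q y.1 i)) N) (fun r => clamp r) (by
      intro r N y hy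
      have h1 : ∀ᶠ z in 𝓝 y.1, ∀ i ∈ range N, ind r (yy q z i) = ind r (yy q y.1 i) :=
        (Finset.eventually_all _).2 fun i _ => eventually_ind_eq hq hy r i
      have h2 := continuous_subtype_val.continuousAt.eventually h1
      refine (continuousAt_const (y := avg (fun i => ind r (yy q y.1 i)) N)).congr ?_
      filter_upwards [h2] with z hz
      simp only [avg, psum]
      rw [sum_congr rfl hz])
  obtain ⟨B, hB, hB'⟩ := exists_isPi03_tendsto
    (ι := {D : Σ l : ℕ, Fin l → ℕ // Tendsto (expCount q D.2) atTop atTop}) I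
    (fun D N y => (blockCount q D.1.2 y.1 N : ℝ) / expCount q D.1.2 N) (fun _ => 1) (by
      intro D N y hy
      have h1 : ∀ᶠ z in 𝓝 y.1, ∀ n ∈ range (N + D.1.1 + 1), digit q z n = digit q y.1 n :=
        (Finset.eventually_all _).2 fun n _ => eventually_digit_eq hq hy n
      have h2 := continuous_subtype_val.continuousAt.eventually h1
      refine (continuousAt_const
        (y := (blockCount q D.1.2 y.1 N : ℝ) / expCount q D.1.2 N)).congr ?_
      filter_upwards [h2] with z hz
      congr 2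
      unfold blockCount
      congr 1
      refine filter_congr fun i hi => forall_congr' fun j => ?_
      have := (mem_Icc.1 hi).2
      have := j.2
      rw [hz _ (mem_range.2 (by omega))])
  refine ⟨I ∩ A, B, isPi03_irrational.inter hA, hB, ?_⟩
  ext y
  simp only [Set.mem_preimage, Set.mem_diff, Set.mem_inter_iff]
  have hDN : y.1 ∈ distNormalSet q ↔ y ∈ I ∧ y ∈ A := by
    simp only [distNormalSet, Set.mem_setOf_eq, unifDist_iff_DN]
    constructor
    · rintro ⟨-, h⟩
      exact ⟨h.irrational, (hA' y h.irrational).2 ((DN_iff_rat q y.1).1 h)⟩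
    · rintro ⟨h1, h2⟩
      exact ⟨y.2, (DN_iff_rat q y.1).2 ((hA' y h1).1 h2)⟩
  rw [hDN]
  refine and_congr_right fun h => not_congr ?_
  rw [hB' y h.1]
  constructor
  · rintro ⟨-, h⟩ D
    exact h _ _ D.2
  · intro h
    exact ⟨y.2, fun l D hD => h ⟨⟨l, D⟩, hD⟩⟩

end Pool.Agent.P.MP_ac93c9_an
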