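import Pool.Agent.P.MP_ac93c9_an.Determ
import Pool.Agent.P.MP_ac93c9_an.Dim
import Pool.Agent.P.MP_ac93c9_an.Member

namespace Pool.Agent.P.MP_ac93c9_an

open Filter Topology Finset MeasureTheory
open scoped NNReal ENNReal

/-- The size of a bias parameter. -/
noncomputable def par (τ : ℝ) (a : ℕ) : ℝ := τ / 2 * (1 / ((a : ℝ) + 1))

theorem par_nonneg {τ : ℝ} (hτ : 0 < τ) (a : ℕ) : 0 ≤ par τ a := by
  unfold par
  positivity

theorem par_le {τ : ℝ} (hτ : 0 < τ) (a : ℕ) : par τ a ≤ τ / 2 := by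
  unfold par
  apply mul_le_of_le_one_right (by positivity)
  rw [div_le_one (by positivity)]
  linarith [show (0 : ℝ) ≤ a from Nat.cast_nonneg a]

theorem tendsto_par_iff {τ : ℝ} (hτ : 0 < τ) (a : ℕ → ℕ) :
    Tendsto (fun n => par τ (a n)) atTop (𝓝 0) ↔ Tendsto a atTop atTop := by
  constructor
  · intro h
    rw [tendsto_atTop]
    intro b
    have hb : 0 < par τ b := by
      unfold par
      positivity
    filter_upwards [h.eventually (gt_mem_nhds hb)] with n hn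
    by_contra hc
    have h1 : (a n : ℝ) + 1 ≤ b + 1 := by
      have : a n ≤ b := by omega
      exact_mod_cast Nat.succ_le_succ this
    have h2 : 1 / ((b : ℝ) + 1) ≤ 1 / ((a n : ℝ) + 1) :=
      one_div_le_one_div_of_le (by positivity) h1
    have := mul_le_mul_of_nonneg_left h2 (show 0 ≤ τ / 2 by positivity)
    unfold par at hn
    linarith
  · intro h
    have := (tendsto_one_div_add_atTop_nhds_zero_nat (𝕜 := ℝ).comp h).const_mul (τ / 2)
    simpa [par, Function.comp_def] using this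

/-- A family of biases with the required statistics. -/
def Family (q : ℕ → ℕ) (τ : ℝ) : Prop :=
  ∃ (cD : List ℕ → ℝ) (r₀ : ℚ) (κ₀ κ₁ : ℝ) (err : ℕ → ℝ) (tt : ℕ × ℕ × ℕ → ℕ → ℝ)
    (c : ℕ × ℕ × ℕ → Test → ℝ),
    (∀ D, Ces (UD q D) (cD D)) ∧ (∀ D, cD D ≤ 0 → ∀ i, UD q D i = 0) ∧ 0 < κ₀ ∧ 0 < κ₁ ∧
    Tendsto err atTop (𝓝 0) ∧ (∀ θ m, |tt θ m| ≤ τ) ∧
    (∀ θ (κ : Test), Ces (fun i => Ex (win i q) (win i (tt θ)) κ.W (κ.F (win i q))) (c θ κ)) ∧
    ∀ L a b, Est cD r₀ κ₀ κ₁ (c (L, a, b)) (par τ a) (par τ b) (err L)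

theorem hard_of_family {q : ℕ → ℕ} (hq : ∀ n, 2 ≤ q n) {τ : ℝ} (hτ : 0 < τ) (hτ1 : τ ≤ 1)
    (h : Family q τ) (E : Set (ℕ → Bool)) (hE : IsD2Pi03 E) :
    ∃ φ : (ℕ → Bool) → Set.Ico (0 : ℝ) 1, Continuous φ ∧
      E = φ ⁻¹' ((Subtype.val : Set.Ico (0 : ℝ) 1 → ℝ) ⁻¹' (distNormalSet q \ normalSet q)) := by
  obtain ⟨cD, r₀, κ₀, κ₁, err, tt, c, hcD, hcD0, hκ₀, hκ₁, herr, htt, hces, hest⟩ := h
  obtain ⟨A, B, hA, hB, rfl⟩ := hE
  obtain ⟨a, hac, hale, ha⟩ := exists_seq_of_isPi03 hA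
  obtain ⟨b, hbc, hble, hb⟩ := exists_seq_of_isPi03 hB
  have hω : ∀ θ, ∃ ω : ℕ → ℕ, (∀ m, ω m < q m) ∧
      ∀ κ : Test, Ces (fun i => κ.F (win i q) (win i ω)) (c θ κ) := by
    intro θ
    have ht : ∀ n, |tt θ n| ≤ 1 := fun n => (htt θ n).trans hτ1
    have := PP_prob hq ht
    obtain ⟨ω, h1, h2⟩ := ((ae_PP_lt hq ht).and (ae_all_iff.2 (ae_test hq ht))).exists
    refine ⟨ω, h1, fun κ => ?_⟩
    have := (h2 κ).add (hces θ κ)
    simp only [sub_add_cancel, zero_add] at this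
    exact this
  choose ω hω1 hω2 using hω
  obtain ⟨M, hM, -, hsw⟩ := exists_switch (fun n => {n} ×ˢ (Iic n ×ˢ Iic n))
    (fun θ (κ : Test) i => κ.F (win i q) (win i (ω θ))) c Test.W
    (fun _ κ _ => (κ.F_bounds _ _).1) (fun _ κ _ => (κ.F_bounds _ _).2) hω2
  let d : (ℕ → Bool) → ℕ → ℕ := fun z m => ω (stage M m, a (stage M m) z, b (stage M m) z) m
  have hd : ∀ z m, d z m < q m := fun z m => hω1 _ _
  have hdc : ∀ m, Continuous fun z => d z m := fun m =>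
    (continuous_of_discreteTopology (f := fun p : ℕ × ℕ => ω (stage M m, p) m)).comp
      ((hac _).prodMk (hbc _))
  have key := fun z => determ hq (hd z) hcD hcD0 hκ₀ hκ₁ (fun n => par_nonneg hτ (a n z))
    (fun n => par_nonneg hτ (b n z)) herr (fun n => hest n (a n z) (b n z)) hM (fun κ => by
      refine hsw (fun n => (n, a n z, b n z)) (fun n => by simp [hale, hble]) κ _
        (fun _ => (κ.F_bounds _ _).1) (fun _ => (κ.F_bounds _ _).2) fun n i h1 h2 => ?_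
      refine κ.F_congr (fun _ _ => rfl) fun k hk => ?_
      simp only [win, d]
      rw [stage_eq hM (n := n) (by omega) (by omega)])
  refine ⟨fun z => ⟨xOf q (d z), (xOf_spec hq (hd z) (key z).1).1⟩,
    (continuous_xOf hq hd hdc).subtype_mk _, ?_⟩
  ext z
  simp only [Set.mem_diff, Set.mem_preimage]
  rw [(key z).2.1, ha, hb, ← tendsto_par_iff hτ, ← tendsto_par_iff hτ]
  exact and_congr_right fun h => not_congr ((key z).2.2 h).symm

theorem dim_of_family {q : ℕ → ℕ} (hq : ∀ n, 2 ≤ q n) {τ : ℝ} (hτ : 0 < τ) (hτ1 : τ ≤ 1)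
    (h : Family q τ) (s : ℝ≥0) (hs : (s : ℝ) ≤ 1) (hτs : 1 + τ ≤ (2 : ℝ) ^ (1 - (s : ℝ))) :
    (s : ℝ≥0∞) ≤ dimH (distNormalSet q \ normalSet q) := by
  obtain ⟨cD, r₀, κ₀, κ₁, err, tt, c, hcD, hcD0, hκ₀, hκ₁, herr, htt, hces, hest⟩ := h
  have hEx : ∀ (t : ℕ → ℝ), (∀ n, |t n| ≤ 1) → ∀ (κ : Test) i,
      0 ≤ Ex (win i q) (win i t) κ.W (κ.F (win i q)) ∧
      Ex (win i q) (win i t) κ.W (κ.F (win i q)) ≤ 1 := fun t ht κ i =>
    Ex_bounds (fun _ => hq _) (fun _ => ht _) _ (κ.F_bounds _)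
  have ht : ∀ θ n, |tt θ n| ≤ 1 := fun θ n => (htt θ n).trans hτ1
  obtain ⟨M, hM, -, hsw⟩ := exists_switch (fun n => {(n, n, 0)})
    (fun θ (κ : Test) i => Ex (win i q) (win i (tt θ)) κ.W (κ.F (win i q))) c Test.W
    (fun θ κ i => (hEx _ (ht θ) κ i).1) (fun θ κ i => (hEx _ (ht θ) κ i).2) hces
  let t : ℕ → ℝ := fun m => tt (stage M m, stage M m, 0) m
  have ht' : ∀ n, |t n| ≤ 1 := fun n => ht _ _
  refine le_dimH_of_ae hq (t := t) (fun n => htt _ _) hτ1 s hs hτs ?_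
  filter_upwards [ae_PP_lt hq ht', ae_all_iff.2 (ae_test hq ht')] with ω h1 h2
  have key := determ hq h1 hcD hcD0 hκ₀ hκ₁ (fun n => par_nonneg hτ n)
    (fun n => par_nonneg hτ 0) herr (fun n => hest n n 0) hM (fun κ => by
      refine Follows.of_close hM (hsw (fun n => (n, n, 0)) (fun n => by simp) κ _
        (fun i => (hEx t ht' κ i).1) (fun i => (hEx t ht' κ i).2) fun n i h1 h2 => ?_) (h2 κ)
      refine Ex_congr _ (fun _ _ => rfl) (fun k hk => ?_) _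
      simp only [win, t]
      rw [stage_eq hM (n := n) (by omega) (by omega)])
  have hγ : Tendsto (fun n => par τ n) atTop (𝓝 0) := (tendsto_par_iff hτ id).2 tendsto_id
  refine ⟨key.1, key.2.1.2 hγ, fun hN => ?_⟩
  have h3 := (tendsto_par_iff hτ fun _ => 0).1 ((key.2.2 hγ).1 hN)
  obtain ⟨n, hn⟩ := (h3.eventually_gt_atTop 0).exists
  exact lt_irrefl _ hn

theorem main_of_family {q : ℕ → ℕ} (hq : ∀ n, 2 ≤ q n)
    (h : ∀ τ : ℝ, 0 < τ → τ ≤ 1 → Family q τ) :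
    dimH (distNormalSet q \ normalSet q) = 1 ∧
      IsD2Pi03Complete
        ((Subtype.val : Set.Ico (0 : ℝ) 1 → ℝ) ⁻¹' (distNormalSet q \ normalSet q)) := by
  refine ⟨le_antisymm ((dimH_mono (Set.subset_univ _)).trans Real.dimH_univ.le) ?_,
    isD2Pi03_diff hq, hard_of_family hq one_pos le_rfl (h 1 one_pos le_rfl)⟩
  refine le_of_forall_lt_imp_le_of_dense fun a ha => ?_
  lift a to ℝ≥0 using ha.ne_top
  have ha' : (a : ℝ) < 1 := by exact_mod_cast ha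
  have h1 : 1 < (2 : ℝ) ^ (1 - (a : ℝ)) := Real.one_lt_rpow one_lt_two (by linarith)
  have h2 : (2 : ℝ) ^ (1 - (a : ℝ)) ≤ 2 ^ (1 : ℝ) :=
    Real.rpow_le_rpow_of_exponent_le one_le_two (by linarith [a.2, NNReal.coe_nonneg a])
  rw [Real.rpow_one] at h2
  exact dim_of_family hq (τ := (2 : ℝ) ^ (1 - (a : ℝ)) - 1) (by linarith) (by linarith)
    (h _ (by linarith) (by linarith)) a ha'.le (by linarith)

end Pool.Agent.P.MP_ac93c9_an
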