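import Pool.Agent.P.MP_ac93c9_an.Defs

namespace Pool.Agent.P.MP_ac93c9_an

open Filter Topology Finset

/-- Partial sums. -/
noncomputable def psum (u : ℕ → ℝ) (N : ℕ) : ℝ := ∑ i ∈ range N, u i

/-- Cesaro averages. -/
noncomputable def avg (u : ℕ → ℝ) (N : ℕ) : ℝ := psum u N / N

/-- Cesaro convergence. -/
def Ces (u : ℕ → ℝ) (c : ℝ) : Prop := Tendsto (avg u) atTop (𝓝 c)

theorem sum_Icc_eq_psum (u : ℕ → ℝ) (N : ℕ) :
    ∑ n ∈ Icc 1 N, u n = psum (fun i => u (i + 1)) N := by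
  induction N with
  | zero => simp [psum]
  | succ N ih =>
    rw [Finset.sum_Icc_succ_top (by omega), ih]
    simp [psum, sum_range_succ]

theorem tendsto_of_bound {a b : ℕ → ℝ} {c K : ℝ} (hb : Tendsto b atTop (𝓝 c))
    (h : ∀ N, |a N - b N| ≤ K / N) : Tendsto a atTop (𝓝 c) := by
  have h0 : Tendsto (fun N => a N - b N) atTop (𝓝 0) := by
    rw [tendsto_zero_iff_abs_tendsto_zero]
    exact squeeze_zero (fun _ => abs_nonneg _) h (tendsto_const_div_atTop_nhds_zero_nat K)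
  simpa using h0.add hb

theorem abs_avg_sub_le {u v : ℕ → ℝ} {K : ℝ} (h : ∀ N, |psum u N - psum v N| ≤ K) (N : ℕ) :
    |avg u N - avg v N| ≤ K / N := by
  rw [avg, avg, ← sub_div, abs_div, Nat.abs_cast]
  exact div_le_div_of_nonneg_right (h N) (Nat.cast_nonneg N)

theorem ces_shift_one {u : ℕ → ℝ} {C c : ℝ} (hu : ∀ i, |u i| ≤ C) :
    Ces (fun i => u (i + 1)) c ↔ Ces u c := by
  have key : ∀ N, |psum (fun i => u (i + 1)) N - psum u N| ≤ 2 * C := by
    intro N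
    have h1 : psum (fun i => u (i + 1)) N - psum u N = u N - u 0 := by
      have := Finset.sum_range_succ' u N
      rw [Finset.sum_range_succ] at this
      simp only [psum]
      linarith
    rw [h1]
    have := hu N
    have := hu 0
    have := abs_sub (u N) (u 0)
    linarith
  constructor
  · intro h
    exact tendsto_of_bound h (abs_avg_sub_le (K := 2 * C) (fun N => by rw [abs_sub_comm]; exact key N))
  · intro h
    exact tendsto_of_bound h (abs_avg_sub_le key)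

theorem ces_shift {u : ℕ → ℝ} {C c : ℝ} (hu : ∀ i, |u i| ≤ C) (L : ℕ) :
    Ces (fun i => u (i + L)) c ↔ Ces u c := by
  induction L with
  | zero => simp
  | succ L ih =>
    rw [← ih, ← ces_shift_one (u := fun i => u (i + L)) (C := C) (fun i => hu _)]
    simp only [add_assoc, add_comm 1 L]

theorem psum_sub_psum (u : ℕ → ℝ) {a N : ℕ} (h : a ≤ N) :
    psum u N - psum u a = ∑ i ∈ Ico a N, u i := by
  rw [psum, psum, ← Finset.sum_range_add_sum_Ico _ h]
  ring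

theorem psum_nonneg {u : ℕ → ℝ} (hu : ∀ i, 0 ≤ u i) (N : ℕ) : 0 ≤ psum u N :=
  sum_nonneg fun i _ => hu i

theorem psum_le {u : ℕ → ℝ} (hu : ∀ i, u i ≤ 1) (N : ℕ) : psum u N ≤ N := by
  have := sum_le_card_nsmul (range N) u 1 (fun i _ => hu i)
  simpa [psum] using this

theorem avg_mono {u v : ℕ → ℝ} (h : ∀ i, u i ≤ v i) (N : ℕ) : avg u N ≤ avg v N :=
  div_le_div_of_nonneg_right (sum_le_sum fun i _ => h i) (Nat.cast_nonneg N)

theorem Ces.mem_Icc {u : ℕ → ℝ} {c : ℝ} (h : Ces u c) (h0 : ∀ i, 0 ≤ u i) (h1 : ∀ i, u i ≤ 1) :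
    0 ≤ c ∧ c ≤ 1 := by
  constructor
  · exact ge_of_tendsto' h fun N => div_nonneg (psum_nonneg h0 N) (Nat.cast_nonneg N)
  · exact le_of_tendsto' h fun N => div_le_one_of_le₀ (psum_le h1 N) (Nat.cast_nonneg N)

/-- The asymptotic description of a sequence whose statistics follow `c n` on the `n`-th stage. -/
def Follows (M : ℕ → ℕ) (c : ℕ → ℝ) (v : ℕ → ℝ) : Prop :=
  Tendsto (fun n => avg v (M (n + 1)) - c n) atTop (𝓝 0) ∧
    ∀ c₀, Tendsto c atTop (𝓝 c₀) → Ces v c₀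

theorem Follows.of_close {M : ℕ → ℕ} (hM : StrictMono M) {c v w : ℕ → ℝ} (h : Follows M c v)
    (hw : Tendsto (fun N => avg w N - avg v N) atTop (𝓝 0)) : Follows M c w := by
  constructor
  · have h1 := hw.comp (hM.tendsto_atTop.comp (tendsto_add_atTop_nat 1))
    have := h1.add h.1
    simpa [Function.comp_def] using this
  · intro c₀ hc
    have := hw.add (h.2 c₀ hc)
    simp only [sub_add_cancel, zero_add] at this
    exact this

theorem sum_Ico_close {u v : ℕ → ℝ} (hu0 : ∀ i, 0 ≤ u i) (hu1 : ∀ i, u i ≤ 1)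
    (hv0 : ∀ i, 0 ≤ v i) (hv1 : ∀ i, v i ≤ 1) {a b W N : ℕ} (hN : N ≤ b)
    (h : ∀ i, a ≤ i → i + W ≤ b → v i = u i) :
    |∑ i ∈ Ico a N, v i - ∑ i ∈ Ico a N, u i| ≤ W := by
  rw [← sum_sub_distrib]
  refine (abs_sum_le_sum_abs _ _).trans ?_
  have h1 : ∑ i ∈ Ico a N, |v i - u i| ≤ ∑ i ∈ Ico a N, (if b < i + W then (1 : ℝ) else 0) := by
    refine sum_le_sum fun i hi => ?_
    split_ifs with hc
    · rw [abs_le]
      constructor <;> linarith [hu0 i, hu1 i, hv0 i, hv1 i]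
    · rw [h i (mem_Ico.1 hi).1 (by omega)]
      simp
  refine h1.trans ?_
  rw [sum_boole]
  have : #{i ∈ Ico a N | b < i + W} ≤ #(Ico (b - W) b) := by
    refine card_le_card fun i hi => ?_
    simp only [mem_filter, mem_Ico] at hi ⊢
    omega
  rw [Nat.card_Ico] at this
  exact_mod_cast this.trans (by omega)

theorem exists_switch {Θ K : Type} [Countable K] (S : ℕ → Finset Θ) (u : Θ → K → ℕ → ℝ)
    (c : Θ → K → ℝ) (W : K → ℕ) (hu0 : ∀ θ κ i, 0 ≤ u θ κ i) (hu1 : ∀ θ κ i, u θ κ i ≤ 1)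
    (hc : ∀ θ κ, Ces (u θ κ) (c θ κ)) :
    ∃ M : ℕ → ℕ, StrictMono M ∧ M 0 = 0 ∧ ∀ θ : ℕ → Θ, (∀ n, θ n ∈ S n) → ∀ κ (v : ℕ → ℝ),
      (∀ i, 0 ≤ v i) → (∀ i, v i ≤ 1) →
      (∀ n i, M n ≤ i → i + W κ ≤ M (n + 1) → v i = u (θ n) κ i) →
      Follows M (fun n => c (θ n) κ) v := by
  obtain ⟨enc, henc⟩ := Countable.exists_injective_nat K
  have hfin : ∀ n, Set.Finite {κ | enc κ ≤ n} := fun n =>
    Set.Finite.preimage henc.injOn (Set.finite_Iic n)
  have hex : ∀ n : ℕ, ∃ N₀ : ℕ, ∀ N, N₀ ≤ N → ∀ θ ∈ S n, ∀ κ, enc κ ≤ n →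
      |psum (u θ κ) N - N * c θ κ| ≤ N / (n + 1) := by
    intro n
    have h1 : ∀ᶠ N : ℕ in atTop, ∀ θ ∈ S n, ∀ κ ∈ {κ | enc κ ≤ n},
        |psum (u θ κ) N - N * c θ κ| ≤ N / (n + 1) := by
      rw [Finset.eventually_all]
      intro θ _
      rw [(hfin n).eventually_all]
      intro κ _
      have h2 := (Metric.tendsto_nhds.1 (hc θ κ)) (1 / ((n : ℝ) + 1)) Nat.one_div_pos_of_nat
      filter_upwards [h2, eventually_gt_atTop 0] with N hN hN0
      have hN' : (0 : ℝ) < N := by exact_mod_cast hN0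
      rw [Real.dist_eq, avg] at hN
      have : psum (u θ κ) N - N * c θ κ = N * (psum (u θ κ) N / N - c θ κ) := by
        field_simp
      rw [this, abs_mul, abs_of_pos hN', div_eq_mul_one_div (N : ℝ)]
      exact mul_le_mul_of_nonneg_left hN.le hN'.le
    obtain ⟨N₀, h⟩ := eventually_atTop.1 h1
    exact ⟨N₀, fun N hN θ hθ κ hκ => h N hN θ hθ κ hκ⟩
  choose N₀ hN₀ using hex
  obtain ⟨M, hM0, hMs⟩ : ∃ M : ℕ → ℕ, M 0 = 0 ∧
      ∀ n, M (n + 1) = max (N₀ (n + 1)) ((n + 1) * (M n + 1)) :=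
    ⟨fun n => Nat.rec 0 (fun n m => max (N₀ (n + 1)) ((n + 1) * (m + 1))) n, rfl, fun _ => rfl⟩
  have hMge : ∀ n, (n + 1) * (M n + 1) ≤ M (n + 1) := fun n => by rw [hMs]; exact le_max_right _ _
  have hMmono : StrictMono M := by
    apply strictMono_nat_of_lt_succ
    intro n
    have := hMge n
    nlinarith
  have hMN : ∀ n, 1 ≤ n → N₀ n ≤ M n := by
    intro n hn
    obtain ⟨k, rfl⟩ : ∃ k, n = k + 1 := ⟨n - 1, by omega⟩
    rw [hMs]
    exact le_max_left _ _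
  refine ⟨M, hMmono, hM0, ?_⟩
  intro θ hθ κ v hv0 hv1 hv
  set cc : ℕ → ℝ := fun n => c (θ n) κ with hcc
  have hcI : ∀ n, 0 ≤ cc n ∧ cc n ≤ 1 := fun n => (hc (θ n) κ).mem_Icc (hu0 _ _) (hu1 _ _)
  have hA : ∀ n : ℕ, 1 ≤ n → enc κ ≤ n → ∀ N : ℕ, M n ≤ N → N ≤ M (n + 1) →
      |psum v N - psum v (M n) - ((N : ℝ) - (M n : ℝ)) * cc n| ≤ 2 * N / (n + 1) + W κ := by
    intro n hn hκ N h1 h2
    have e1 := hN₀ n N ((hMN n hn).trans h1) (θ n) (hθ n) κ hκ
    have e2 := hN₀ n (M n) (hMN n hn) (θ n) (hθ n) κ hκ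
    have e3 := sum_Ico_close (hu0 (θ n) κ) (hu1 (θ n) κ) hv0 hv1 h2 (hv n)
    rw [← psum_sub_psum v h1, ← psum_sub_psum _ h1] at e3
    have e4 : (M n : ℝ) / (n + 1) ≤ N / (n + 1) :=
      div_le_div_of_nonneg_right (by exact_mod_cast h1) (by positivity)
    have e5 : 2 * (N : ℝ) / (n + 1) = N / (n + 1) + N / (n + 1) := by ring
    rw [abs_le] at e1 e2 e3 ⊢
    simp only [hcc]
    constructor <;> linarith [e1.1, e1.2, e2.1, e2.2, e3.1, e3.2]
  have hB : ∀ n : ℕ, 1 ≤ n → enc κ ≤ n →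
      |psum v (M (n + 1)) - M (n + 1) * cc n| ≤ 3 * M (n + 1) / (n + 1) + W κ := by
    intro n hn hκ
    have e1 := hA n hn hκ (M (n + 1)) (hMmono.monotone (by omega)) le_rfl
    have e2 := psum_nonneg hv0 (M n)
    have e3 := psum_le hv1 (M n)
    have e4 : (M n : ℝ) ≤ M (n + 1) / (n + 1) := by
      rw [le_div_iff₀ (by positivity)]
      have : ((n + 1) * (M n + 1) : ℕ) ≤ (M (n + 1) : ℝ) := by exact_mod_cast hMge n
      push_cast at this
      nlinarith
    have e5 : 3 * (M (n + 1) : ℝ) / (n + 1) = 2 * M (n + 1) / (n + 1) + M (n + 1) / (n + 1) := by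
      ring
    have e6 : 0 ≤ (M n : ℝ) * cc n := mul_nonneg (Nat.cast_nonneg _) (hcI n).1
    have e7 : (M n : ℝ) * cc n ≤ M n := mul_le_of_le_one_right (Nat.cast_nonneg _) (hcI n).2
    rw [abs_le] at e1 ⊢
    constructor <;> nlinarith [e1.1, e1.2]
  have hsmall : Tendsto (fun n : ℕ => 1 / ((n : ℝ) + 1)) atTop (𝓝 0) :=
    tendsto_one_div_add_atTop_nhds_zero_nat
  constructor
  · rw [tendsto_zero_iff_abs_tendsto_zero]
    have hlim : Tendsto (fun n : ℕ => (3 + W κ) * (1 / ((n : ℝ) + 1))) atTop (𝓝 0) := by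
      simpa using hsmall.const_mul (3 + (W κ : ℝ))
    refine squeeze_zero' (Eventually.of_forall fun _ => abs_nonneg _) ?_ hlim
    filter_upwards [eventually_ge_atTop 1, eventually_ge_atTop (enc κ)] with n hn hκ
    have e1 := hB n hn hκ
    have e2 : ((n : ℝ) + 1) ≤ M (n + 1) := by
      have : n + 1 ≤ M (n + 1) := hMmono.le_apply
      exact_mod_cast this
    have hpos : (0 : ℝ) < M (n + 1) := lt_of_lt_of_le (by positivity) e2
    have e3 : avg v (M (n + 1)) - cc n = (psum v (M (n + 1)) - M (n + 1) * cc n) / M (n + 1) := by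
      rw [avg]
      field_simp
    simp only [Function.comp]
    change |avg v (M (n + 1)) - cc n| ≤ _
    rw [e3, abs_div, abs_of_pos hpos, div_le_iff₀ hpos]
    have e4 : (W κ : ℝ) ≤ W κ * (1 / ((n : ℝ) + 1)) * M (n + 1) := by
      rw [mul_assoc]
      refine le_mul_of_one_le_right (Nat.cast_nonneg _) ?_
      rw [one_div, ← div_eq_inv_mul, one_le_div (by positivity)]
      exact e2
    have e5 : (3 + W κ) * (1 / ((n : ℝ) + 1)) * M (n + 1) =
        3 * M (n + 1) / (n + 1) + W κ * (1 / ((n : ℝ) + 1)) * M (n + 1) := by ring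
    linarith
  · intro c₀ hc₀
    rw [Ces, Metric.tendsto_atTop]
    intro ε hε
    have hε4 : 0 < ε / 4 := by positivity
    have h1 := (Metric.tendsto_nhds.1 hc₀) _ hε4
    have h2 : ∀ᶠ n : ℕ in atTop, (5 + 2 * W κ) * (1 / ((n : ℝ) + 1)) < ε / 4 := by
      have : Tendsto (fun n : ℕ => (5 + 2 * W κ) * (1 / ((n : ℝ) + 1))) atTop (𝓝 0) := by
        simpa using hsmall.const_mul (5 + 2 * (W κ : ℝ))
      exact this.eventually (gt_mem_nhds hε4)
    obtain ⟨n₁, hn₁⟩ := eventually_atTop.1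
      (h1.and (h2.and ((eventually_ge_atTop 1).and (eventually_ge_atTop (enc κ)))))
    refine ⟨M (n₁ + 1), fun N hN => ?_⟩
    have hex : ∃ n, N ≤ M (n + 2) := ⟨N, le_trans (by omega) (hMmono.le_apply (x := N + 2))⟩
    obtain ⟨n, hn1, hn2, hn3⟩ : ∃ n, n₁ ≤ n ∧ M (n + 1) ≤ N ∧ N ≤ M (n + 2) := by
      by_contra hcon
      push Not at hcon
      have : ∀ k, M (n₁ + k + 1) ≤ N := by
        intro k
        induction k with
        | zero => simpa using hN
        | succ k ih => exact (hcon (n₁ + k) (by omega) ih).le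
      have h3 := this N
      have h4 : n₁ + N + 1 ≤ M (n₁ + N + 1) := hMmono.le_apply
      omega
    obtain ⟨a1, a2, a3, a4⟩ := hn₁ n hn1
    obtain ⟨b1, -, b3, b4⟩ := hn₁ (n + 1) (by omega)
    have e1 := hA (n + 1) b3 b4 N hn2 hn3
    have e2 := hB n a3 a4
    have hNn : ((n : ℝ) + 1) ≤ N := by
      have : n + 1 ≤ M (n + 1) := hMmono.le_apply
      exact_mod_cast this.trans hn2
    have hNpos : (0 : ℝ) < N := lt_of_lt_of_le (by positivity) hNn
    have hMN' : (M (n + 1) : ℝ) ≤ N := by exact_mod_cast hn2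
    have hM0' : (0 : ℝ) ≤ M (n + 1) := Nat.cast_nonneg _
    rw [Real.dist_eq] at a1 b1 ⊢
    have e3 : avg v N - c₀ = (psum v N - N * c₀) / N := by
      rw [avg]
      field_simp
    rw [e3, abs_div, abs_of_pos hNpos, div_lt_iff₀ hNpos]
    set η : ℝ := 1 / ((n : ℝ) + 1) with hη
    have hη0 : 0 < η := Nat.one_div_pos_of_nat
    have f1 : 2 * (N : ℝ) / (((n + 1 : ℕ) : ℝ) + 1) ≤ 2 * N * η := by
      rw [hη, mul_one_div]
      apply div_le_div_of_nonneg_left (by positivity) (by positivity)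
      push_cast
      linarith
    have f2 : 3 * (M (n + 1) : ℝ) / (n + 1) ≤ 3 * N * η := by
      rw [hη, mul_one_div]
      apply div_le_div_of_nonneg_right (by linarith) (by positivity)
    have f3 : (W κ : ℝ) ≤ W κ * η * N := by
      rw [mul_assoc]
      refine le_mul_of_one_le_right (Nat.cast_nonneg _) ?_
      rw [hη, one_div, ← div_eq_inv_mul, one_le_div (by positivity)]
      exact hNn
    have f4 : (5 + 2 * W κ) * η * N < ε / 4 * N := mul_lt_mul_of_pos_right a2 hNpos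
    have f5 : |(M (n + 1) : ℝ) * (cc n - c₀)| ≤ N * (ε / 4) := by
      rw [abs_mul, abs_of_nonneg hM0']
      exact mul_le_mul hMN' a1.le (abs_nonneg _) hNpos.le
    have f6 : |((N : ℝ) - M (n + 1)) * (cc (n + 1) - c₀)| ≤ N * (ε / 4) := by
      rw [abs_mul, abs_of_nonneg (by linarith)]
      exact mul_le_mul (by linarith) b1.le (abs_nonneg _) hNpos.le
    rw [abs_le] at e1 e2 f5 f6
    rw [abs_lt]
    have hεN : 0 < ε * N := by positivity
    constructor <;> nlinarith [e1.1, e1.2, e2.1, e2.2, f5.1, f5.2, f6.1, f6.2]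

/-- The stage containing the digit index `m`. -/
noncomputable def stage (M : ℕ → ℕ) (m : ℕ) : ℕ := sInf {n | m ≤ M (n + 1)}

theorem stage_eq {M : ℕ → ℕ} (hM : StrictMono M) {m n : ℕ} (h1 : M n < m) (h2 : m ≤ M (n + 1)) :
    stage M m = n := by
  apply le_antisymm (Nat.sInf_le (s := {n | m ≤ M (n + 1)}) h2)
  by_contra h
  push Not at h
  change stage M m < n at h
  have h3 : m ≤ M (stage M m + 1) := Nat.sInf_mem (s := {n | m ≤ M (n + 1)}) ⟨n, h2⟩
  have := hM.monotone (show stage M m + 1 ≤ n by omega)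
  omega

end Pool.Agent.P.MP_ac93c9_an
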