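import Pool.Agent.P.MP_ac93c9_an.Loc

namespace Pool.Agent.P.MP_ac93c9_an

open Filter Topology Finset MeasureTheory Real

variable {X : Type*} [TopologicalSpace X] [T1Space X] [MeasurableSpace X] [OpensMeasurableSpace X]
  {μ : Measure X} [IsProbabilityMeasure μ] [μ.IsOpenPosMeasure] {T : X → X} {f : X → ℕ}

theorem Sys.finite_range (S : Sys μ T f) (hind : IsInducing fun y n => f (T^[n] y)) {x₀ : X}
    (hgen : ∀ g : X → ℝ, Continuous g → Integrable g μ →
      Tendsto (fun N : ℕ => (∑ n ∈ Icc 1 N, g (T^[n] x₀)) / N) atTop (𝓝 (∫ y, g y ∂μ))) :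
    (Set.range f).Finite := by
  classical
  by_contra hinf
  have hfm := S.hf.measurable
  have h1 : ∀ a ∈ Set.range f, ∃ n, 1 ≤ n ∧ f (T^[n] x₀) = a := by
    rintro _ ⟨y, rfl⟩
    by_contra hcon
    push Not at hcon
    have hb : BL T f fun z => if f z = f y then (1 : ℝ) else 0 :=
      ((loc_sym (T := T) (f := f) Nat.one_pos).comp fun a => if a = f y then (1 : ℝ) else 0).bl'
        fun z => by split_ifs <;> simp
    have h2 := hgen _ (S.continuous hb) (S.integrable hb)
    have h3 := integral_pos_of_integrable_nonneg_nonzero (μ := μ) (x := y) (S.continuous hb)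
      (S.integrable hb) (fun z => by simp only [Pi.zero_apply]; split_ifs <;> simp) (by simp)
    have h4 : ∀ N : ℕ, (∑ n ∈ Icc 1 N, if f (T^[n] x₀) = f y then (1 : ℝ) else 0) / N = 0 := by
      intro N
      rw [sum_eq_zero fun n hn => if_neg (hcon n (mem_Icc.1 hn).1), zero_div]
    simp only [h4] at h2
    exact h3.ne (tendsto_nhds_unique tendsto_const_nhds h2)
  have h2 : ∀ n, μ {T^[n] x₀} = 0 := by
    intro n
    by_contra hne
    obtain ⟨y, hy, m, hm, hy'⟩ := S.mp.conservative.exists_mem_iterate_mem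
      (measurableSet_singleton _).nullMeasurableSet hne
    rw [Set.mem_singleton_iff] at hy hy'
    subst hy
    have h3 : ∀ k, ∃ j < n + m, T^[k] x₀ = T^[j] x₀ := by
      intro k
      induction k using Nat.strong_induction_on with
      | _ k ih =>
        rcases lt_or_ge k (n + m) with hk | hk
        · exact ⟨k, hk, rfl⟩
        · obtain ⟨j, hj, e⟩ := ih (k - m) (by omega)
          refine ⟨j, hj, ?_⟩
          rw [← e, show k = (k - m - n) + m + n by omega, Function.iterate_add_apply,
            Function.iterate_add_apply, hy', ← Function.iterate_add_apply]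
          congr 1
          omega
    refine hinf (((Set.finite_Iio (n + m)).image fun j => f (T^[j] x₀)).subset fun a ha => ?_)
    obtain ⟨k, -, rfl⟩ := h1 a ha
    obtain ⟨j, hj, e⟩ := h3 k
    exact ⟨j, hj, by rw [e]⟩
  have h3 : ∀ (n : ℕ) (ε : ℝ), 0 < ε → ∃ K, μ.real (cyl T f K (T^[n] x₀)) ≤ ε := by
    intro n ε hε
    have h4 := tendsto_measure_iInter_atTop (μ := μ) (s := fun K => cyl T f K (T^[n] x₀))
      (fun K => (S.isOpen_cyl K _).measurableSet.nullMeasurableSet)
      (fun a b hab y hy i hi => hy i (lt_of_lt_of_le hi hab)) ⟨0, measure_ne_top _ _⟩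
    have h5 : (⋂ K, cyl T f K (T^[n] x₀)) = {T^[n] x₀} := by
      ext y
      simp only [Set.mem_iInter, Set.mem_singleton_iff]
      refine ⟨fun h => hind.injective (funext fun i => h (i + 1) i (by omega)), ?_⟩
      rintro rfl K
      exact mem_cyl_self K _
    rw [h5, h2] at h4
    have h6 := (ENNReal.tendsto_toReal ENNReal.zero_ne_top).comp h4
    obtain ⟨K, hK⟩ := (h6.eventually (gt_mem_nhds (by simpa using hε))).exists
    exact ⟨K, hK.le⟩
  choose! n hn1 hn2 using h1
  choose K hK using fun a : ℕ => h3 (n a) ((1 / 2) ^ a / 4 / (n a + 1)) (by positivity)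
  let c : ℕ → X → ℝ := fun a => Set.indicator (cyl T f (K a) (T^[n a] x₀)) fun _ => (n a : ℝ)
  have hcl : ∀ a, Loc T f (K a) (c a) := fun a y y' h => by
    have : y ∈ cyl T f (K a) (T^[n a] x₀) ↔ y' ∈ cyl T f (K a) (T^[n a] x₀) :=
      forall_congr' fun i => forall_congr' fun hi => by rw [h i hi]
    simp only [c, Set.indicator, this]
  have hc0 : ∀ a y, 0 ≤ c a y := fun a y => Set.indicator_nonneg (fun _ _ => by positivity) y
  have hci : ∀ a, Integrable (c a) μ := fun a =>
    (integrable_const _).indicator (S.isOpen_cyl _ _).measurableSet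
  have hcb : ∀ a, ∫ y in f ⁻¹' {a}, c a y ∂μ ≤ (1 / 2) ^ a / 4 := fun a => by
    refine (setIntegral_le_integral (hci a) (Eventually.of_forall (hc0 a))).trans ?_
    simp only [c]
    rw [integral_indicator_const _ (S.isOpen_cyl _ _).measurableSet, smul_eq_mul]
    have := hK a
    rw [le_div_iff₀ (by positivity)] at this
    have h0 : 0 ≤ μ.real (cyl T f (K a) (T^[n a] x₀)) := measureReal_nonneg
    nlinarith
  let g : X → ℝ := fun y => c (f y) y
  have hgc : Continuous g := by
    refine IsLocallyConstant.continuous ?_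
    rw [IsLocallyConstant.iff_eventually_eq]
    intro y
    have e1 := (IsLocallyConstant.iff_eventually_eq _).1 (S.isLocallyConstant (hcl (f y))) y
    have e2 : ∀ᶠ z in 𝓝 y, f z = f y :=
      S.hf.continuousAt.eventually ((isOpen_discrete {f y}).mem_nhds rfl)
    filter_upwards [e1, e2] with z hz1 hz2
    simp only [g]
    rw [hz2, hz1]
  have hms : ∀ a, MeasurableSet (f ⁻¹' {a}) := fun a => hfm (measurableSet_singleton a)
  have hgeq : ∀ a, Set.EqOn (c a) g (f ⁻¹' {a}) := fun a y hy => by
    simp only [g, show f y = a from hy]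
  have hsum : HasSum (fun a : ℕ => (1 / 2 : ℝ) ^ a / 4) (2 / 4) := hasSum_geometric_two.div_const 4
  have hun : (⋃ a, f ⁻¹' {a}) = Set.univ := by
    ext y
    simp
  have hgi : IntegrableOn g (⋃ a, f ⁻¹' {a}) μ := by
    refine integrableOn_iUnion_of_summable_integral_norm
      (fun a => (hci a).integrableOn.congr_fun (hgeq a) (hms a)) ?_
    refine Summable.of_nonneg_of_le (fun a => integral_nonneg fun _ => norm_nonneg _)
      (fun a => le_trans (le_of_eq ?_) (hcb a)) hsum.summable
    exact setIntegral_congr_fun (hms a) fun y hy => by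
      rw [← hgeq a hy, Real.norm_of_nonneg (hc0 a y)]
  have hint := hasSum_integral_iUnion hms
    (fun w w' hw => Set.disjoint_left.2 fun y h1 h2 => hw (h1.symm.trans h2)) hgi
  rw [hun, integrableOn_univ] at hgi
  rw [hun, Measure.restrict_univ] at hint
  have hle : ∫ y, g y ∂μ ≤ 2 / 4 := hasSum_le (fun a => by
    rw [← setIntegral_congr_fun (hms a) (hgeq a)]
    exact hcb a) hint hsum
  obtain ⟨N₀, hN₀⟩ := eventually_atTop.1
    ((hgen g hgc hgi).eventually (gt_mem_nhds (show ∫ y, g y ∂μ < 1 by linarith)))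
  obtain ⟨a, ha, hNa⟩ : ∃ a ∈ Set.range f, N₀ ≤ n a := by
    by_contra hcon
    push Not at hcon
    refine hinf (((Set.finite_Iio N₀).image fun j => f (T^[j] x₀)).subset fun a ha => ?_)
    exact ⟨n a, hcon a ha, hn2 a ha⟩
  have h7 := hN₀ _ hNa
  have hpos : (0 : ℝ) < n a := by exact_mod_cast hn1 a ha
  have h8 : g (T^[n a] x₀) ≤ ∑ k ∈ Icc 1 (n a), g (T^[k] x₀) :=
    single_le_sum (f := fun k => g (T^[k] x₀)) (fun k _ => hc0 _ _)
      (mem_Icc.2 ⟨hn1 a ha, le_rfl⟩)
  have h9 : g (T^[n a] x₀) = n a := by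
    simp only [g, hn2 a ha, c]
    exact Set.indicator_of_mem (mem_cyl_self _ _) _
  rw [div_lt_one hpos] at h7
  linarith

end Pool.Agent.P.MP_ac93c9_an
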