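import Pool.Agent.P.MP_ac93c9_an.Defs

namespace Pool.Agent.P.MP_ac93c9_an

open Finset

variable {q q' : ℕ → ℕ} (h : ∀ n, 1 ≤ n → q n = q' n)
include h

theorem prodQ_congr : prodQ q = prodQ q' :=
  funext fun _ => prod_congr rfl fun i hi => h i (mem_Icc.1 hi).1

theorem distNormalSet_congr : distNormalSet q = distNormalSet q' := by
  simp only [distNormalSet, prodQ_congr h]

theorem normalSet_congr : normalSet q = normalSet q' := by
  have h1 : ∀ (l : ℕ) (D : Fin l → ℕ), expCount q D = expCount q' D := fun l D => by
    ext n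
    refine sum_congr rfl fun j hj => ?_
    have : ∀ i : Fin l, q (j + i) = q' (j + i) := fun i => h _ (by have := (mem_Icc.1 hj).1; omega)
    simp only [this]
  have h2 : ∀ (l : ℕ) (D : Fin l → ℕ), blockCount q D = blockCount q' D := fun l D => by
    ext x n
    have : ∀ (i : ℕ) (j : Fin l), digit q x (i + (j + 1)) = digit q' x (i + (j + 1)) :=
      fun i j => by rw [digit, digit, prodQ_congr h, h _ (by omega)]
    simp only [blockCount, this]
  simp only [normalSet, h1, h2]

end Pool.Agent.P.MP_ac93c9_an
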