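import Mathlib

namespace Pool.Agent.P.MP_ac93c9_an

open Filter Topology MeasureTheory Finset

/-- The product `q 1 * ... * q n`. -/
def prodQ (q : ℕ → ℕ) (n : ℕ) : ℕ := ∏ i ∈ Icc 1 n, q i

/-- The `n`-th digit (`n ≥ 1`) of the `Q`-Cantor series expansion of `x ∈ [0,1)`. -/
noncomputable def digit (q : ℕ → ℕ) (x : ℝ) (n : ℕ) : ℕ :=
  ⌊(q n : ℝ) * Int.fract ((prodQ q (n - 1) : ℝ) * x)⌋₊

/-- The expected count `Q_n(D)`. -/
noncomputable def expCount (q : ℕ → ℕ) {l : ℕ} (D : Fin l → ℕ) (n : ℕ) : ℝ :=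
  ∑ j ∈ Icc 1 n, (if ∀ i : Fin l, D i < q (j + i) then (1 : ℝ) else 0) /
    ∏ i : Fin l, (q (j + i) : ℝ)

/-- The count `N_n^Q(D, x)`. -/
noncomputable def blockCount (q : ℕ → ℕ) {l : ℕ} (D : Fin l → ℕ) (x : ℝ) (n : ℕ) : ℕ :=
  #{i ∈ Icc 1 n | ∀ j : Fin l, digit q x (i + (j + 1)) = D j}

/-- The set `N(Q)` of `Q`-normal numbers. -/
def normalSet (q : ℕ → ℕ) : Set ℝ :=
  {x | x ∈ Set.Ico (0 : ℝ) 1 ∧ ∀ (l : ℕ) (D : Fin l → ℕ), Tendsto (expCount q D) atTop atTop →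
    Tendsto (fun n => (blockCount q D x n : ℝ) / expCount q D n) atTop (𝓝 1)}

open scoped Classical in
/-- The sequence `u 1, u 2, ...` is uniformly distributed modulo one. -/
def UnifDistModOne (u : ℕ → ℝ) : Prop :=
  ∀ a b : ℝ, 0 ≤ a → a < b → b ≤ 1 →
    Tendsto (fun N : ℕ => (#{n ∈ Icc 1 N | Int.fract (u n) ∈ Set.Ico a b} : ℝ) / N)
      atTop (𝓝 (b - a))

/-- The set `DN(Q)` of `Q`-distribution normal numbers. -/
def distNormalSet (q : ℕ → ℕ) : Set ℝ :=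
  {x | x ∈ Set.Ico (0 : ℝ) 1 ∧ UnifDistModOne (fun n => (prodQ q n : ℝ) * x)}

/-- Countable intersections of countable unions of closed sets. -/
def IsPi03 {Y : Type} [TopologicalSpace Y] (A : Set Y) : Prop :=
  ∃ F : ℕ → ℕ → Set Y, (∀ i j, IsClosed (F i j)) ∧ A = ⋂ i, ⋃ j, F i j

/-- Differences of two such sets. -/
def IsD2Pi03 {Y : Type} [TopologicalSpace Y] (C : Set Y) : Prop :=
  ∃ A B : Set Y, IsPi03 A ∧ IsPi03 B ∧ C = A \ B

/-- Completeness for the class of differences. -/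
def IsD2Pi03Complete {Y : Type} [TopologicalSpace Y] (C : Set Y) : Prop :=
  IsD2Pi03 C ∧ ∀ E : Set (ℕ → Bool), IsD2Pi03 E →
    ∃ φ : (ℕ → Bool) → Y, Continuous φ ∧ E = φ ⁻¹' C

/-- Kolmogorov-Sinai entropy: the supremum over finite measurable partitions (given by a
measurable labelling `g`) of the entropy rate of the `n`-fold refinements. -/
noncomputable def ksEntropy {X : Type*} [MeasurableSpace X] (μ : Measure X) (T : X → X) :
    ENNReal :=
  ⨆ (r : ℕ) (g : X → Fin r) (_ : Measurable g),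
    limsup (fun n : ℕ => ENNReal.ofReal
      ((∑ w : Fin n → Fin r, Real.negMulLog (μ.real {x | ∀ i : Fin n, g (T^[i] x) = w i})) / n))
      atTop

end Pool.Agent.P.MP_ac93c9_an
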