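import Pool.Agent.P.MP_ac93c9_an.Expansion

namespace Pool.Agent.P.MP_ac93c9_an

open Filter Topology Finset

/-- Expected frequency term of a block. -/
noncomputable def UD (q : ℕ → ℕ) (D : List ℕ) (i : ℕ) : ℝ :=
  ∏ k ∈ range D.length, pr (win i q k) 0 (D.getD k 0)

theorem getD_ofFn {l : ℕ} (D : Fin l → ℕ) (j : Fin l) : (List.ofFn D).getD j 0 = D j := by
  rw [List.getD_eq_getElem _ _ (by simp)]
  simp

theorem pr_zero (Q c : ℕ) : pr Q 0 c = if c < Q then 1 / (Q : ℝ) else 0 := by simp [pr]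

theorem expCount_eq (q : ℕ → ℕ) {l : ℕ} (D : Fin l → ℕ) (n : ℕ) :
    expCount q D n = psum (UD q (List.ofFn D)) n := by
  rw [expCount, sum_Icc_eq_psum (fun j => (if ∀ i : Fin l, D i < q (j + i) then (1 : ℝ) else 0) /
    ∏ i : Fin l, (q (j + i) : ℝ))]
  congr 1
  ext i
  rw [UD, List.length_ofFn, ← Fin.prod_univ_eq_prod_range
    (fun k => pr (win i q k) 0 ((List.ofFn D).getD k 0))]
  simp only [getD_ofFn, pr_zero, win]
  rw [prod_ite_zero]
  simp only [mem_univ, forall_const]
  split_ifs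
  · rw [prod_div_distrib]
    simp
  · simp

theorem blockCount_eq (q : ℕ → ℕ) {l : ℕ} (D : Fin l → ℕ) (x : ℝ) (n : ℕ) :
    (blockCount q D x n : ℝ) = psum (fun i => Test.F (Sum.inr (List.ofFn D)) (win (i + 1) q)
      (win (i + 1) (digit q x))) n := by
  rw [← sum_Icc_eq_psum (fun i => Test.F (Sum.inr (List.ofFn D)) (win i q) (win i (digit q x))),
    blockCount, ← sum_boole]
  refine sum_congr rfl fun i _ => ?_
  simp only [Test.F, blk, List.length_ofFn, win]
  refine if_congr ⟨fun h k hk => ?_, fun h j => ?_⟩ rfl rfl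
  · have := h ⟨k, hk⟩
    rw [← getD_ofFn D ⟨k, hk⟩] at this
    rw [show i + 1 + k = i + (k + 1) by ring]
    exact this
  · have := h j j.2
    rw [getD_ofFn] at this
    rw [show i + (j + 1) = i + 1 + j by ring]
    exact this

theorem abs_F_le (κ : Test) (Q e : ℕ → ℕ) : |κ.F Q e| ≤ 1 := by
  rw [abs_of_nonneg (κ.F_bounds Q e).1]
  exact (κ.F_bounds Q e).2

theorem ratio_iff {q : ℕ → ℕ} {l : ℕ} {D : Fin l → ℕ} {c : ℝ} (hc : 0 < c)
    (h : Ces (UD q (List.ofFn D)) c) (x : ℝ) :
    Tendsto (expCount q D) atTop atTop ∧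
      (Tendsto (fun n => (blockCount q D x n : ℝ) / expCount q D n) atTop (𝓝 1) ↔
        Ces (fun i => Test.F (Sum.inr (List.ofFn D)) (win i q) (win i (digit q x))) c) := by
  constructor
  · have h1 := Tendsto.atTop_mul_pos hc (tendsto_natCast_atTop_atTop (R := ℝ)) h
    refine h1.congr' ?_
    filter_upwards [eventually_gt_atTop 0] with n hn
    have : (n : ℝ) ≠ 0 := by exact_mod_cast hn.ne'
    rw [expCount_eq, avg]
    field_simp
  · rw [← ces_shift_one (C := 1) (fun i => abs_F_le _ _ _)]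
    set v := fun i => Test.F (Sum.inr (List.ofFn D)) (win (i + 1) q) (win (i + 1) (digit q x))
    have e : ∀ᶠ n in atTop, (blockCount q D x n : ℝ) / expCount q D n =
        avg v n / avg (UD q (List.ofFn D)) n := by
      filter_upwards [eventually_gt_atTop 0] with n hn
      have : (n : ℝ) ≠ 0 := by exact_mod_cast hn.ne'
      rw [blockCount_eq, expCount_eq, avg, avg, div_div_div_cancel_right₀ this]
    rw [tendsto_congr' e]
    constructor
    · intro h1
      have h2 := h1.mul h
      rw [one_mul] at h2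
      refine h2.congr' ?_
      filter_upwards [h.eventually (lt_mem_nhds hc)] with n hn
      field_simp
    · intro h1
      have h2 := Tendsto.div h1 h hc.ne'
      rwa [div_self hc.ne'] at h2

/-- The estimates satisfied by the limiting statistics of the stages. -/
structure Est (cD : List ℕ → ℝ) (r₀ : ℚ) (κ₀ κ₁ : ℝ) (c : Test → ℝ) (γ δ err : ℝ) : Prop where
  p1a : ∀ (r : ℚ) (j : ℕ), |c (Sum.inl (r, j)) - clamp r| ≤ j * (γ + err)
  p1b : ∀ j : ℕ, 1 ≤ j → clamp r₀ + γ * κ₀ - j * err ≤ c (Sum.inl (r₀, j))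
  p2 : ∀ D : List ℕ, |c (Sum.inr D) - cD D| ≤ D.length * (γ + δ)
  p3 : cD [0, 0] + δ * κ₁ - err ≤ c (Sum.inr [0, 0])

theorem determ {q d : ℕ → ℕ} (hq : ∀ n, 2 ≤ q n) (hd : ∀ m, d m < q m) {cD : List ℕ → ℝ}
    (hcD : ∀ D, Ces (UD q D) (cD D)) (hcD0 : ∀ D, cD D ≤ 0 → ∀ i, UD q D i = 0)
    {r₀ : ℚ} {κ₀ κ₁ : ℝ} (hκ₀ : 0 < κ₀) (hκ₁ : 0 < κ₁) {c : ℕ → Test → ℝ} {γ δ err : ℕ → ℝ}
    (hγ : ∀ n, 0 ≤ γ n) (hδ : ∀ n, 0 ≤ δ n) (herr : Tendsto err atTop (𝓝 0))
    (hE : ∀ n, Est cD r₀ κ₀ κ₁ (c n) (γ n) (δ n) (err n)) {M : ℕ → ℕ} (hM : StrictMono M)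
    (hF : ∀ κ : Test, Follows M (fun n => c n κ) fun i => κ.F (win i q) (win i d)) :
    (∀ n, ∃ m, n ≤ m ∧ d (m + 1) = 0) ∧
      (xOf q d ∈ distNormalSet q ↔ Tendsto γ atTop (𝓝 0)) ∧
      (Tendsto γ atTop (𝓝 0) → (xOf q d ∈ normalSet q ↔ Tendsto δ atTop (𝓝 0))) := by
  have hMt : Tendsto (fun n => M (n + 1)) atTop atTop :=
    hM.tendsto_atTop.comp (tendsto_add_atTop_nat 1)
  have hc00 : 0 < cD [0, 0] := by
    by_contra h
    have h1 := hcD0 _ (not_lt.1 h) 0
    have h2 : ∀ k, 0 < pr (q k) 0 0 := fun k => by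
      have := hq k
      rw [pr_zero, if_pos (by omega)]
      have : (0 : ℝ) < q k := by exact_mod_cast (by omega : 0 < q k)
      positivity
    have h3 : 0 < UD q [0, 0] 0 := by
      simp only [UD, List.length_cons, List.length_nil, prod_range_succ, prod_range_zero, win]
      simp only [List.getD_cons_zero, List.getD_cons_succ, zero_add, one_mul]
      exact mul_pos (h2 _) (h2 _)
    linarith
  have hz : ∀ n, ∃ m, n ≤ m ∧ d (m + 1) = 0 := by
    intro n
    by_contra hcon
    push Not at hcon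
    set v := fun i => Test.F (Sum.inr [0, 0]) (win i q) (win i d) with hv
    have h1 : Ces v 0 := by
      rw [← ces_shift (C := 1) (fun i => abs_F_le _ _ _) n]
      have : (fun i => v (i + n)) = fun _ => 0 := by
        ext i
        simp only [hv, Test.F, blk]
        rw [if_neg]
        intro h
        exact hcon (i + n) (by omega) (by simpa [win] using h 0 (by simp))
      rw [this]
      exact ces_const 0
    have h2 := ((h1.comp hMt).sub (hF (Sum.inr [0, 0])).1).add herr
    simp only [Function.comp, sub_zero, add_zero] at h2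
    have h3 : cD [0, 0] ≤ 0 := by
      refine ge_of_tendsto' h2 fun k => ?_
      have := (hE k).p3
      have := mul_nonneg (hδ k) hκ₁.le
      simp only [hv]
      linarith
    linarith
  obtain ⟨hx, hdig⟩ := xOf_spec hq hd hz
  have hwin : ∀ i, win i (digit q (xOf q d)) = win i d := fun i => by
    ext k
    simp only [win]
    rw [show i + 1 + k = i + k + 1 by ring, hdig]
  refine ⟨hz, ?_, ?_⟩
  · simp only [distNormalSet, Set.mem_setOf_eq, unifDist_iff_DN]
    constructor
    · rintro ⟨-, h⟩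
      rw [Metric.tendsto_nhds]
      intro ε hε
      obtain ⟨j₀, hj₀⟩ := exists_pow_lt_of_lt_one (mul_pos hε hκ₀)
        (show (1 / 2 : ℝ) < 1 by norm_num)
      set j := j₀ + 1 with hj
      have hj1 : (1 / 2 : ℝ) ^ j < ε * κ₀ := by
        refine lt_of_le_of_lt ?_ hj₀
        exact pow_le_pow_of_le_one (by norm_num) (by norm_num) (by omega)
      have h1 := (h (r₀ + (1 / 2) ^ j)).comp hMt
      have h2 := ((h1.sub (hF (Sum.inl (r₀, j))).1).add (herr.const_mul (j : ℝ))).eventually
        (gt_mem_nhds (show _ < clamp r₀ + ε * κ₀ by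
          have := clamp_add_le (r₀ : ℝ) (show (0 : ℝ) ≤ (1 / 2) ^ j by positivity)
          linarith))
      filter_upwards [h2] with n hn
      have h3 := (hE n).p1b j (by omega)
      have h4 := avg_mono (fun i => MM_le_ind hq (xOf q d) (s := r₀) (j := j) le_rfl i) (M (n + 1))
      simp only [hwin] at h4
      simp only [Function.comp, Test.F] at hn
      rw [Real.dist_eq, sub_zero, abs_of_nonneg (hγ n)]
      have : γ n * κ₀ < ε * κ₀ := by linarith
      exact lt_of_mul_lt_mul_right this hκ₀.le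
    · intro h
      refine ⟨hx, DN_of_MM hq _ fun r j => ?_⟩
      simp only [hwin]
      refine (hF (Sum.inl (r, j))).2 _ ?_
      rw [tendsto_iff_norm_sub_tendsto_zero]
      have h1 : Tendsto (fun n => (j : ℝ) * (γ n + err n)) atTop (𝓝 0) := by
        simpa using (h.add herr).const_mul (j : ℝ)
      exact squeeze_zero (fun _ => norm_nonneg _) (fun n => (hE n).p1a r j) h1
  · intro hγ0
    constructor
    · rintro ⟨-, h⟩
      have e : List.ofFn (fun _ : Fin 2 => (0 : ℕ)) = [0, 0] := by simp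
      have h1 := ratio_iff (q := q) (D := fun _ : Fin 2 => (0 : ℕ)) hc00
        (by rw [e]; exact hcD _) (xOf q d)
      have h2 := h1.2.1 (h _ _ h1.1)
      simp only [hwin, e] at h2
      have h3 := (((h2.comp hMt).sub (hF (Sum.inr [0, 0])).1).add herr).sub_const (cD [0, 0])
      simp only [Function.comp, sub_zero, add_zero, sub_self] at h3
      have h4 := h3.div_const κ₁
      rw [zero_div] at h4
      refine squeeze_zero hδ (fun n => ?_) h4
      rw [le_div_iff₀ hκ₁]
      have := (hE n).p3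
      linarith
    · intro hδ0
      refine ⟨hx, fun l D hD => ?_⟩
      have hpos : 0 < cD (List.ofFn D) := by
        by_contra hcon
        have h1 : ∀ n, expCount q D n = 0 := fun n => by
          rw [expCount_eq, psum]
          exact sum_eq_zero fun i _ => hcD0 _ (not_lt.1 hcon) i
        obtain ⟨n, hn⟩ := (hD.eventually_gt_atTop 0).exists
        rw [h1] at hn
        exact lt_irrefl _ hn
      rw [(ratio_iff hpos (hcD _) (xOf q d)).2]
      simp only [hwin]
      refine (hF (Sum.inr (List.ofFn D))).2 _ ?_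
      rw [tendsto_iff_norm_sub_tendsto_zero]
      have h1 : Tendsto (fun n => ((List.ofFn D).length : ℝ) * (γ n + δ n)) atTop (𝓝 0) := by
        simpa using (hγ0.add hδ0).const_mul ((List.ofFn D).length : ℝ)
      exact squeeze_zero (fun _ => norm_nonneg _) (fun n => (hE n).p2 _) h1

end Pool.Agent.P.MP_ac93c9_an
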