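import Pool.Agent.P.MP_ac93c9_an.Loc

namespace Pool.Agent.P.MP_ac93c9_an

open Filter Topology Finset MeasureTheory

variable {X : Type*}

/-- Reciprocal of the symbol at time `L`. -/
noncomputable def hh (T : X → X) (f : X → ℕ) (L : ℕ) (y : X) : ℝ := 1 / (f (T^[L] y) : ℝ)

/-- Its average over the cylinder of length `L`. -/
noncomputable def ee [MeasurableSpace X] (μ : Measure X) (T : X → X) (f : X → ℕ) (L : ℕ) (y : X) :
    ℝ := (∫ z in cyl T f L y, hh T f L z ∂μ) / μ.real (cyl T f L y)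

/-- The prediction error. -/
noncomputable def ss [MeasurableSpace X] (μ : Measure X) (T : X → X) (f : X → ℕ) (L : ℕ) (y : X) :
    ℝ := hh T f L y - ee μ T f L y

/-- The mean square prediction error. -/
noncomputable def VV [MeasurableSpace X] (μ : Measure X) (T : X → X) (f : X → ℕ) (L : ℕ) : ℝ :=
  ∫ y, ss μ T f L y ^ 2 ∂μ

theorem loc_hh {T : X → X} {f : X → ℕ} (L : ℕ) : Loc T f (L + 1) (hh T f L) :=
  (loc_sym (Nat.lt_succ_self L)).comp fun a : ℕ => 1 / (a : ℝ)

theorem hh_iter {T : X → X} {f : X → ℕ} (L k : ℕ) (y : X) :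
    hh T f L (T^[k] y) = hh T f (L + k) y := by
  rw [hh, hh, Function.iterate_add_apply]

theorem loc_ee [MeasurableSpace X] {μ : Measure X} {T : X → X} {f : X → ℕ} (L : ℕ) :
    Loc T f L (ee μ T f L) :=
  (loc_cyl L).comp fun C => (∫ z in C, hh T f L z ∂μ) / μ.real C

theorem loc_ss [MeasurableSpace X] {μ : Measure X} {T : X → X} {f : X → ℕ} (L : ℕ) :
    Loc T f (L + 1) (ss μ T f L) :=
  (loc_hh L).comp₂ ((loc_ee L).mono (Nat.le_succ L)) (· - ·)

variable [TopologicalSpace X] [MeasurableSpace X] {μ : Measure X} {T : X → X} {f : X → ℕ}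

theorem Sys.hh_bounds (S : Sys μ T f) (L : ℕ) (y : X) : 0 ≤ hh T f L y ∧ hh T f L y ≤ 1 / 2 := by
  have : (2 : ℝ) ≤ f (T^[L] y) := by exact_mod_cast S.two _
  exact ⟨by unfold hh; positivity, one_div_le_one_div_of_le two_pos this⟩

theorem Sys.bl_hh (S : Sys μ T f) (L : ℕ) : BL T f (hh T f L) :=
  (loc_hh L).bl' fun y => ⟨(S.hh_bounds L y).1, (S.hh_bounds L y).2.trans (by norm_num)⟩

variable [OpensMeasurableSpace X] [IsProbabilityMeasure μ]

theorem Sys.ee_bounds (S : Sys μ T f) (L : ℕ) (y : X) :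
    0 ≤ ee μ T f L y ∧ ee μ T f L y ≤ 1 := by
  constructor
  · exact div_nonneg (integral_nonneg fun z => (S.hh_bounds L z).1) measureReal_nonneg
  · refine div_le_one_of_le₀ ?_ measureReal_nonneg
    calc ∫ z in cyl T f L y, hh T f L z ∂μ ≤ ∫ _z in cyl T f L y, (1 : ℝ) ∂μ :=
          integral_mono (S.integrable (S.bl_hh L)).integrableOn (integrable_const _)
            fun z => (S.hh_bounds L z).2.trans (by norm_num)
      _ = _ := by simp

theorem Sys.bl_ee (S : Sys μ T f) (L : ℕ) : BL T f (ee μ T f L) :=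
  (loc_ee L).bl' (S.ee_bounds L)

theorem Sys.abs_ss_le (S : Sys μ T f) (L : ℕ) (y : X) : |ss μ T f L y| ≤ 1 := by
  have h1 := S.hh_bounds L y
  have h2 := S.ee_bounds L y
  rw [abs_le, ss]
  constructor <;> linarith [h1.1, h1.2, h2.1, h2.2]

theorem Sys.bl_ss (S : Sys μ T f) (L : ℕ) : BL T f (ss μ T f L) :=
  (loc_ss L).bl (S.abs_ss_le L)

theorem Sys.orth (S : Sys μ T f) {L : ℕ} {Γ : X → ℝ} (h : Loc T f L Γ) (hb : BL T f Γ) :
    ∫ y, ss μ T f L y * Γ y ∂μ = 0 := by
  let code : X → Fin L → ℕ := fun y i => f (T^[i] y)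
  have hcode : Loc T f L code := fun y y' h' => funext fun i => h' i i.2
  have hint := S.integrable ((S.bl_ss L).mul hb)
  have h1 := hasSum_integral_iUnion (μ := μ) (f := fun y => ss μ T f L y * Γ y)
    (s := fun w : Fin L → ℕ => code ⁻¹' {w})
    (fun w => (S.isLocallyConstant hcode {w}).measurableSet)
    (fun w w' hw => Set.disjoint_left.2 fun y h1 h2 => hw (h1.symm.trans h2)) hint.integrableOn
  have h2 : (⋃ w : Fin L → ℕ, code ⁻¹' {w}) = Set.univ := by
    ext y
    simp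
  rw [h2, Measure.restrict_univ] at h1
  have h3 : ∀ w : Fin L → ℕ, ∫ y in code ⁻¹' {w}, ss μ T f L y * Γ y ∂μ = 0 := by
    intro w
    rcases (code ⁻¹' {w}).eq_empty_or_nonempty with h0 | ⟨y₀, h0⟩
    · simp [h0]
    have e : code ⁻¹' {w} = cyl T f L y₀ := by
      ext z
      rw [Set.mem_preimage, Set.mem_singleton_iff, ← (show code y₀ = w from h0)]
      exact ⟨fun h' i hi => congrFun h' ⟨i, hi⟩, fun h' => funext fun i => h' i i.2⟩
    rw [e, setIntegral_congr_fun (S.isOpen_cyl L y₀).measurableSet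
      (g := fun y => (hh T f L y - ee μ T f L y₀) * Γ y₀)
      (fun y hy => by simp only [ss]; rw [h y y₀ hy, loc_ee L y y₀ hy]),
      integral_mul_const, integral_sub (S.integrable (S.bl_hh L)).integrableOn
        (integrable_const _)]
    simp only [integral_const, MeasurableSet.univ, measureReal_restrict_apply, Set.univ_inter,
      smul_eq_mul, mul_eq_zero]
    left
    rcases eq_or_ne (μ.real (cyl T f L y₀)) 0 with h4 | h4
    · rw [h4, zero_mul, sub_zero]
      exact setIntegral_measure_zero _ ((measureReal_eq_zero_iff (measure_ne_top _ _)).1 h4)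
    · rw [ee, mul_div_cancel₀ _ h4, sub_self]
  simp only [h3] at h1
  exact h1.unique hasSum_zero

theorem Sys.pyth (S : Sys μ T f) (L k : ℕ) :
    ∫ y, (ss μ T f L (T^[k] y) - ss μ T f (L + k) y) ^ 2 ∂μ = VV μ T f L - VV μ T f (L + k) := by
  have hΔ : Loc T f (L + k) fun y => ss μ T f L (T^[k] y) - ss μ T f (L + k) y := by
    have : (fun y => ss μ T f L (T^[k] y) - ss μ T f (L + k) y) =
        fun y => ee μ T f (L + k) y - ee μ T f L (T^[k] y) := by
      ext y
      rw [ss, ss, hh_iter]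
      ring
    rw [this]
    exact (loc_ee _).comp₂ ((loc_ee L).iter k) (· - ·)
  have hb := ((S.bl_ss L).iter k).sub (S.bl_ss (L + k))
  have h1 := S.orth hΔ hb
  have h2 : VV μ T f L = ∫ y, ss μ T f L (T^[k] y) ^ 2 ∂μ :=
    (S.integral_iter (S.continuous (S.bl_ss L).sq).measurable k).symm
  have h3 : ∀ y, (ss μ T f L (T^[k] y) - ss μ T f (L + k) y) ^ 2 =
      (ss μ T f L (T^[k] y) ^ 2 - ss μ T f (L + k) y ^ 2) -
        2 * (ss μ T f (L + k) y * (ss μ T f L (T^[k] y) - ss μ T f (L + k) y)) := fun y => by ring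
  simp only [h3]
  rw [integral_sub (S.integrable (((S.bl_ss L).iter k).sq.sub (S.bl_ss _).sq))
    ((S.integrable ((S.bl_ss _).mul hb)).const_mul 2), integral_const_mul, h1,
    integral_sub (S.integrable ((S.bl_ss L).iter k).sq) (S.integrable (S.bl_ss _).sq), h2, VV]
  ring

theorem Sys.VV_antitone (S : Sys μ T f) : Antitone (VV μ T f) := by
  apply antitone_nat_of_succ_le
  intro L
  have h1 := S.pyth L 1
  have h2 : 0 ≤ ∫ y, (ss μ T f L (T^[1] y) - ss μ T f (L + 1) y) ^ 2 ∂μ :=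
    integral_nonneg fun y => sq_nonneg _
  linarith

omit [TopologicalSpace X] [OpensMeasurableSpace X] [IsProbabilityMeasure μ] in
theorem VV_bdd : BddBelow (Set.range (VV μ T f)) :=
  ⟨0, by rintro _ ⟨L, rfl⟩; exact integral_nonneg fun y => sq_nonneg _⟩

/-- The error in the approximate orthogonality. -/
noncomputable def errF (μ : Measure X) (T : X → X) (f : X → ℕ) (L : ℕ) : ℝ :=
  √(VV μ T f L - ⨅ K, VV μ T f K)

theorem Sys.tendsto_errF (S : Sys μ T f) : Tendsto (errF μ T f) atTop (𝓝 0) := by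
  have h1 := (tendsto_atTop_ciInf S.VV_antitone VV_bdd).sub_const (⨅ K, VV μ T f K)
  rw [sub_self] at h1
  have := (Real.continuous_sqrt.tendsto 0).comp h1
  rw [Real.sqrt_zero] at this
  exact this

theorem Sys.sq_integral_le (S : Sys μ T f) {F : X → ℝ} (h : BL T f F) :
    (∫ y, F y ∂μ) ^ 2 ≤ ∫ y, F y ^ 2 ∂μ := by
  set m := ∫ y, F y ∂μ with hm
  have h1 : 0 ≤ ∫ y, (F y - m) ^ 2 ∂μ := integral_nonneg fun y => sq_nonneg _
  have h2 : ∀ y, (F y - m) ^ 2 = (F y ^ 2 - 2 * m * F y) + m ^ 2 := fun y => by ring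
  simp only [h2] at h1
  rw [integral_add (S.integrable (h.sq.sub ((BL.const _).mul h))) (integrable_const _),
    integral_sub (S.integrable h.sq) ((S.integrable h).const_mul _), integral_const_mul] at h1
  simp only [integral_const, probReal_univ, smul_eq_mul, one_mul, ← hm] at h1
  nlinarith

theorem Sys.approx_orth (S : Sys μ T f) (L k : ℕ) {Γ : X → ℝ} (h : Loc T f (L + k) Γ)
    (hb : ∀ y, |Γ y| ≤ 1) : |∫ y, ss μ T f L (T^[k] y) * Γ y ∂μ| ≤ errF μ T f L := by
  have hΔ := ((S.bl_ss L).iter k).sub (S.bl_ss (L + k))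
  have h1 := S.orth h (h.bl hb)
  have h2 : ∫ y, ss μ T f L (T^[k] y) * Γ y ∂μ =
      ∫ y, (ss μ T f L (T^[k] y) - ss μ T f (L + k) y) * Γ y ∂μ := by
    simp only [sub_mul]
    rw [integral_sub (S.integrable (((S.bl_ss L).iter k).mul (h.bl hb)))
      (S.integrable ((S.bl_ss _).mul (h.bl hb))), h1, sub_zero]
  rw [h2]
  have h3 : |∫ y, (ss μ T f L (T^[k] y) - ss μ T f (L + k) y) * Γ y ∂μ| ≤
      ∫ y, |ss μ T f L (T^[k] y) - ss μ T f (L + k) y| ∂μ := by
    refine abs_integral_le_integral_abs.trans (integral_mono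
      (S.integrable (hΔ.mul (h.bl hb)).abs) (S.integrable hΔ.abs) fun y => ?_)
    simp only [abs_mul]
    exact mul_le_of_le_one_right (abs_nonneg _) (hb y)
  refine h3.trans (Real.le_sqrt_of_sq_le ?_)
  refine (S.sq_integral_le hΔ.abs).trans ?_
  simp only [sq_abs]
  rw [S.pyth]
  have := ciInf_le (VV_bdd (μ := μ) (T := T) (f := f)) (L + k)
  linarith

/-- The next symbol cannot be predicted from finitely many previous ones. -/
def Unpred (μ : Measure X) (T : X → X) (f : X → ℕ) : Prop :=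
  ∃ ε : ℝ, 0 < ε ∧ ∀ (L : ℕ) (φ : X → ℕ), Loc T f L φ → ε ≤ μ.real {y | f (T^[L] y) ≠ φ y}

theorem round_eq {a K : ℕ} (ha : 2 ≤ a) (haK : a ≤ K) {e : ℝ}
    (h : |1 / (a : ℝ) - e| < 1 / (4 * (K : ℝ) ^ 2)) : ⌊1 / e + 1 / 2⌋₊ = a := by
  have ha' : (2 : ℝ) ≤ a := by exact_mod_cast ha
  have haK' : (a : ℝ) ≤ K := by exact_mod_cast haK
  have h1 : 1 / (4 * (K : ℝ) ^ 2) ≤ 1 / (4 * (a : ℝ) ^ 2) :=
    one_div_le_one_div_of_le (by positivity) (by nlinarith)
  have h2 := h.trans_le h1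
  set u : ℝ := 1 / a with hu
  have hu0 : 0 < u := by positivity
  have hu1 : u * a = 1 := by rw [hu]; field_simp
  have hu2 : 1 / (4 * (a : ℝ) ^ 2) = u ^ 2 / 4 := by rw [hu]; field_simp
  have hu3 : u ≤ 1 / 2 := one_div_le_one_div_of_le two_pos ha'
  rw [hu2, abs_lt] at h2
  have he : 0 < e := by nlinarith [h2.2]
  have e1 : u ^ 2 / 4 * a = u / 4 := by rw [sq, mul_div_assoc, mul_right_comm, hu1]; ring
  rw [Nat.floor_eq_iff (by positivity)]
  constructor
  · rw [← sub_le_iff_le_add, le_div_iff₀ he]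
    have := mul_lt_mul_of_pos_right h2.1 (show (0 : ℝ) < a by linarith)
    nlinarith [h2.2]
  · rw [← lt_sub_iff_add_lt, div_lt_iff₀ he]
    have := mul_lt_mul_of_pos_right h2.2 (show (0 : ℝ) < a by linarith)
    nlinarith [h2.2]

theorem Sys.iInf_VV_pos (S : Sys μ T f) (h : Unpred μ T f) : 0 < ⨅ K, VV μ T f K := by
  obtain ⟨ε, hε, h⟩ := h
  obtain ⟨K, hK2, hK⟩ := S.exists_tail (half_pos hε)
  have hK0 : (0 : ℝ) < K := by exact_mod_cast (by omega : 0 < K)
  set η : ℝ := 1 / (4 * (K : ℝ) ^ 2) with hη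
  have hη0 : 0 < η := by positivity
  refine lt_of_lt_of_le (show 0 < η ^ 2 * (ε / 2) by positivity) (le_ciInf fun L => ?_)
  have h1 := h L _ ((loc_ee (μ := μ) L).comp fun e => ⌊1 / e + 1 / 2⌋₊)
  have h2 : {y | f (T^[L] y) ≠ ⌊1 / ee μ T f L y + 1 / 2⌋₊} ⊆
      {y | K < f (T^[L] y)} ∪ {y | η ^ 2 ≤ ss μ T f L y ^ 2} := by
    intro y hy
    by_contra hc
    simp only [Set.mem_union, Set.mem_setOf_eq, not_or, not_lt, not_le] at hc
    refine hy (round_eq (S.two _) hc.1 ?_).symm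
    exact abs_lt_of_sq_lt_sq hc.2 hη0.le
  have h3 := (measureReal_mono h2 (measure_ne_top μ _)).trans (measureReal_union_le _ _)
  have h4 := mul_meas_ge_le_integral_of_nonneg (μ := μ) (f := fun y => ss μ T f L y ^ 2)
    (Eventually.of_forall fun y => sq_nonneg _) (S.integrable (S.bl_ss L).sq) (η ^ 2)
  refine le_trans (mul_le_mul_of_nonneg_left ?_ (sq_nonneg η)) h4
  linarith [hK L]

theorem Sys.exists_kappa (S : Sys μ T f) (h : Unpred μ T f) :
    ∃ κ₁ : ℝ, 0 < κ₁ ∧ ∀ L, κ₁ ≤ ∫ y, ss μ T f (L + 1) y ^ 2 * hh T f L y ∂μ := by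
  have hV := S.iInf_VV_pos h
  obtain ⟨K, hK2, hK⟩ := S.exists_tail (half_pos hV)
  have hK0 : (0 : ℝ) < K := by exact_mod_cast (by omega : 0 < K)
  refine ⟨(⨅ K, VV μ T f K) / 2 / K, by positivity, fun L => ?_⟩
  have hm : MeasurableSet {y | K < f (T^[L] y)} :=
    S.measurableSet ((loc_sym (Nat.lt_succ_self L)).comp fun a => K < a)
  have hi : Integrable (Set.indicator {y | K < f (T^[L] y)} (1 : X → ℝ)) μ :=
    (integrable_const _).indicator hm
  have h1 : ∫ y, (ss μ T f (L + 1) y ^ 2 - Set.indicator {y | K < f (T^[L] y)} 1 y) / K ∂μ ≤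
      ∫ y, ss μ T f (L + 1) y ^ 2 * hh T f L y ∂μ := by
    refine integral_mono (((S.integrable (S.bl_ss _).sq).sub hi).div_const _)
      (S.integrable ((S.bl_ss _).sq.mul (S.bl_hh L))) fun y => ?_
    simp only
    by_cases hy : K < f (T^[L] y)
    · rw [Set.indicator_of_mem (show y ∈ {y | K < f (T^[L] y)} from hy)]
      have h2 : ss μ T f (L + 1) y ^ 2 ≤ 1 := (sq_le_one_iff_abs_le_one _).2 (S.abs_ss_le _ y)
      exact (div_nonpos_of_nonpos_of_nonneg (by simpa using h2) hK0.le).trans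
        (mul_nonneg (sq_nonneg _) (S.hh_bounds L y).1)
    · rw [Set.indicator_of_notMem (show y ∉ {y | K < f (T^[L] y)} from hy), sub_zero,
        div_eq_mul_one_div]
      refine mul_le_mul_of_nonneg_left ?_ (sq_nonneg _)
      have : (2 : ℝ) ≤ f (T^[L] y) := by exact_mod_cast S.two _
      exact one_div_le_one_div_of_le (by linarith) (by exact_mod_cast not_lt.1 hy)
  refine le_trans ?_ h1
  rw [integral_div, integral_sub (S.integrable (S.bl_ss _).sq) hi, integral_indicator_one hm]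
  refine div_le_div_of_nonneg_right ?_ hK0.le
  have h2 := ciInf_le (VV_bdd (μ := μ) (T := T) (f := f)) (L + 1)
  have h3 := hK L
  unfold VV at h2 h3 ⊢
  linarith

end Pool.Agent.P.MP_ac93c9_an
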