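import Pool.Agent.P.MP_ac93c9_an.Gibbs
import Pool.Agent.P.MP_ac93c9_an.Predict

namespace Pool.Agent.P.MP_ac93c9_an

open Filter Topology Finset MeasureTheory Real

variable {X : Type*} [TopologicalSpace X] [MeasurableSpace X] {μ : Measure X} {T : X → X}
  {f : X → ℕ}

omit [MeasurableSpace X] in
theorem exists_cyl_subset (hind : IsInducing fun y n => f (T^[n] y)) {U : Set X} {y : X}
    (hU : U ∈ 𝓝 y) : ∃ K, cyl T f K y ⊆ U := by
  rw [hind.nhds_eq_comap, mem_comap] at hU
  obtain ⟨V, hV, hVU⟩ := hU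
  rw [nhds_pi, Filter.mem_pi] at hV
  obtain ⟨I, hI, t, ht, hsub⟩ := hV
  obtain ⟨m, hm⟩ := hI.bddAbove
  refine ⟨m + 1, fun z hz => hVU (hsub fun k hk => ?_)⟩
  have := hm hk
  simp only
  rw [hz k (by omega)]
  exact mem_of_mem_nhds (ht k)

variable [BorelSpace X] [IsProbabilityMeasure μ]

theorem Sys.exists_approx_set (S : Sys μ T f) (hind : IsInducing fun y n => f (T^[n] y))
    {s : Set X} (hs : MeasurableSet s) {ε : ℝ} (hε : 0 < ε) :
    ∃ (K : ℕ) (t : Set X), (Loc T f K fun y => y ∈ t) ∧ μ.real (symmDiff t s) ≤ ε := by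
  let C : Set (Set X) := {t | ∃ K, Loc T f K fun y => y ∈ t}
  have hC : IsSetRing C := by
    constructor
    · exact ⟨0, fun _ _ _ => rfl⟩
    · rintro s t ⟨K, hK⟩ ⟨K', hK'⟩
      exact ⟨max K K', (hK.mono (le_max_left _ _)).comp₂ (hK'.mono (le_max_right _ _)) (· ∨ ·)⟩
    · rintro s t ⟨K, hK⟩ ⟨K', hK'⟩
      exact ⟨max K K', (hK.mono (le_max_left _ _)).comp₂ (hK'.mono (le_max_right _ _))
        fun a b => a ∧ ¬ b⟩
  have hgen : ‹MeasurableSpace X› = MeasurableSpace.generateFrom C := by
    apply le_antisymm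
    · rw [BorelSpace.measurable_eq (α := X)]
      refine MeasurableSpace.generateFrom_le fun U hU => ?_
      have : U = ⋃ K : ℕ, {y | cyl T f K y ⊆ U} := by
        ext y
        simp only [Set.mem_iUnion, Set.mem_setOf_eq]
        exact ⟨fun hy => exists_cyl_subset hind (IsOpen.mem_nhds hU hy),
          fun ⟨K, hK⟩ => hK (mem_cyl_self K y)⟩
      rw [this]
      exact MeasurableSet.iUnion fun K => MeasurableSpace.measurableSet_generateFrom
        ⟨K, (loc_cyl K).comp fun A => A ⊆ U⟩
    · refine MeasurableSpace.generateFrom_le ?_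
      rintro t ⟨K, hK⟩
      exact S.measurableSet hK
  obtain ⟨t, ⟨K, hK⟩, ht⟩ := exists_measure_symmDiff_lt_of_generateFrom_isSetRing (μ := μ) hC
    ⟨{Set.univ}, Set.countable_singleton _,
      Set.singleton_subset_iff.2 ⟨0, fun _ _ _ => rfl⟩, by simp⟩ hgen hs
    (ENNReal.ofReal_pos.2 hε)
  exact ⟨K, t, hK, ENNReal.toReal_le_of_le_ofReal hε.le ht.le⟩

theorem Sys.exists_approx (S : Sys μ T f) (hind : IsInducing fun y n => f (T^[n] y)) {r : ℕ}
    {g : X → Fin r} (hg : Measurable g) {δ : ℝ} (hδ : 0 < δ) :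
    ∃ (K : ℕ) (g' : X → ℕ), Loc T f K g' ∧ μ.real {x | ¬ (g x : ℕ) = g' x} ≤ δ := by
  have hδ' : 0 < δ / (r + 1) := by positivity
  choose K t hK ht using fun b : Fin r =>
    S.exists_approx_set hind (hg (measurableSet_singleton b)) hδ'
  classical
  refine ⟨univ.sup K, fun x => ∑ b : Fin r, if x ∈ t b then (b : ℕ) else 0, ?_, ?_⟩
  · intro y y' h
    refine sum_congr rfl fun b _ => ?_
    have := (hK b).mono (le_sup (f := K) (mem_univ b)) y y' h
    simp only at this
    simp only [this]
  · have hsub : {x | ¬ (g x : ℕ) = ∑ b : Fin r, if x ∈ t b then (b : ℕ) else 0} ⊆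
        ⋃ b ∈ (univ : Finset (Fin r)), symmDiff (t b) (g ⁻¹' {b}) := by
      intro x hx
      by_contra hc
      apply hx
      simp only [Set.mem_iUnion, not_exists, Set.mem_symmDiff, Set.mem_preimage,
        Set.mem_singleton_iff] at hc
      have : ∀ b, x ∈ t b ↔ g x = b := fun b => by
        have := hc b (mem_univ b)
        tauto
      simp [this]
    refine (measureReal_mono hsub (measure_ne_top _ _)).trans
      ((measureReal_biUnion_finset_le _ _).trans ?_)
    refine (sum_le_card_nsmul _ _ _ fun b _ => ht b).trans ?_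
    rw [card_univ, Fintype.card_fin, nsmul_eq_mul, mul_div_assoc', div_le_iff₀ (by positivity)]
    nlinarith

theorem Sys.entropy_le (S : Sys μ T f) (hind : IsInducing fun y n => f (T^[n] y))
    (hH : Summable fun a => negMulLog (μ.real (f ⁻¹' {a}))) (hpred : ¬ Unpred μ T f) {r : ℕ}
    {g : X → Fin r} (hg : Measurable g) {η : ℝ} (hη : 0 < η) :
    ∃ C : ℝ, ∀ n : ℕ, ∑ w : Fin n → Fin r,
      negMulLog (μ.real {x | ∀ i : Fin n, g (T^[i] x) = w i}) ≤ C + n * (2 * η) := by
  classical
  have hfm := S.hf.measurable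
  set h : X → ℕ := fun x => (g x : ℕ) with hh
  have hhm : Measurable h := (measurable_of_countable Fin.val).comp hg
  have hH2 : Summable fun a => negMulLog (μ.real (h ⁻¹' {a})) := by
    refine summable_of_ne_finset_zero (s := range r) fun a ha => ?_
    have : h ⁻¹' {a} = ∅ := by
      ext x
      simp only [Set.mem_preimage, Set.mem_singleton_iff, Set.mem_empty_iff_false, iff_false]
      rintro rfl
      exact ha (mem_range.2 (g x).2)
    simp [this]
  obtain ⟨ε₁, δ₁, e10, e11, d1, hc1⟩ := exists_cost_le hfm hH hη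
  obtain ⟨ε₂, δ₂, e20, e21, d2, hc2⟩ := exists_cost_le hhm hH2 hη
  obtain ⟨K, g', hg', hK⟩ := S.exists_approx hind hg d2
  obtain ⟨L, φ, hφ, hL⟩ : ∃ L φ, Loc T f L φ ∧ μ.real {y | f (T^[L] y) ≠ φ y} < δ₁ := by
    by_contra hcon
    push Not at hcon
    exact hpred ⟨δ₁, d1, hcon⟩
  have hTm := fun k => S.mp.iterate k
  set C₀ := ∫ x, cost μ f ε₁ False (f x) ∂μ with hC₀
  refine ⟨L * |C₀| + K * η, fun n => ?_⟩
  have := refM_prob (μ := μ) hfm e10 e11
  have := refM_prob (μ := μ) hhm e20 e21
  let b₁ : ℕ → X → Prop := fun i x => L ≤ i ∧ f (T^[i] x) = φ (T^[i - L] x)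
  let b₂ : ℕ → X → Prop := fun i x => h (T^[i] x) = g' (T^[i] x)
  have hb₁ : ∀ i, MeasurableSet {x | b₁ i x} := fun i =>
    (MeasurableSet.const _).inter (measurableSet_eq_fun (hfm.comp (hTm i).measurable)
      ((S.measurable hφ).comp (hTm _).measurable))
  have hb₂ : ∀ i, MeasurableSet {x | b₂ i x} := fun i =>
    measurableSet_eq_fun (hhm.comp (hTm i).measurable) ((S.measurable hg').comp (hTm _).measurable)
  have hi₁ := fun i => integrable_cost hfm hH ε₁ (hTm i) (hb₁ i)
  have hi₂ := fun i => integrable_cost hhm hH2 ε₂ (hTm i) (hb₂ i)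
  have key := gibbs (μ := μ) (fun x (i : Fin n) => g (T^[i] x))
    (fun w => (measurable_pi_lambda _ fun i : Fin n => hg.comp (hTm i).measurable)
      (measurableSet_singleton w))
    (fun x => ((fun i : Fin (n + K) => if b₁ i x then 0 else f (T^[i] x) + 1),
      fun i : Fin n => if b₂ i x then 0 else h (T^[i] x) + 1))
    (by
      intro x x' e
      rw [Prod.mk.injEq] at e
      have h1 : ∀ i, i < n + K → f (T^[i] x) = f (T^[i] x') := by
        intro i
        induction i using Nat.strong_induction_on with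
        | _ i ih =>
          intro hi
          have e1 := congrFun e.1 ⟨i, hi⟩
          simp only at e1
          split_ifs at e1 with c1 c2
          · rw [c1.2, c2.2]
            refine hφ _ _ fun j hj => ?_
            have := c1.1
            rw [← Function.iterate_add_apply, ← Function.iterate_add_apply]
            exact ih _ (by omega) (by omega)
          · omega
      ext i
      have e2 := congrFun e.2 i
      split_ifs at e2 with c1 c2
      · refine c1.trans (Eq.trans (hg' _ _ fun j hj => ?_) c2.symm)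
        have := i.2
        rw [← Function.iterate_add_apply, ← Function.iterate_add_apply]
        exact h1 _ (by omega)
      · exact Nat.succ_injective e2)
    ((Measure.pi fun _ => refM μ f ε₁).prod (Measure.pi fun _ => refM μ h ε₂))
    (ψ := fun x => ∑ i : Fin (n + K), cost μ f ε₁ (b₁ i x) (f (T^[i] x)) +
      ∑ i : Fin n, cost μ h ε₂ (b₂ i x) (h (T^[i] x)))
    ((integrable_finsetSum _ fun (i : Fin (n + K)) _ => hi₁ i).add
      (integrable_finsetSum _ fun (i : Fin n) _ => hi₂ i))
    (by
      have a1 : ∀ᵐ x ∂μ, ∀ i : ℕ, 0 < μ.real (f ⁻¹' {f (T^[i] x)}) :=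
        ae_all_iff.2 fun i => (hTm i).quasiMeasurePreserving.ae (ae_pos f)
      have a2 : ∀ᵐ x ∂μ, ∀ i : ℕ, 0 < μ.real (h ⁻¹' {h (T^[i] x)}) :=
        ae_all_iff.2 fun i => (hTm i).quasiMeasurePreserving.ae (ae_pos h)
      filter_upwards [a1, a2] with x hx1 hx2
      rw [← Set.singleton_prod_singleton, measureReal_prod_prod, measureReal_def, measureReal_def,
        Measure.pi_singleton, Measure.pi_singleton, ENNReal.toReal_prod, ENNReal.toReal_prod,
        neg_add, exp_add, ← sum_neg_distrib, ← sum_neg_distrib, exp_sum, exp_sum]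
      refine mul_le_mul (prod_le_prod (fun i _ => (exp_pos _).le) fun i _ => ?_)
        (prod_le_prod (fun i _ => (exp_pos _).le) fun i _ => ?_)
        (prod_nonneg fun i _ => (exp_pos _).le) (prod_nonneg fun i _ => ENNReal.toReal_nonneg)
      · exact exp_cost_le hfm e10 e11 _ (hx1 i)
      · exact exp_cost_le hhm e20 e21 _ (hx2 i))
  have e0 : ∀ w : Fin n → Fin r, {x | ∀ i : Fin n, g (T^[i] x) = w i} =
      (fun x (i : Fin n) => g (T^[i] x)) ⁻¹' {w} := fun w => by
    ext x
    simp [funext_iff]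
  simp only [e0]
  refine key.trans ?_
  rw [integral_add (integrable_finsetSum _ fun (i : Fin (n + K)) _ => hi₁ i)
    (integrable_finsetSum _ fun (i : Fin n) _ => hi₂ i),
    integral_finsetSum _ fun (i : Fin (n + K)) _ => hi₁ i,
    integral_finsetSum _ fun (i : Fin n) _ => hi₂ i]
  have s1 : ∀ i : ℕ, ∫ x, cost μ f ε₁ (b₁ i x) (f (T^[i] x)) ∂μ ≤
      η + if i < L then |C₀| else 0 := by
    intro i
    split_ifs with hi
    · have : ∀ x, cost μ f ε₁ (b₁ i x) (f (T^[i] x)) = cost μ f ε₁ False (f (T^[i] x)) :=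
        fun x => by
          have : ¬ b₁ i x := fun h => by have := h.1; omega
          simp [cost, this]
      simp only [this]
      rw [S.integral_iter (F := fun x => cost μ f ε₁ False (f x))
        ((measurable_of_countable fun a => cost μ f ε₁ False a).comp hfm)]
      linarith [le_abs_self C₀]
    · rw [add_zero]
      refine hc1 _ (hTm i) _ (hb₁ i) (le_trans (le_of_eq ?_) hL.le)
      rw [← (hTm (i - L)).measureReal_preimage (s := {y | f (T^[L] y) ≠ φ y})
        (measurableSet_eq_fun (hfm.comp (hTm L).measurable)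
          (S.measurable hφ)).compl.nullMeasurableSet]
      congr 1
      ext x
      simp only [b₁, Set.mem_setOf_eq, Set.mem_preimage, ← Function.iterate_add_apply,
        show L + (i - L) = i by omega, not_lt.1 hi, true_and]
  have s2 : ∀ i : ℕ, ∫ x, cost μ h ε₂ (b₂ i x) (h (T^[i] x)) ∂μ ≤ η := by
    intro i
    refine hc2 _ (hTm i) _ (hb₂ i) (le_trans (le_of_eq ?_) hK)
    rw [← (hTm i).measureReal_preimage (s := {x | ¬ (g x : ℕ) = g' x})
      (measurableSet_eq_fun hhm (S.measurable hg')).compl.nullMeasurableSet]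
    rfl
  have t1 := sum_le_sum fun (i : Fin (n + K)) (_ : i ∈ univ) => s1 i
  have t2 := sum_le_card_nsmul univ _ _ fun (i : Fin n) _ => s2 i
  have t3 : ∑ i : Fin (n + K), (if (i : ℕ) < L then |C₀| else 0) ≤ L * |C₀| := by
    rw [Fin.sum_univ_eq_sum_range (fun i => if i < L then |C₀| else 0), ← sum_filter, sum_const,
      nsmul_eq_mul]
    refine mul_le_mul_of_nonneg_right ?_ (abs_nonneg _)
    have : #{i ∈ range (n + K) | i < L} ≤ #(range L) :=
      card_le_card fun i hi => mem_range.2 (mem_filter.1 hi).2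
    rw [card_range] at this
    exact_mod_cast this
  rw [sum_add_distrib] at t1
  simp only [sum_const, card_univ, Fintype.card_fin, nsmul_eq_mul, Nat.cast_add] at t1 t2
  linarith

theorem Sys.unpred (S : Sys μ T f) (hind : IsInducing fun y n => f (T^[n] y))
    (hH : Summable fun a => negMulLog (μ.real (f ⁻¹' {a}))) (hpos : 0 < ksEntropy μ T) :
    Unpred μ T f := by
  by_contra hpred
  refine absurd hpos (not_lt.2 ?_)
  refine iSup_le fun r => iSup_le fun g => iSup_le fun hg => ?_
  refine ENNReal.le_of_forall_pos_le_add fun ε hε _ => ?_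
  have hη : (0 : ℝ) < ε / 3 := by positivity
  obtain ⟨C, hC⟩ := S.entropy_le hind hH hpred hg hη
  refine limsup_le_of_le (by isBoundedDefault) ?_
  filter_upwards [(tendsto_const_div_atTop_nhds_zero_nat C).eventually (gt_mem_nhds hη),
    eventually_gt_atTop 0] with n hn hn0
  have hn' : (0 : ℝ) < n := by exact_mod_cast hn0
  rw [zero_add, ← ENNReal.ofReal_coe_nnreal]
  refine ENNReal.ofReal_le_ofReal ((div_le_div_of_nonneg_right (hC n) hn'.le).trans ?_)
  rw [add_div, mul_div_cancel_left₀ _ hn'.ne']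
  linarith

end Pool.Agent.P.MP_ac93c9_an
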