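import Pool.Agent.P.MP_ac93c9_an.Ces

namespace Pool.Agent.P.MP_ac93c9_an

open Filter Topology Finset

/-- Clamping to the unit interval. -/
noncomputable def clamp (u : ℝ) : ℝ := max 0 (min u 1)

theorem clamp_nonneg (u : ℝ) : 0 ≤ clamp u := le_max_left _ _

theorem clamp_le_one (u : ℝ) : clamp u ≤ 1 := max_le zero_le_one (min_le_right _ _)

theorem clamp_mono {u v : ℝ} (h : u ≤ v) : clamp u ≤ clamp v :=
  max_le_max le_rfl (min_le_min h le_rfl)

theorem clamp_of_nonpos {u : ℝ} (h : u ≤ 0) : clamp u = 0 :=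
  max_eq_left ((min_le_left _ _).trans h)

theorem clamp_of_one_le {u : ℝ} (h : 1 ≤ u) : clamp u = 1 := by
  rw [clamp, min_eq_right h, max_eq_right zero_le_one]

theorem clamp_of_mem {u : ℝ} (h0 : 0 ≤ u) (h : u ≤ 1) : clamp u = u := by
  rw [clamp, min_eq_left h, max_eq_right h0]

theorem sum_clamp (u : ℝ) (n : ℕ) : ∑ c ∈ range n, clamp (u - c) = max 0 (min u n) := by
  induction n with
  | zero => simp
  | succ n ih =>
    rw [sum_range_succ, ih, clamp]
    push_cast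
    have : (0 : ℝ) ≤ n := Nat.cast_nonneg n
    simp only [max_def, min_def]
    split_ifs <;> linarith

theorem sum_clamp' (s : ℝ) {n : ℕ} (hn : 1 ≤ n) :
    ∑ c ∈ range n, clamp (s * n - c) = clamp s * n := by
  rw [sum_clamp, clamp]
  have : (0 : ℝ) < n := by exact_mod_cast hn
  rw [max_mul_of_nonneg _ _ this.le, min_mul_of_nonneg _ _ this.le]
  simp

/-- The biased digit law. -/
noncomputable def pr (Q : ℕ) (t : ℝ) (c : ℕ) : ℝ :=
  if c < Q then (1 + (if c = 0 then t else if c = 1 then -t else 0)) / Q else 0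

theorem pr_nonneg (Q : ℕ) {t : ℝ} (ht : |t| ≤ 1) (c : ℕ) : 0 ≤ pr Q t c := by
  rw [abs_le] at ht
  unfold pr
  split_ifs <;> first | rfl | (apply div_nonneg _ (Nat.cast_nonneg _); linarith)

theorem pr_le (Q : ℕ) {t τ : ℝ} (ht : |t| ≤ τ) (c : ℕ) : pr Q t c ≤ (1 + τ) / Q := by
  have h0 : 0 ≤ τ := (abs_nonneg _).trans ht
  rw [abs_le] at ht
  unfold pr
  split_ifs
  all_goals first
    | positivity
    | (apply div_le_div_of_nonneg_right _ (Nat.cast_nonneg _); linarith)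

theorem pr_le_one {Q : ℕ} (hQ : 2 ≤ Q) {t : ℝ} (ht : |t| ≤ 1) (c : ℕ) : pr Q t c ≤ 1 := by
  refine (pr_le Q ht c).trans ?_
  have : (2 : ℝ) ≤ Q := by exact_mod_cast hQ
  rw [div_le_one (by linarith)]
  linarith

theorem abs_pr_sub_le {Q : ℕ} (hQ : 2 ≤ Q) (t : ℝ) (c : ℕ) : |pr Q t c - pr Q 0 c| ≤ |t| := by
  have h2 : (2 : ℝ) ≤ Q := by exact_mod_cast hQ
  have h3 : |t| / Q ≤ |t| := div_le_self (abs_nonneg _) (by linarith)
  unfold pr
  split_ifs
  · rw [← sub_div, abs_div, Nat.abs_cast]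
    simpa using h3
  · rw [← sub_div, abs_div, Nat.abs_cast]
    simpa using h3
  · simp
  · simp

theorem sum_pr_mul {Q : ℕ} (hQ : 2 ≤ Q) (t : ℝ) (h : ℕ → ℝ) :
    ∑ c ∈ range Q, pr Q t c * h c = (∑ c ∈ range Q, h c) / Q + t * ((h 0 - h 1) / Q) := by
  obtain ⟨k, rfl⟩ : ∃ k, Q = k + 2 := ⟨Q - 2, by omega⟩
  rw [sum_range_succ', sum_range_succ', sum_range_succ' h, sum_range_succ' (fun c => h (c + 1))]
  have : ∀ c ∈ range k, pr (k + 2) t (c + 1 + 1) * h (c + 1 + 1) =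
      h (c + 1 + 1) / ((k + 2 : ℕ) : ℝ) := by
    intro c hc
    have := mem_range.1 hc
    rw [pr, if_pos (by omega), if_neg (by omega), if_neg (by omega)]
    ring
  rw [sum_congr rfl this, ← sum_div]
  have e0 : pr (k + 2) t 0 = (1 + t) / ((k + 2 : ℕ) : ℝ) := by simp [pr]
  have e1 : pr (k + 2) t (0 + 1) = (1 - t) / ((k + 2 : ℕ) : ℝ) := by simp [pr, sub_eq_add_neg]
  rw [e0, e1]
  simp only [zero_add]
  ring

theorem sum_pr {Q : ℕ} (hQ : 2 ≤ Q) (t : ℝ) : ∑ c ∈ range Q, pr Q t c = 1 := by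
  have := sum_pr_mul hQ t (fun _ => 1)
  have h2 : (Q : ℝ) ≠ 0 := by
    have : Q ≠ 0 := by omega
    exact_mod_cast this
  simpa [h2] using this

/-- Expectation over the first `j` digits. -/
noncomputable def Ex (Q : ℕ → ℕ) (t : ℕ → ℝ) : ℕ → ((ℕ → ℕ) → ℝ) → ℝ
  | 0, F => F (fun _ => 0)
  | j + 1, F => Ex Q t j (fun d => ∑ c ∈ range (Q j), pr (Q j) (t j) c * F (Function.update d j c))

theorem Ex_congr {Q Q' : ℕ → ℕ} {t t' : ℕ → ℝ} (j : ℕ) (hQ : ∀ k < j, Q k = Q' k)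
    (ht : ∀ k < j, t k = t' k) (F : (ℕ → ℕ) → ℝ) : Ex Q t j F = Ex Q' t' j F := by
  induction j generalizing F with
  | zero => rfl
  | succ j ih =>
    simp only [Ex]
    rw [hQ j (by omega), ht j (by omega)]
    exact ih (fun k hk => hQ k (by omega)) (fun k hk => ht k (by omega)) _

theorem Ex_lin (Q : ℕ → ℕ) (t : ℕ → ℝ) (j : ℕ) (a : ℝ) (F G : (ℕ → ℕ) → ℝ) :
    Ex Q t j (fun d => F d + a * G d) = Ex Q t j F + a * Ex Q t j G := by
  induction j generalizing F G with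
  | zero => rfl
  | succ j ih =>
    simp only [Ex]
    rw [← ih]
    congr 1
    ext d
    rw [mul_sum, ← sum_add_distrib]
    exact sum_congr rfl fun c _ => by ring

theorem Ex_zero (Q : ℕ → ℕ) (t : ℕ → ℝ) (j : ℕ) : Ex Q t j (fun _ => 0) = 0 := by
  induction j with
  | zero => rfl
  | succ j ih => simpa [Ex] using ih

theorem Ex_smul (Q : ℕ → ℕ) (t : ℕ → ℝ) (j : ℕ) (a : ℝ) (G : (ℕ → ℕ) → ℝ) :
    Ex Q t j (fun d => a * G d) = a * Ex Q t j G := by
  have := Ex_lin Q t j a (fun _ => 0) G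
  simpa [Ex_zero] using this

theorem step_bounds {Q : ℕ} (hQ : 2 ≤ Q) {t : ℝ} (ht : |t| ≤ 1) {h : ℕ → ℝ} {a b : ℝ}
    (hh : ∀ c, a ≤ h c ∧ h c ≤ b) :
    a ≤ ∑ c ∈ range Q, pr Q t c * h c ∧ ∑ c ∈ range Q, pr Q t c * h c ≤ b := by
  constructor
  · calc a = ∑ c ∈ range Q, pr Q t c * a := by rw [← sum_mul, sum_pr hQ, one_mul]
      _ ≤ _ := sum_le_sum fun c _ => mul_le_mul_of_nonneg_left (hh c).1 (pr_nonneg Q ht c)
  · calc _ ≤ ∑ c ∈ range Q, pr Q t c * b :=
          sum_le_sum fun c _ => mul_le_mul_of_nonneg_left (hh c).2 (pr_nonneg Q ht c)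
      _ = b := by rw [← sum_mul, sum_pr hQ, one_mul]

theorem Ex_bounds {Q : ℕ → ℕ} {t : ℕ → ℝ} (hQ : ∀ k, 2 ≤ Q k) (ht : ∀ k, |t k| ≤ 1) (j : ℕ)
    {F : (ℕ → ℕ) → ℝ} {a b : ℝ} (hF : ∀ d, a ≤ F d ∧ F d ≤ b) :
    a ≤ Ex Q t j F ∧ Ex Q t j F ≤ b := by
  induction j generalizing F with
  | zero => exact hF _
  | succ j ih =>
    simp only [Ex]
    exact ih fun d => step_bounds (hQ j) (ht j) fun c => hF _

/-- The product of the first `j` bases. -/
noncomputable def RR (Q : ℕ → ℕ) (j : ℕ) : ℝ := ∏ k ∈ range j, (Q k : ℝ)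

/-- The value of the first `j` digits. -/
noncomputable def val (Q e : ℕ → ℕ) (j : ℕ) : ℝ := ∑ k ∈ range j, (e k : ℝ) / RR Q (k + 1)

/-- Position of the threshold relative to the cylinder. -/
noncomputable def pos (s : ℝ) (j : ℕ) (Q e : ℕ → ℕ) : ℝ := (s - val Q e j) * RR Q j

/-- The test function approximating the indicator of `y < s`. -/
noncomputable def MM (s : ℝ) (j : ℕ) (Q e : ℕ → ℕ) : ℝ := clamp (pos s j Q e)

/-- The increment function. -/
noncomputable def gg (s : ℝ) (j : ℕ) (Q e : ℕ → ℕ) : ℝ :=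
  (clamp (pos s j Q e * Q j) - clamp (pos s j Q e * Q j - 1)) / Q j

theorem RR_succ (Q : ℕ → ℕ) (j : ℕ) : RR Q (j + 1) = RR Q j * Q j := prod_range_succ _ _

theorem two_pow_le_RR {Q : ℕ → ℕ} (hQ : ∀ k, 2 ≤ Q k) (j : ℕ) : (2 : ℝ) ^ j ≤ RR Q j := by
  induction j with
  | zero => simp [RR]
  | succ j ih =>
    rw [RR_succ, pow_succ]
    have : (2 : ℝ) ≤ Q j := by exact_mod_cast hQ j
    exact mul_le_mul ih this zero_le_two ((by positivity : (0 : ℝ) ≤ 2 ^ j).trans ih)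

theorem RR_pos {Q : ℕ → ℕ} (hQ : ∀ k, 2 ≤ Q k) (j : ℕ) : 0 < RR Q j :=
  lt_of_lt_of_le (by positivity) (two_pow_le_RR hQ j)

theorem RR_congr {Q Q' : ℕ → ℕ} {j : ℕ} (hQ : ∀ k < j, Q k = Q' k) : RR Q j = RR Q' j :=
  prod_congr rfl fun k hk => by rw [hQ k (mem_range.1 hk)]

theorem pos_congr (s : ℝ) {Q Q' e e' : ℕ → ℕ} {j : ℕ} (hQ : ∀ k < j, Q k = Q' k)
    (he : ∀ k < j, e k = e' k) : pos s j Q e = pos s j Q' e' := by
  rw [pos, pos, RR_congr hQ]
  congr 2
  refine sum_congr rfl fun k hk => ?_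
  have := mem_range.1 hk
  rw [he k this, RR_congr (Q' := Q') (fun k' hk' => hQ k' (by omega))]

theorem pos_succ {Q : ℕ → ℕ} (hQ : ∀ k, 2 ≤ Q k) (s : ℝ) (j : ℕ) (e : ℕ → ℕ) :
    pos s (j + 1) Q e = pos s j Q e * Q j - e j := by
  have := (RR_pos hQ (j + 1)).ne'
  rw [pos, pos, val, sum_range_succ, ← val, mul_assoc, ← RR_succ]
  field_simp
  ring

theorem gg_bounds {Q : ℕ → ℕ} (hQ : ∀ k, 2 ≤ Q k) (s : ℝ) (j : ℕ) (e : ℕ → ℕ) :
    0 ≤ gg s j Q e ∧ gg s j Q e ≤ 1 := by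
  have h2 : (2 : ℝ) ≤ Q j := by exact_mod_cast hQ j
  have h1 := clamp_mono (show pos s j Q e * Q j - 1 ≤ pos s j Q e * Q j by linarith)
  constructor
  · exact div_nonneg (by linarith) (by linarith)
  · rw [gg, div_le_one (by linarith)]
    linarith [clamp_le_one (pos s j Q e * Q j), clamp_nonneg (pos s j Q e * Q j - 1)]

theorem Ex_MM_succ {Q : ℕ → ℕ} (hQ : ∀ k, 2 ≤ Q k) (t : ℕ → ℝ) (s : ℝ) (j : ℕ) :
    Ex Q t (j + 1) (MM s (j + 1) Q) = Ex Q t j (MM s j Q) + t j * Ex Q t j (gg s j Q) := by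
  rw [← Ex_lin]
  simp only [Ex]
  congr 1
  ext d
  have h1 : ∀ c, MM s (j + 1) Q (Function.update d j c) = clamp (pos s j Q d * Q j - c) := by
    intro c
    rw [MM, pos_succ hQ, Function.update_self,
      pos_congr s (Q' := Q) (e' := d) (fun _ _ => rfl)
        (fun k hk => Function.update_of_ne (by omega) _ _)]
  simp only [h1]
  rw [sum_pr_mul (hQ j), sum_clamp' _ (by linarith [hQ j])]
  have h2 : (Q j : ℝ) ≠ 0 := by
    have : Q j ≠ 0 := by linarith [hQ j]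
    exact_mod_cast this
  simp [MM, gg, h2]

theorem Ex_MM {Q : ℕ → ℕ} (hQ : ∀ k, 2 ≤ Q k) (t : ℕ → ℝ) (s : ℝ) (j : ℕ) :
    Ex Q t j (MM s j Q) = clamp s + ∑ k ∈ range j, t k * Ex Q t k (gg s k Q) := by
  induction j with
  | zero => simp [Ex, MM, pos, val, RR]
  | succ j ih => rw [Ex_MM_succ hQ, ih, sum_range_succ, add_assoc]

/-- The indicator of a block. -/
noncomputable def blk (l : ℕ) (D e : ℕ → ℕ) : ℝ := if ∀ k < l, e k = D k then 1 else 0

theorem Ex_blk (Q : ℕ → ℕ) (t : ℕ → ℝ) (l : ℕ) (D : ℕ → ℕ) :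
    Ex Q t l (blk l D) = ∏ k ∈ range l, pr (Q k) (t k) (D k) := by
  induction l with
  | zero => simp [Ex, blk]
  | succ l ih =>
    rw [prod_range_succ, ← ih, mul_comm, ← Ex_smul]
    simp only [Ex]
    congr 1
    ext d
    have h1 : ∀ c, blk (l + 1) D (Function.update d l c) = if c = D l then blk l D d else 0 := by
      intro c
      unfold blk
      by_cases hc : c = D l
      · rw [if_pos hc]
        refine if_congr ⟨fun h k hk => ?_, fun h k hk => ?_⟩ rfl rfl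
        · have := h k (by omega)
          rwa [Function.update_of_ne (by omega)] at this
        · rcases Nat.lt_succ_iff_lt_or_eq.1 hk with h' | rfl
          · rw [Function.update_of_ne (by omega)]
            exact h k h'
          · rw [Function.update_self, hc]
      · rw [if_neg hc, if_neg]
        intro h
        have := h l (by omega)
        rw [Function.update_self] at this
        exact hc this
    simp only [h1, mul_ite, mul_zero, sum_ite_eq', mem_range]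
    split_ifs with h
    · rfl
    · simp [pr, h]

theorem abs_prod_sub_prod_le (l : ℕ) {a b : ℕ → ℝ} (ha : ∀ k, 0 ≤ a k ∧ a k ≤ 1)
    (hb : ∀ k, 0 ≤ b k ∧ b k ≤ 1) {η : ℝ} (h : ∀ k, |a k - b k| ≤ η) :
    |∏ k ∈ range l, a k - ∏ k ∈ range l, b k| ≤ l * η := by
  induction l with
  | zero => simp
  | succ l ih =>
    rw [prod_range_succ, prod_range_succ]
    have hb0 : 0 ≤ ∏ k ∈ range l, b k := prod_nonneg fun k _ => (hb k).1
    have hb1 : ∏ k ∈ range l, b k ≤ 1 := prod_le_one (fun k _ => (hb k).1) fun k _ => (hb k).2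
    have e : (∏ k ∈ range l, a k) * a l - (∏ k ∈ range l, b k) * b l =
        (∏ k ∈ range l, a k - ∏ k ∈ range l, b k) * a l + (∏ k ∈ range l, b k) * (a l - b l) := by
      ring
    rw [e]
    refine (abs_add_le _ _).trans ?_
    rw [abs_mul, abs_mul, abs_of_nonneg (ha l).1, abs_of_nonneg hb0]
    push_cast
    have e1 := mul_le_of_le_one_right (abs_nonneg
      (∏ k ∈ range l, a k - ∏ k ∈ range l, b k)) (ha l).2
    have e2 := mul_le_of_le_one_left (abs_nonneg (a l - b l)) hb1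
    linarith [h l]

/-- The countable family of test functions. -/
abbrev Test : Type := (ℚ × ℕ) ⊕ List ℕ

/-- Window length of a test. -/
def Test.W : Test → ℕ
  | Sum.inl p => p.2
  | Sum.inr D => D.length

/-- The test function. -/
noncomputable def Test.F : Test → (ℕ → ℕ) → (ℕ → ℕ) → ℝ
  | Sum.inl p => MM (p.1 : ℝ) p.2
  | Sum.inr D => fun _ => blk D.length (fun k => D.getD k 0)

theorem Test.F_bounds (κ : Test) (Q e : ℕ → ℕ) : 0 ≤ κ.F Q e ∧ κ.F Q e ≤ 1 := by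
  rcases κ with p | D
  · exact ⟨clamp_nonneg _, clamp_le_one _⟩
  · simp only [Test.F, blk]
    split_ifs <;> simp

theorem Test.F_congr (κ : Test) {Q Q' e e' : ℕ → ℕ} (hQ : ∀ k < κ.W, Q k = Q' k)
    (he : ∀ k < κ.W, e k = e' k) : κ.F Q e = κ.F Q' e' := by
  rcases κ with p | D
  · simp only [Test.F, MM]
    exact congrArg clamp (pos_congr _ hQ he)
  · simp only [Test.F, blk]
    refine if_congr ⟨fun h k hk => ?_, fun h k hk => ?_⟩ rfl rfl
    · rw [← he k hk]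
      exact h k hk
    · rw [he k hk]
      exact h k hk

/-- The window starting after position `i`. -/
def win {α : Type} (i : ℕ) (e : ℕ → α) : ℕ → α := fun k => e (i + 1 + k)

end Pool.Agent.P.MP_ac93c9_an
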