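import Pool.Agent.P.MP_ac93c9_an.Ex

namespace Pool.Agent.P.MP_ac93c9_an

open Filter Topology Finset

theorem prodQ_zero (q : ℕ → ℕ) : prodQ q 0 = 1 := by simp [prodQ]

theorem prodQ_succ (q : ℕ → ℕ) (n : ℕ) : prodQ q (n + 1) = prodQ q n * q (n + 1) :=
  Finset.prod_Icc_succ_top (by omega) _

theorem two_pow_le_prodQ {q : ℕ → ℕ} (hq : ∀ n, 2 ≤ q n) (n : ℕ) : 2 ^ n ≤ prodQ q n := by
  induction n with
  | zero => simp [prodQ_zero]
  | succ n ih =>
    rw [prodQ_succ, pow_succ]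
    exact Nat.mul_le_mul ih (hq _)

theorem prodQ_pos {q : ℕ → ℕ} (hq : ∀ n, 2 ≤ q n) (n : ℕ) : (0 : ℝ) < prodQ q n := by
  have : 0 < prodQ q n := lt_of_lt_of_le (by positivity) (two_pow_le_prodQ hq n)
  exact_mod_cast this

/-- The orbit of `x`. -/
noncomputable def yy (q : ℕ → ℕ) (x : ℝ) (i : ℕ) : ℝ := Int.fract ((prodQ q i : ℝ) * x)

theorem digit_succ_int (q : ℕ → ℕ) (x : ℝ) (n : ℕ) :
    (digit q x (n + 1) : ℤ) = ⌊(prodQ q (n + 1) : ℝ) * x⌋ - q (n + 1) * ⌊(prodQ q n : ℝ) * x⌋ := by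
  rw [digit, Nat.add_sub_cancel,
    Int.natCast_floor_eq_floor (mul_nonneg (Nat.cast_nonneg _) (Int.fract_nonneg _))]
  have : (q (n + 1) : ℝ) * Int.fract ((prodQ q n : ℝ) * x) =
      (prodQ q (n + 1) : ℝ) * x - ((q (n + 1) * ⌊(prodQ q n : ℝ) * x⌋ : ℤ) : ℝ) := by
    rw [Int.fract, prodQ_succ]
    push_cast
    ring
  rw [this, Int.floor_sub_intCast]

theorem yy_succ (q : ℕ → ℕ) (x : ℝ) (i : ℕ) :
    yy q x (i + 1) = yy q x i * q (i + 1) - digit q x (i + 1) := by
  have h := digit_succ_int q x i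
  have h2 : (digit q x (i + 1) : ℝ) =
      (⌊(prodQ q (i + 1) : ℝ) * x⌋ : ℝ) - q (i + 1) * (⌊(prodQ q i : ℝ) * x⌋ : ℝ) := by
    exact_mod_cast h
  rw [h2, yy, yy, Int.fract, Int.fract, prodQ_succ]
  push_cast
  ring

theorem digit_eq_of_floor_eq {q : ℕ → ℕ} (hq : ∀ n, 2 ≤ q n) {x x' : ℝ} (n : ℕ)
    (h : ⌊(prodQ q n : ℝ) * x⌋ = ⌊(prodQ q n : ℝ) * x'⌋) :
    ∀ k < n, digit q x (k + 1) = digit q x' (k + 1) := by
  induction n with
  | zero => intro k hk; omega
  | succ n ih =>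
    have hq0 : (q (n + 1) : ℝ) ≠ 0 := by
      have : q (n + 1) ≠ 0 := by linarith [hq (n + 1)]
      exact_mod_cast this
    have key : ∀ z : ℝ, ⌊(prodQ q n : ℝ) * z⌋ = ⌊(prodQ q (n + 1) : ℝ) * z⌋ / q (n + 1) := by
      intro z
      rw [← Int.floor_div_natCast, prodQ_succ]
      congr 1
      push_cast
      field_simp
    have h1 : ⌊(prodQ q n : ℝ) * x⌋ = ⌊(prodQ q n : ℝ) * x'⌋ := by rw [key, key, h]
    intro k hk
    rcases Nat.lt_succ_iff_lt_or_eq.1 hk with h' | rfl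
    · exact ih h1 k h'
    · have : (digit q x (k + 1) : ℤ) = digit q x' (k + 1) := by
        rw [digit_succ_int, digit_succ_int, h, h1]
      exact_mod_cast this

theorem pos_win {q : ℕ → ℕ} (hq : ∀ n, 2 ≤ q n) (x s : ℝ) (i j : ℕ) :
    pos s j (win i q) (win i (digit q x)) = (s - yy q x i) * RR (win i q) j + yy q x (i + j) := by
  induction j with
  | zero => simp [pos, val, RR]
  | succ j ih =>
    rw [pos_succ (Q := win i q) (fun k => hq _), ih, RR_succ, ← add_assoc, yy_succ]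
    simp only [win]
    rw [show i + 1 + j = i + j + 1 by ring]
    ring

/-- Indicator of `y < s`. -/
noncomputable def ind (s y : ℝ) : ℝ := if y < s then 1 else 0

theorem ind_bounds (s y : ℝ) : 0 ≤ ind s y ∧ ind s y ≤ 1 := by
  unfold ind
  split_ifs <;> simp

theorem ind_le_MM {q : ℕ → ℕ} (hq : ∀ n, 2 ≤ q n) (x : ℝ) {s s' : ℝ} {j : ℕ}
    (h : s' + (1 / 2) ^ j ≤ s) (i : ℕ) :
    ind s' (yy q x i) ≤ MM s j (win i q) (win i (digit q x)) := by
  unfold ind
  split_ifs with hc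
  · rw [MM, pos_win hq, clamp_of_one_le]
    have h1 := two_pow_le_RR (Q := win i q) (fun k => hq _) j
    have h2 : (0 : ℝ) ≤ yy q x (i + j) := Int.fract_nonneg _
    have h3 : (1 / 2 : ℝ) ^ j * 2 ^ j = 1 := by rw [← mul_pow]; simp
    have h4 : (1 / 2 : ℝ) ^ j * 2 ^ j ≤ (s - yy q x i) * RR (win i q) j :=
      mul_le_mul (by linarith) h1 (by positivity)
        (by linarith [show (0 : ℝ) < (1 / 2) ^ j by positivity])
    linarith
  · exact clamp_nonneg _

theorem MM_le_ind {q : ℕ → ℕ} (hq : ∀ n, 2 ≤ q n) (x : ℝ) {s s' : ℝ} {j : ℕ}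
    (h : s + (1 / 2) ^ j ≤ s') (i : ℕ) :
    MM s j (win i q) (win i (digit q x)) ≤ ind s' (yy q x i) := by
  unfold ind
  split_ifs with hc
  · exact clamp_le_one _
  · rw [MM, pos_win hq, clamp_of_nonpos]
    have h1 := two_pow_le_RR (Q := win i q) (fun k => hq _) j
    have h2 : yy q x (i + j) < 1 := Int.fract_lt_one _
    have h3 : (1 / 2 : ℝ) ^ j * 2 ^ j = 1 := by rw [← mul_pow]; simp
    have h4 : (1 / 2 : ℝ) ^ j * 2 ^ j ≤ (yy q x i - s) * RR (win i q) j :=
      mul_le_mul (by linarith) h1 (by positivity)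
        (by linarith [show (0 : ℝ) < (1 / 2) ^ j by positivity])
    linarith

theorem ces_of_sandwich {u : ℕ → ℝ} {c : ℝ}
    (h : ∀ ε > 0, ∃ a b : ℕ → ℝ, ∃ ca cb, Ces a ca ∧ Ces b cb ∧ (∀ i, a i ≤ u i) ∧
      (∀ i, u i ≤ b i) ∧ c - ε ≤ ca ∧ cb ≤ c + ε) : Ces u c := by
  rw [Ces, tendsto_order]
  constructor
  · intro c' hc'
    obtain ⟨a, b, ca, cb, ha, -, h1, -, h2, -⟩ := h ((c - c') / 2) (by linarith)
    filter_upwards [ha.eventually (lt_mem_nhds (show c' < ca by linarith))] with N hN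
    exact lt_of_lt_of_le hN (avg_mono h1 N)
  · intro c' hc'
    obtain ⟨a, b, ca, cb, -, hb, -, h1, -, h2⟩ := h ((c' - c) / 2) (by linarith)
    filter_upwards [hb.eventually (gt_mem_nhds (show cb < c' by linarith))] with N hN
    exact lt_of_le_of_lt (avg_mono h1 N) hN

theorem ces_const (c : ℝ) : Ces (fun _ => c) c := by
  refine tendsto_const_nhds.congr' ?_
  filter_upwards [eventually_gt_atTop 0] with N hN
  have : (N : ℝ) ≠ 0 := by exact_mod_cast hN.ne'
  simp [avg, psum, this]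

theorem clamp_add_le (s : ℝ) {ε : ℝ} (hε : 0 ≤ ε) : clamp (s + ε) ≤ clamp s + ε := by
  unfold clamp
  simp only [max_def, min_def]
  split_ifs <;> linarith

/-- Reformulation of distribution normality. -/
def DN (q : ℕ → ℕ) (x : ℝ) : Prop := ∀ s : ℝ, Ces (fun i => ind s (yy q x i)) (clamp s)

open scoped Classical in
theorem card_Ico_eq (q : ℕ → ℕ) (x a b : ℝ) (hab : a ≤ b) (N : ℕ) :
    (#{n ∈ Icc 1 N | Int.fract ((prodQ q n : ℝ) * x) ∈ Set.Ico a b} : ℝ) / N =
      avg (fun i => ind b (yy q x (i + 1))) N - avg (fun i => ind a (yy q x (i + 1))) N := by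
  rw [avg, avg, ← sub_div, ← sum_Icc_eq_psum (fun i => ind b (yy q x i)),
    ← sum_Icc_eq_psum (fun i => ind a (yy q x i)), ← sum_sub_distrib, ← sum_boole]
  congr 1
  refine sum_congr rfl fun n _ => ?_
  simp only [ind, yy, Set.mem_Ico]
  by_cases h1 : Int.fract ((prodQ q n : ℝ) * x) < a
  · rw [if_pos h1, if_pos (h1.trans_le hab), if_neg (fun h => absurd h.1 (not_le.2 h1))]
    simp
  · rw [if_neg h1]
    by_cases h2 : Int.fract ((prodQ q n : ℝ) * x) < b
    · rw [if_pos h2, if_pos ⟨not_lt.1 h1, h2⟩]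
      simp
    · rw [if_neg h2, if_neg (fun h => h2 h.2)]
      simp

theorem abs_ind_le (s y : ℝ) : |ind s y| ≤ 1 := by
  rw [abs_of_nonneg (ind_bounds s y).1]
  exact (ind_bounds s y).2

theorem unifDist_iff_DN (q : ℕ → ℕ) (x : ℝ) :
    UnifDistModOne (fun n => (prodQ q n : ℝ) * x) ↔ DN q x := by
  have hz : ∀ s ≤ 0, ∀ i, ind s (yy q x i) = 0 := fun s hs i =>
    if_neg (not_lt.2 (hs.trans (Int.fract_nonneg _)))
  constructor
  · intro h s
    rcases le_or_gt s 0 with h0 | h0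
    · simp only [hz s h0, clamp_of_nonpos h0]
      exact ces_const 0
    rcases le_or_gt 1 s with h1 | h1
    · have : ∀ i, ind s (yy q x i) = 1 := fun i => if_pos ((Int.fract_lt_one _).trans_le h1)
      simp only [this, clamp_of_one_le h1]
      exact ces_const 1
    · have := h 0 s le_rfl h0 h1.le
      simp only [card_Ico_eq q x 0 s h0.le, hz 0 le_rfl] at this
      rw [← ces_shift_one (C := 1) (fun i => abs_ind_le _ _), clamp_of_mem h0.le h1.le]
      have e : ∀ N, avg (fun _ => (0 : ℝ)) N = 0 := fun N => by simp [avg, psum]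
      simp only [e, sub_zero] at this
      exact this
  · intro h a b ha hab hb
    simp only [card_Ico_eq q x a b hab.le]
    have h1 := (ces_shift_one (C := 1) (fun i => abs_ind_le _ _)).2 (h a)
    have h2 := (ces_shift_one (C := 1) (fun i => abs_ind_le _ _)).2 (h b)
    rw [clamp_of_mem ha (hab.le.trans hb)] at h1
    rw [clamp_of_mem (ha.trans hab.le) hb] at h2
    exact Tendsto.sub h2 h1

theorem ind_mono {s s' : ℝ} (h : s ≤ s') (y : ℝ) : ind s y ≤ ind s' y := by
  unfold ind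
  split_ifs with h1 h2
  · rfl
  · exact absurd (h1.trans_le h) h2
  · simp
  · rfl

theorem DN_iff_rat (q : ℕ → ℕ) (x : ℝ) :
    DN q x ↔ ∀ r : ℚ, Ces (fun i => ind r (yy q x i)) (clamp r) := by
  refine ⟨fun h r => h r, fun h s => ces_of_sandwich fun ε hε => ?_⟩
  obtain ⟨r₁, h1, h2⟩ := exists_rat_btwn (show s - ε < s by linarith)
  obtain ⟨r₂, h3, h4⟩ := exists_rat_btwn (show s < s + ε by linarith)
  refine ⟨_, _, _, _, h r₁, h r₂, fun i => ind_mono h2.le _, fun i => ind_mono h3.le _, ?_, ?_⟩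
  · have := (clamp_mono (show s ≤ r₁ + ε by linarith)).trans (clamp_add_le _ hε.le)
    linarith
  · exact (clamp_mono h4.le).trans (clamp_add_le _ hε.le)

theorem DN_of_MM {q : ℕ → ℕ} (hq : ∀ n, 2 ≤ q n) (x : ℝ)
    (h : ∀ (r : ℚ) (j : ℕ), Ces (fun i => MM r j (win i q) (win i (digit q x))) (clamp r)) :
    DN q x := by
  refine fun s => ces_of_sandwich fun ε hε => ?_
  obtain ⟨j, hj⟩ := exists_pow_lt_of_lt_one hε (show (1 / 2 : ℝ) < 1 by norm_num)
  obtain ⟨r₁, h1, h2⟩ := exists_rat_btwn (show s - ε < s - (1 / 2) ^ j by linarith)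
  obtain ⟨r₂, h3, h4⟩ := exists_rat_btwn (show s + (1 / 2) ^ j < s + ε by linarith)
  refine ⟨_, _, _, _, h r₁ j, h r₂ j, fun i => MM_le_ind hq x (by linarith) i,
    fun i => ind_le_MM hq x h3.le i, ?_, ?_⟩
  · have := (clamp_mono (show s ≤ r₁ + ε by linarith)).trans (clamp_add_le _ hε.le)
    linarith
  · exact (clamp_mono h4.le).trans (clamp_add_le _ hε.le)

theorem DN.irrational {q : ℕ → ℕ} {x : ℝ} (h : DN q x) : Irrational x := by
  rintro ⟨r, rfl⟩
  have hv : (0 : ℝ) < r.den := by exact_mod_cast r.den_pos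
  have hv1 : (1 : ℝ) ≤ r.den := by exact_mod_cast r.den_pos
  have key : ∀ i, ind (1 / (3 * r.den)) (yy q r i) = ind (2 / (3 * r.den)) (yy q r i) := by
    intro i
    have h1 : yy q r i * r.den =
        ((prodQ q i * r.num - ⌊(prodQ q i : ℝ) * r⌋ * r.den : ℤ) : ℝ) := by
      rw [yy, Int.fract]
      have : (r : ℝ) * r.den = r.num := by exact_mod_cast Rat.mul_den_eq_num r
      push_cast
      rw [← this]
      ring
    unfold ind
    refine if_congr ⟨fun h => h.trans ?_, fun h => ?_⟩ rfl rfl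
    · exact div_lt_div_of_pos_right (by norm_num) (by positivity)
    · rw [lt_div_iff₀ (by positivity)] at h ⊢
      set m := (prodQ q i * r.num - ⌊(prodQ q i : ℝ) * r⌋ * r.den : ℤ)
      have h2 : (m : ℝ) < 1 := by rw [← h1]; linarith
      have h3 : m ≤ 0 := by
        have : m < 1 := by exact_mod_cast h2
        omega
      have h4 : (m : ℝ) ≤ 0 := by exact_mod_cast h3
      nlinarith
  have h1 := h (1 / (3 * r.den))
  have h2 := h (2 / (3 * r.den))
  simp only [key] at h1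
  have h3 := tendsto_nhds_unique h1 h2
  rw [clamp_of_mem (by positivity) (by rw [div_le_one (by positivity)]; linarith),
    clamp_of_mem (by positivity) (by rw [div_le_one (by positivity)]; linarith)] at h3
  have : (1 : ℝ) / (3 * r.den) < 2 / (3 * r.den) :=
    div_lt_div_of_pos_right (by norm_num) (by positivity)
  linarith

/-- The real number with given digits. -/
noncomputable def xOf (q d : ℕ → ℕ) : ℝ := ∑' k, (d (k + 1) : ℝ) / prodQ q (k + 1)

theorem term_le {q d : ℕ → ℕ} (hq : ∀ n, 2 ≤ q n) (hd : ∀ m, d m < q m) (k : ℕ) :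
    (d (k + 1) : ℝ) / prodQ q (k + 1) ≤ 1 / prodQ q k - 1 / prodQ q (k + 1) := by
  have h1 := prodQ_pos hq k
  have h2 := prodQ_pos hq (k + 1)
  have h3 : (d (k + 1) : ℝ) + 1 ≤ q (k + 1) := by exact_mod_cast hd (k + 1)
  have h4 : (1 : ℝ) / prodQ q k = q (k + 1) / prodQ q (k + 1) := by
    rw [div_eq_div_iff h1.ne' h2.ne', prodQ_succ]
    push_cast
    ring
  rw [h4, ← sub_div]
  exact div_le_div_of_nonneg_right (by linarith) h2.le

theorem term_le' {q d : ℕ → ℕ} (hq : ∀ n, 2 ≤ q n) (hd : ∀ m, d m < q m) (k : ℕ) :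
    ‖(d (k + 1) : ℝ) / prodQ q (k + 1)‖ ≤ (1 / 2) ^ k := by
  rw [Real.norm_of_nonneg (by positivity)]
  have h1 := term_le hq hd k
  have h2 : (0 : ℝ) < 1 / prodQ q (k + 1) := one_div_pos.2 (prodQ_pos hq _)
  have h3 : (1 : ℝ) / prodQ q k ≤ (1 / 2) ^ k := by
    rw [one_div_pow]
    apply one_div_le_one_div_of_le (by positivity)
    exact_mod_cast two_pow_le_prodQ hq k
  linarith

theorem xOf_spec {q d : ℕ → ℕ} (hq : ∀ n, 2 ≤ q n) (hd : ∀ m, d m < q m)
    (hz : ∀ n, ∃ m, n ≤ m ∧ d (m + 1) = 0) :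
    xOf q d ∈ Set.Ico (0 : ℝ) 1 ∧ ∀ k, digit q (xOf q d) (k + 1) = d (k + 1) := by
  set a : ℕ → ℝ := fun k => (d (k + 1) : ℝ) / prodQ q (k + 1) with ha
  have hsum : Summable a :=
    Summable.of_norm_bounded summable_geometric_two (term_le' hq hd)
  have ha0 : ∀ k, 0 ≤ a k := fun k => by positivity
  set S : ℕ → ℝ := fun n => ∑ k ∈ range n, a k with hS
  have hlow : ∀ n, S n ≤ xOf q d := fun n => hsum.sum_le_tsum _ fun k _ => ha0 k
  set U : ℕ → ℝ := fun n => S n + 1 / prodQ q n with hU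
  have hUanti : Antitone U := by
    apply antitone_nat_of_succ_le
    intro n
    simp only [hU, hS, sum_range_succ]
    linarith [term_le hq hd n]
  have hup : ∀ n, xOf q d ≤ U n := by
    intro n
    refine le_of_tendsto hsum.hasSum.tendsto_sum_nat ?_
    filter_upwards [eventually_ge_atTop n] with m hm
    have h1 := hUanti hm
    have h2 : (0 : ℝ) < 1 / prodQ q m := one_div_pos.2 (prodQ_pos hq _)
    simp only [hU] at h1 ⊢
    linarith
  have hup' : ∀ n, xOf q d < U n := by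
    intro n
    obtain ⟨m, hm, h0⟩ := hz n
    refine lt_of_le_of_lt (hup (m + 1)) (lt_of_lt_of_le ?_ (hUanti hm))
    simp only [hU, hS, sum_range_succ, ha, h0]
    have : (1 : ℝ) / prodQ q (m + 1) < 1 / prodQ q m := by
      apply one_div_lt_one_div_of_lt (prodQ_pos hq _)
      rw [prodQ_succ]
      push_cast
      have : (2 : ℝ) ≤ q (m + 1) := by exact_mod_cast hq _
      nlinarith [prodQ_pos hq m]
    simp only [Nat.cast_zero, zero_div, add_zero]
    linarith
  obtain ⟨K, hK0, hKs⟩ : ∃ K : ℕ → ℕ, K 0 = 0 ∧ ∀ n, K (n + 1) = q (n + 1) * K n + d (n + 1) :=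
    ⟨fun n => Nat.rec 0 (fun n k => q (n + 1) * k + d (n + 1)) n, rfl, fun _ => rfl⟩
  have hK : ∀ n, (K n : ℝ) = prodQ q n * S n := by
    intro n
    induction n with
    | zero => simp [hK0, hS]
    | succ n ih =>
      have h2 := (prodQ_pos hq (n + 1)).ne'
      simp only [hS, sum_range_succ] at ih ⊢
      rw [hKs, mul_add]
      simp only [ha]
      rw [mul_div_cancel₀ _ h2, prodQ_succ]
      push_cast
      rw [ih]
      simp only [ha]
      ring
  have hfl : ∀ n, ⌊(prodQ q n : ℝ) * xOf q d⌋ = K n := by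
    intro n
    have h0 := prodQ_pos hq n
    rw [Int.floor_eq_iff]
    push_cast
    rw [hK]
    constructor
    · exact mul_le_mul_of_nonneg_left (hlow n) h0.le
    · have := mul_lt_mul_of_pos_left (hup' n) h0
      simp only [hU] at this
      rwa [mul_add, mul_one_div_cancel h0.ne'] at this
  constructor
  · constructor
    · simpa [hS] using hlow 0
    · simpa [hU, hS, prodQ_zero] using hup' 0
  · intro k
    have : (digit q (xOf q d) (k + 1) : ℤ) = d (k + 1) := by
      rw [digit_succ_int, hfl, hfl, hKs]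
      push_cast
      ring
    exact_mod_cast this

theorem continuous_xOf {Z : Type*} [TopologicalSpace Z] {q : ℕ → ℕ} (hq : ∀ n, 2 ≤ q n)
    {d : Z → ℕ → ℕ} (hd : ∀ z m, d z m < q m) (hc : ∀ m, Continuous fun z => d z m) :
    Continuous fun z => xOf q (d z) := by
  refine continuous_tsum (fun k => ?_) summable_geometric_two fun k z => term_le' hq (hd z) k
  exact (continuous_of_discreteTopology.comp (hc (k + 1))).div_const _

section Cont

theorem irrational_yy {q : ℕ → ℕ} (hq : ∀ n, 2 ≤ q n) {x : ℝ} (hx : Irrational x) (i : ℕ) :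
    Irrational (yy q x i) := by
  have h0 : prodQ q i ≠ 0 := by
    have := prodQ_pos hq i
    exact_mod_cast this.ne'
  exact (hx.natCast_mul h0).sub_intCast _

theorem continuousAt_yy {q : ℕ → ℕ} (hq : ∀ n, 2 ≤ q n) {x : ℝ} (hx : Irrational x) (i : ℕ) :
    ContinuousAt (fun z => yy q z i) x := by
  have h0 : prodQ q i ≠ 0 := by
    have := prodQ_pos hq i
    exact_mod_cast this.ne'
  have h1 : ContinuousAt (fun z : ℝ => (prodQ q i : ℝ) * z) x := by fun_prop
  exact ContinuousAt.comp (f := fun z : ℝ => (prodQ q i : ℝ) * z)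
    (continuousAt_fract ((hx.natCast_mul h0).ne_int _)) h1

theorem eventually_digit_eq {q : ℕ → ℕ} (hq : ∀ n, 2 ≤ q n) {x : ℝ} (hx : Irrational x) (n : ℕ) :
    ∀ᶠ z in 𝓝 x, digit q z n = digit q x n := by
  have h0 : q n ≠ 0 := by linarith [hq n]
  have h1 : ContinuousAt (fun z => (q n : ℝ) * yy q z (n - 1)) x :=
    continuousAt_const.mul (continuousAt_yy hq hx _)
  have h2 : Irrational ((q n : ℝ) * yy q x (n - 1)) := (irrational_yy hq hx _).natCast_mul h0
  have h3 : ∀ z, 0 ≤ (q n : ℝ) * yy q z (n - 1) := fun z =>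
    mul_nonneg (Nat.cast_nonneg _) (Int.fract_nonneg _)
  have h4 : (digit q x n : ℝ) < (q n : ℝ) * yy q x (n - 1) :=
    lt_of_le_of_ne (Nat.floor_le (h3 x)) (h2.ne_nat _).symm
  have h5 : (q n : ℝ) * yy q x (n - 1) < digit q x n + 1 := Nat.lt_floor_add_one _
  filter_upwards [h1.eventually (lt_mem_nhds h4), h1.eventually (gt_mem_nhds h5)] with z hz1 hz2
  exact (Nat.floor_eq_iff (h3 z)).2 ⟨hz1.le, hz2⟩

theorem eventually_ind_eq {q : ℕ → ℕ} (hq : ∀ n, 2 ≤ q n) {x : ℝ} (hx : Irrational x) (r : ℚ)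
    (i : ℕ) : ∀ᶠ z in 𝓝 x, ind r (yy q z i) = ind r (yy q x i) := by
  have h1 := continuousAt_yy hq hx i
  rcases lt_or_gt_of_ne ((irrational_yy hq hx i).ne_rat r) with h | h
  · filter_upwards [h1.eventually (gt_mem_nhds h)] with z hz
    rw [ind, ind, if_pos hz, if_pos h]
  · filter_upwards [h1.eventually (lt_mem_nhds h)] with z hz
    rw [ind, ind, if_neg (not_lt.2 hz.le), if_neg (not_lt.2 h.le)]

end Cont

end Pool.Agent.P.MP_ac93c9_an
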