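import Pool.Agent.P.MP_ac93c9_an.Predict
import Pool.Agent.P.MP_ac93c9_an.Assemble

namespace Pool.Agent.P.MP_ac93c9_an

open Filter Topology Finset MeasureTheory

variable {X : Type*}

/-- The bases seen from `y`. -/
def QF (T : X → X) (f : X → ℕ) (L : ℕ) (y : X) : ℕ → ℕ := fun k => f (T^[L + k] y)

/-- The biases seen from `y`. -/
noncomputable def tF [MeasurableSpace X] (μ : Measure X) (T : X → X) (f : X → ℕ) (L : ℕ)
    (γ δ : ℝ) (y : X) : ℕ → ℝ := fun k => γ + δ * ss μ T f (L + 1) (T^[k] y)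

/-- The expected block frequency seen from `y`. -/
noncomputable def UF (T : X → X) (f : X → ℕ) (D : List ℕ) (y : X) : ℝ :=
  ∏ k ∈ range D.length, pr (f (T^[k] y)) 0 (D.getD k 0)

theorem gg_congr (s : ℝ) {Q Q' : ℕ → ℕ} {j : ℕ} (hQ : ∀ k < j + 1, Q k = Q' k) :
    gg s j Q = gg s j Q' := by
  ext e
  rw [gg, gg, pos_congr s (Q' := Q') (e' := e) (fun k hk => hQ k (by omega)) fun _ _ => rfl,
    hQ j (by omega)]

theorem loc_Ex [MeasurableSpace X] {μ : Measure X} {T : X → X} {f : X → ℕ} (L : ℕ) (γ δ : ℝ)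
    {j : ℕ} {F : (ℕ → ℕ) → (ℕ → ℕ) → ℝ}
    (hF : ∀ Q Q' : ℕ → ℕ, (∀ k < j + 1, Q k = Q' k) → F Q = F Q') :
    Loc T f (L + 1 + j) fun y => Ex (QF T f L y) (tF μ T f L γ δ y) j (F (QF T f L y)) := by
  intro y y' h
  have hQ : ∀ k < j + 1, QF T f L y k = QF T f L y' k := fun k hk => h _ (by omega)
  simp only
  rw [hF _ _ hQ]
  refine Ex_congr j (fun k hk => hQ k (by omega)) (fun k hk => ?_) _
  simp only [tF]
  exact congrArg (fun u => γ + δ * u)
    (((loc_ss (μ := μ) (L + 1)).iter k).mono (show L + 1 + 1 + k ≤ L + 1 + j by omega) y y' h)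

theorem loc_UF {T : X → X} {f : X → ℕ} (D : List ℕ) : Loc T f D.length (UF T f D) :=
  fun _ _ h => prod_congr rfl fun k hk => by rw [h k (mem_range.1 hk)]

variable [TopologicalSpace X] [MeasurableSpace X] {μ : Measure X} {T : X → X} {f : X → ℕ}

theorem Sys.UF_bounds (S : Sys μ T f) (D : List ℕ) (y : X) : 0 ≤ UF T f D y ∧ UF T f D y ≤ 1 :=
  ⟨prod_nonneg fun _ _ => pr_nonneg _ (by simp) _,
    prod_le_one (fun _ _ => pr_nonneg _ (by simp) _) fun _ _ => pr_le_one (S.two _) (by simp) _⟩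

variable [OpensMeasurableSpace X] [IsProbabilityMeasure μ]

theorem Sys.abs_tF_le (S : Sys μ T f) (L : ℕ) {γ δ : ℝ} (hγ : 0 ≤ γ) (hδ : 0 ≤ δ) (y : X)
    (k : ℕ) : |tF μ T f L γ δ y k| ≤ γ + δ := by
  refine (abs_add_le _ _).trans ?_
  rw [abs_of_nonneg hγ, abs_mul, abs_of_nonneg hδ]
  have := mul_le_of_le_one_right hδ (S.abs_ss_le (L + 1) (T^[k] y))
  linarith

theorem Sys.bl_test (S : Sys μ T f) (L : ℕ) {γ δ : ℝ} (hγ : 0 ≤ γ) (hδ : 0 ≤ δ)
    (h1 : γ + δ ≤ 1) (κ : Test) :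
    BL T f fun y => Ex (QF T f L y) (tF μ T f L γ δ y) κ.W (κ.F (QF T f L y)) :=
  (loc_Ex L γ δ (j := κ.W) (F := κ.F) fun _ _ h => funext fun _ =>
    κ.F_congr (fun k hk => h k (by omega)) fun _ _ => rfl).bl' fun y =>
      Ex_bounds (fun _ => S.two _) (fun k => (S.abs_tF_le L hγ hδ y k).trans h1) _ (κ.F_bounds _)

theorem Sys.est (S : Sys μ T f) (r₀ : ℚ) {κ₁ : ℝ} (hκ₁0 : 0 ≤ κ₁)
    (hκ₁ : ∀ L, κ₁ ≤ ∫ y, ss μ T f (L + 1) y ^ 2 * hh T f L y ∂μ) (L : ℕ) {γ δ : ℝ}
    (hγ : 0 ≤ γ) (hδ : 0 ≤ δ) (h1 : γ + δ ≤ 1) :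
    Est (fun D => ∫ y, UF T f D y ∂μ) r₀
      (∫ y, (clamp (r₀ * f y) - clamp (r₀ * f y - 1)) / f y ∂μ) κ₁
      (fun κ => ∫ y, Ex (QF T f L y) (tF μ T f L γ δ y) κ.W (κ.F (QF T f L y)) ∂μ) γ δ
      (errF μ T f (L + 1)) := by
  have hQ : ∀ y k, 2 ≤ QF T f L y k := fun y k => S.two _
  have ht : ∀ y k, |tF μ T f L γ δ y k| ≤ 1 := fun y k => (S.abs_tF_le L hγ hδ y k).trans h1
  have herr : 0 ≤ errF μ T f (L + 1) := Real.sqrt_nonneg _
  let Γ : ℝ → ℕ → X → ℝ := fun s k y =>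
    Ex (QF T f L y) (tF μ T f L γ δ y) k (gg s k (QF T f L y))
  have hΓl : ∀ s k, Loc T f (L + 1 + k) (Γ s k) := fun s k =>
    loc_Ex L γ δ fun _ _ h => gg_congr s h
  have hΓb : ∀ s k y, 0 ≤ Γ s k y ∧ Γ s k y ≤ 1 := fun s k y =>
    Ex_bounds (hQ y) (ht y) _ (gg_bounds (hQ y) s k)
  have hΓ : ∀ s k, BL T f (Γ s k) := fun s k => (hΓl s k).bl' (hΓb s k)
  have hΓ0 : ∀ s k, 0 ≤ ∫ y, Γ s k y ∂μ := fun s k => integral_nonneg fun y => (hΓb s k y).1
  have hΓ1 : ∀ s k, ∫ y, Γ s k y ∂μ ≤ 1 := fun s k => by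
    calc ∫ y, Γ s k y ∂μ ≤ ∫ _y, (1 : ℝ) ∂μ :=
          integral_mono (S.integrable (hΓ s k)) (integrable_const _) fun y => (hΓb s k y).2
      _ = 1 := by simp
  have hterm : ∀ s k, |∫ y, tF μ T f L γ δ y k * Γ s k y ∂μ - γ * ∫ y, Γ s k y ∂μ| ≤
      errF μ T f (L + 1) := by
    intro s k
    have e : ∀ y, tF μ T f L γ δ y k * Γ s k y =
        γ * Γ s k y + δ * (ss μ T f (L + 1) (T^[k] y) * Γ s k y) := fun y => by
      simp only [tF]
      ring
    simp only [e]
    rw [integral_add ((S.integrable (hΓ s k)).const_mul _)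
      ((S.integrable (((S.bl_ss _).iter k).mul (hΓ s k))).const_mul _), integral_const_mul,
      integral_const_mul, add_sub_cancel_left, abs_mul, abs_of_nonneg hδ]
    have := S.approx_orth (L + 1) k (hΓl s k) fun y => by
      rw [abs_of_nonneg (hΓb s k y).1]
      exact (hΓb s k y).2
    exact (mul_le_of_le_one_left (abs_nonneg _) (by linarith)).trans this
  have hMM : ∀ (s : ℝ) (j : ℕ),
      ∫ y, Ex (QF T f L y) (tF μ T f L γ δ y) j (MM s j (QF T f L y)) ∂μ =
        clamp s + ∑ k ∈ range j, ∫ y, tF μ T f L γ δ y k * Γ s k y ∂μ := by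
    intro s j
    have hi : ∀ k, Integrable (fun y => tF μ T f L γ δ y k * Γ s k y) μ := fun k =>
      S.integrable (((BL.const γ).add ((BL.const δ).mul ((S.bl_ss _).iter k))).mul (hΓ s k))
    simp only [fun y => Ex_MM (hQ y) (tF μ T f L γ δ y) s j]
    rw [integral_add (integrable_const _) (integrable_finsetSum _ fun k _ => hi k),
      integral_finsetSum _ fun k _ => hi k]
    simp only [integral_const, probReal_univ, smul_eq_mul, one_mul]
  have hblk : ∀ (D : List ℕ) y, Ex (QF T f L y) (tF μ T f L γ δ y) (Test.W (Sum.inr D))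
      (Test.F (Sum.inr D) (QF T f L y)) =
      ∏ k ∈ range D.length, pr (QF T f L y k) (tF μ T f L γ δ y k) (D.getD k 0) :=
    fun D y => Ex_blk _ _ _ _
  have hUF : ∀ D : List ℕ, ∫ y, UF T f D y ∂μ = ∫ y, UF T f D (T^[L] y) ∂μ := fun D =>
    (S.integral_iter (S.measurable (loc_UF D)) L).symm
  have hUF' : ∀ (D : List ℕ) y, UF T f D (T^[L] y) =
      ∏ k ∈ range D.length, pr (QF T f L y k) 0 (D.getD k 0) := fun D y => by
    simp only [UF, QF, ← Function.iterate_add_apply, add_comm L]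
  constructor
  · intro r j
    simp only [Test.W, Test.F]
    rw [hMM, add_sub_cancel_left]
    refine (abs_sum_le_sum_abs _ _).trans ?_
    have := sum_le_card_nsmul (range j) (fun k => |∫ y, tF μ T f L γ δ y k * Γ r k y ∂μ|)
      (γ + errF μ T f (L + 1)) fun k _ => by
        have a1 := hterm r k
        have a2 := mul_nonneg hγ (hΓ0 r k)
        have a3 := mul_le_of_le_one_right hγ (hΓ1 r k)
        rw [abs_le] at a1 ⊢
        constructor <;> linarith [a1.1, a1.2]
    rwa [card_range, nsmul_eq_mul] at this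
  · intro j hj
    simp only [Test.W, Test.F]
    rw [hMM]
    obtain ⟨j, rfl⟩ : ∃ i, j = i + 1 := ⟨j - 1, by omega⟩
    rw [sum_range_succ']
    have a1 := card_nsmul_le_sum (range j)
      (fun k => ∫ y, tF μ T f L γ δ y (k + 1) * Γ r₀ (k + 1) y ∂μ) (-errF μ T f (L + 1))
      fun k _ => by
        have a1 := (abs_le.1 (hterm r₀ (k + 1))).1
        have a2 := mul_nonneg hγ (hΓ0 r₀ (k + 1))
        linarith
    have a2 := (abs_le.1 (hterm r₀ 0)).1
    have a3 : ∫ y, Γ r₀ 0 y ∂μ = ∫ y, (clamp (r₀ * f y) - clamp (r₀ * f y - 1)) / f y ∂μ := by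
      rw [← S.integral_iter (F := fun y => (clamp (r₀ * f y) - clamp (r₀ * f y - 1)) / f y)
        ((measurable_of_countable fun a : ℕ =>
          (clamp (r₀ * a) - clamp (r₀ * a - 1)) / a).comp S.hf.measurable) L]
      simp [Γ, Ex, gg, pos, val, RR, QF]
    rw [card_range, nsmul_eq_mul] at a1
    rw [← a3]
    push_cast
    linarith
  · intro D
    simp only [hblk]
    have hi := S.integrable (S.bl_test L hγ hδ h1 (Sum.inr D))
    simp only [hblk] at hi
    rw [hUF, ← integral_sub hi (S.integrable (((loc_UF D).bl' (S.UF_bounds D)).iter L))]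
    have := norm_integral_le_of_norm_le_const (μ := μ) (C := D.length * (γ + δ))
      (f := fun y => ∏ k ∈ range D.length, pr (QF T f L y k) (tF μ T f L γ δ y k) (D.getD k 0) -
        UF T f D (T^[L] y)) (Eventually.of_forall fun y => by
          rw [hUF', Real.norm_eq_abs]
          exact abs_prod_sub_prod_le _
            (fun k => ⟨pr_nonneg _ (ht y k) _, pr_le_one (hQ y k) (ht y k) _⟩)
            (fun k => ⟨pr_nonneg _ (by simp) _, pr_le_one (hQ y k) (by simp) _⟩)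
            fun k => (abs_pr_sub_le (hQ y k) _ _).trans (S.abs_tF_le L hγ hδ y k))
    simpa using this
  · simp only [hblk]
    rw [hUF]
    simp only [hUF']
    have hpr : ∀ y k t, pr (QF T f L y k) t 0 = (1 + t) * hh T f (L + k) y := fun y k t => by
      have := hQ y k
      rw [pr, if_pos (by omega)]
      simp [hh, QF, div_eq_mul_inv]
    simp only [List.length_cons, List.length_nil, prod_range_succ, prod_range_zero,
      List.getD_cons_zero, List.getD_cons_succ, zero_add, one_mul, hpr, add_zero]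
    let G : X → ℝ := fun y => δ * ((1 + γ + δ * ss μ T f (L + 1) y) *
      (hh T f L y * hh T f (L + 1) y))
    have hGl : Loc T f (L + 1 + 1) G := fun y y' h => by
      simp only [G]
      rw [loc_ss (L + 1) y y' h, loc_hh (L + 1) y y' h,
        (loc_hh L).mono (Nat.le_succ _) y y' h]
    have hGb : ∀ y, |G y| ≤ 1 := fun y => by
      have b1 := S.hh_bounds L y
      have b2 := S.hh_bounds (L + 1) y
      have b3 := ht y 0
      simp only [tF, Function.iterate_zero, id] at b3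
      have b4 : |1 + γ + δ * ss μ T f (L + 1) y| ≤ 2 := by
        rw [abs_le] at b3 ⊢
        constructor <;> linarith [b3.1, b3.2]
      have b5 : hh T f L y * hh T f (L + 1) y ≤ 1 / 2 := by nlinarith [b1.1, b1.2, b2.1, b2.2]
      simp only [G]
      rw [abs_mul, abs_mul, abs_of_nonneg hδ, abs_of_nonneg (mul_nonneg b1.1 b2.1)]
      have b6 := mul_le_mul b4 b5 (mul_nonneg b1.1 b2.1) zero_le_two
      exact mul_le_one₀ (by linarith) (mul_nonneg (abs_nonneg _) (mul_nonneg b1.1 b2.1))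
        (by linarith)
    have e : ∀ y, (1 + tF μ T f L γ δ y 0) * hh T f L y *
        ((1 + tF μ T f L γ δ y 1) * hh T f (L + 1) y) =
        (1 + γ) ^ 2 * (hh T f L y * hh T f (L + 1) y) +
          (1 + γ) * δ * (ss μ T f (L + 1) y ^ 2 * hh T f L y) +
          (1 + γ) * δ * (ss μ T f (L + 1) y * (ee μ T f (L + 1) y * hh T f L y)) +
          ss μ T f (L + 1) (T^[1] y) * G y := fun y => by
      have : hh T f (L + 1) y = ss μ T f (L + 1) y + ee μ T f (L + 1) y := by
        rw [ss]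
        ring
      simp only [tF, G, Function.iterate_zero, id]
      rw [this]
      ring
    simp only [e]
    have i1 := (BL.const ((1 + γ) ^ 2)).mul ((S.bl_hh L).mul (S.bl_hh (L + 1)))
    have i2 := (BL.const ((1 + γ) * δ)).mul ((S.bl_ss (L + 1)).sq.mul (S.bl_hh L))
    have i3 := (BL.const ((1 + γ) * δ)).mul
      ((S.bl_ss (L + 1)).mul ((S.bl_ee (L + 1)).mul (S.bl_hh L)))
    have i4 := ((S.bl_ss (L + 1)).iter 1).mul (hGl.bl hGb)
    rw [integral_add (S.integrable ((i1.add i2).add i3)) (S.integrable i4),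
      integral_add (S.integrable (i1.add i2)) (S.integrable i3),
      integral_add (S.integrable i1) (S.integrable i2), integral_const_mul, integral_const_mul,
      integral_const_mul,
      S.orth ((loc_ee (L + 1)).comp₂ (loc_hh L) (· * ·)) ((S.bl_ee (L + 1)).mul (S.bl_hh L))]
    have c1 := (abs_le.1 (S.approx_orth (L + 1) 1 hGl hGb)).1
    have c2 : 0 ≤ ∫ y, hh T f L y * hh T f (L + 1) y ∂μ :=
      integral_nonneg fun y => mul_nonneg (S.hh_bounds L y).1 (S.hh_bounds (L + 1) y).1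
    have c3 := hκ₁ L
    have c4 : δ * κ₁ ≤ (1 + γ) * δ * ∫ y, ss μ T f (L + 1) y ^ 2 * hh T f L y ∂μ :=
      mul_le_mul (by nlinarith) c3 hκ₁0 (by positivity)
    have c5 : ∫ y, hh T f L y * hh T f (L + 1) y ∂μ ≤
        (1 + γ) ^ 2 * ∫ y, hh T f L y * hh T f (L + 1) y ∂μ :=
      le_mul_of_one_le_left c2 (by nlinarith)
    linarith

theorem Sys.family [μ.IsOpenPosMeasure] (S : Sys μ T f) (h : Unpred μ T f) {x₀ : X}
    (hgen : ∀ g : X → ℝ, Continuous g → (∃ C, ∀ y, |g y| ≤ C) →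
      Tendsto (fun N : ℕ => (∑ n ∈ Icc 1 N, g (T^[n] x₀)) / N) atTop (𝓝 (∫ y, g y ∂μ)))
    {τ : ℝ} (hτ : 0 < τ) (hτ1 : τ ≤ 1) : Family (fun n => f (T^[n] x₀)) τ := by
  obtain ⟨κ₁, hκ₁0, hκ₁⟩ := S.exists_kappa h
  have hces : ∀ {G : X → ℝ}, BL T f G → Ces (fun i => G (T^[i + 1] x₀)) (∫ y, G y ∂μ) := by
    intro G hG
    have h1 := hgen G (S.continuous hG) (by obtain ⟨_, C, -, h⟩ := hG; exact ⟨C, h⟩)
    simp only [sum_Icc_eq_psum fun n => G (T^[n] x₀)] at h1
    exact h1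
  have hUD : ∀ D i, UD (fun n => f (T^[n] x₀)) D i = UF T f D (T^[i + 1] x₀) := fun D i => by
    simp only [UD, UF, win, ← Function.iterate_add_apply, add_comm (i + 1)]
  have hpar : ∀ a b, par τ a + par τ b ≤ τ := fun a b => by
    linarith [par_le hτ a, par_le hτ b]
  set r₀ : ℚ := 1 / (f x₀ : ℚ) with hr₀
  refine ⟨fun D => ∫ y, UF T f D y ∂μ, r₀,
    ∫ y, (clamp (r₀ * f y) - clamp (r₀ * f y - 1)) / f y ∂μ, κ₁, fun L => errF μ T f (L + 1),
    fun θ m => par τ θ.2.1 + par τ θ.2.2 * ss μ T f (θ.1 + 1) (T^[m - θ.1] x₀),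
    fun θ κ => ∫ y, Ex (QF T f θ.1 y) (tF μ T f θ.1 (par τ θ.2.1) (par τ θ.2.2) y) κ.W
      (κ.F (QF T f θ.1 y)) ∂μ, ?_, ?_, ?_, hκ₁0,
    S.tendsto_errF.comp (tendsto_add_atTop_nat 1), ?_, ?_, ?_⟩
  · intro D
    have := hces ((loc_UF D).bl' (S.UF_bounds D))
    simpa only [← hUD] using this
  · intro D hD i
    rw [hUD]
    by_contra hne
    have hb := (loc_UF D).bl' (S.UF_bounds D)
    have := integral_pos_of_integrable_nonneg_nonzero (μ := μ) (S.continuous hb) (S.integrable hb)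
      (fun y => (S.UF_bounds D y).1) hne
    linarith
  · have hl : Loc T f 1 fun y => (clamp (r₀ * f y) - clamp (r₀ * f y - 1)) / f y :=
      (loc_sym (T := T) (f := f) Nat.one_pos).comp fun a : ℕ =>
        (clamp (r₀ * a) - clamp (r₀ * a - 1)) / a
    have hbd : ∀ y, 0 ≤ (clamp (r₀ * f y) - clamp (r₀ * f y - 1)) / f y ∧
        (clamp (r₀ * f y) - clamp (r₀ * f y - 1)) / f y ≤ 1 := fun y => by
      simpa [gg, pos, val, RR] using
        gg_bounds (Q := fun _ => f y) (fun _ => S.two y) r₀ 0 fun _ => 0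
    have hb := hl.bl' hbd
    refine integral_pos_of_integrable_nonneg_nonzero (x := x₀) (S.continuous hb) (S.integrable hb)
      (fun y => (hbd y).1) ?_
    have h2 : (0 : ℝ) < f x₀ := by
      have := S.two x₀
      exact_mod_cast (by omega : 0 < f x₀)
    have h3 : (r₀ : ℝ) * f x₀ = 1 := by
      rw [hr₀]
      push_cast
      field_simp
    rw [h3, sub_self, clamp_of_one_le le_rfl, clamp_of_nonpos le_rfl]
    positivity
  · intro θ m
    exact (S.abs_tF_le θ.1 (par_nonneg hτ _) (par_nonneg hτ _) x₀ (m - θ.1)).trans (hpar _ _)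
  · rintro ⟨L, a, b⟩ κ
    have hb := S.bl_test L (par_nonneg hτ a) (par_nonneg hτ b) ((hpar a b).trans hτ1) κ
    rw [← ces_shift (C := 1) (fun i => ?_) L]
    · convert hces hb using 2 with i
      have e1 : win (i + L) (fun n => f (T^[n] x₀)) = QF T f L (T^[i + 1] x₀) := by
        ext k
        simp only [win, QF, ← Function.iterate_add_apply]
        rw [show i + L + 1 + k = L + k + (i + 1) by ring]
      have e2 : win (i + L) (fun m => par τ a + par τ b * ss μ T f (L + 1) (T^[m - L] x₀)) =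
          tF μ T f L (par τ a) (par τ b) (T^[i + 1] x₀) := by
        ext k
        simp only [win, tF, ← Function.iterate_add_apply]
        rw [show i + L + 1 + k - L = k + (i + 1) by omega]
      rw [e1, e2]
    · have := Ex_bounds (Q := win i fun n => f (T^[n] x₀))
        (t := win i fun m => par τ a + par τ b * ss μ T f (L + 1) (T^[m - L] x₀))
        (fun _ => S.two _) (fun k => (S.abs_tF_le L (par_nonneg hτ a) (par_nonneg hτ b) x₀
          (i + 1 + k - L)).trans ((hpar a b).trans hτ1)) κ.W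
        (κ.F_bounds (win i fun n => f (T^[n] x₀)))
      rw [abs_of_nonneg this.1]
      exact this.2
  · intro L a b
    exact S.est r₀ hκ₁0.le hκ₁ L (par_nonneg hτ a) (par_nonneg hτ b) ((hpar a b).trans hτ1)

end Pool.Agent.P.MP_ac93c9_an
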