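import Pool.Agent.P.MP_ac93c9_an.Defs

namespace Pool.Agent.P.MP_ac93c9_an

open Filter Topology Finset MeasureTheory Real

variable {X : Type*} [MeasurableSpace X] {μ : Measure X} [IsProbabilityMeasure μ]

theorem gibbs {𝒲 𝒞 : Type*} [Fintype 𝒲] [MeasurableSpace 𝒞] [DiscreteMeasurableSpace 𝒞]
    (W : X → 𝒲) (hW : ∀ w, MeasurableSet (W ⁻¹' {w})) (C : X → 𝒞)
    (hC : ∀ x x', C x = C x' → W x = W x') (ν : Measure 𝒞) [IsProbabilityMeasure ν]
    {ψ : X → ℝ} (hψ : Integrable ψ μ) (h : ∀ᵐ x ∂μ, exp (-ψ x) ≤ ν.real {C x}) :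
    ∑ w, negMulLog (μ.real (W ⁻¹' {w})) ≤ ∫ x, ψ x ∂μ := by
  have key : ∀ w, negMulLog (μ.real (W ⁻¹' {w})) ≤
      ∫ x in W ⁻¹' {w}, ψ x ∂μ + ν.real (C '' (W ⁻¹' {w})) - μ.real (W ⁻¹' {w}) := by
    intro w
    set p := μ.real (W ⁻¹' {w}) with hp
    set R := ν.real (C '' (W ⁻¹' {w})) with hR
    have hp0 : 0 ≤ p := measureReal_nonneg
    rcases hp0.eq_or_lt with h0 | h0
    · rw [setIntegral_measure_zero _ ((measureReal_eq_zero_iff (measure_ne_top _ _)).1 h0.symm),
        ← h0]
      have hR0 : 0 ≤ R := measureReal_nonneg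
      simp only [negMulLog_zero]
      linarith
    have h1 : ∫ _x in W ⁻¹' {w}, (-log p - R / p + 1) ∂μ ≤ ∫ x in W ⁻¹' {w}, ψ x ∂μ := by
      refine integral_mono_ae (integrable_const _) hψ.integrableOn ?_
      filter_upwards [ae_restrict_of_ae h, ae_restrict_mem (hW w)] with x hx hxw
      have h2 : ν.real {C x} ≤ R :=
        measureReal_mono (Set.singleton_subset_iff.2 ⟨x, hxw, rfl⟩) (measure_ne_top _ _)
      have h3 := log_le_sub_one_of_pos (div_pos (exp_pos (-ψ x)) h0)
      rw [log_div (exp_pos _).ne' h0.ne', log_exp] at h3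
      have h4 : exp (-ψ x) / p ≤ R / p := div_le_div_of_nonneg_right (hx.trans h2) h0.le
      linarith
    simp only [integral_const, MeasurableSet.univ, measureReal_restrict_apply, Set.univ_inter,
      smul_eq_mul, ← hp] at h1
    have h5 : p * (-log p - R / p + 1) = -p * log p - R + p := by field_simp
    rw [negMulLog]
    linarith
  refine (sum_le_sum fun w _ => key w).trans ?_
  rw [sum_sub_distrib, sum_add_distrib]
  have h1 : ∑ w, ∫ x in W ⁻¹' {w}, ψ x ∂μ = ∫ x, ψ x ∂μ := by
    have := hasSum_integral_iUnion (μ := μ) (f := ψ) (s := fun w => W ⁻¹' {w}) hW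
      (fun w w' hw => Set.disjoint_left.2 fun y h1 h2 => hw (h1.symm.trans h2)) hψ.integrableOn
    have h2 : (⋃ w, W ⁻¹' {w}) = Set.univ := by
      ext y
      simp
    rw [h2, Measure.restrict_univ] at this
    exact (hasSum_fintype _).unique this
  have h2 : ∑ w, μ.real (W ⁻¹' {w}) = 1 := by
    rw [sum_measureReal_preimage_singleton _ (fun w _ => hW w) (fun _ _ => measure_ne_top _ _)]
    simp
  have h3 : ∑ w, ν.real (C '' (W ⁻¹' {w})) ≤ 1 := by
    refine (sum_measureReal_le_measureReal_univ (fun w _ => MeasurableSet.of_discrete) ?_).trans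
      (by simp)
    intro w _ w' _ hw
    refine Set.disjoint_left.2 ?_
    rintro _ ⟨x, hx, rfl⟩ ⟨x', hx', e⟩
    exact hw (hx.symm.trans ((hC x' x e).symm.trans hx'))
  linarith

/-- The information function of a countable labelling. -/
noncomputable def info (μ : Measure X) (h : X → ℕ) (a : ℕ) : ℝ := -log (μ.real (h ⁻¹' {a}))

theorem info_nonneg (h : X → ℕ) (a : ℕ) : 0 ≤ info μ h a :=
  neg_nonneg.2 (log_nonpos measureReal_nonneg measureReal_le_one)

theorem integrable_info {h : X → ℕ} (hm : Measurable h)
    (hs : Summable fun a => negMulLog (μ.real (h ⁻¹' {a}))) :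
    Integrable (fun x => info μ h (h x)) μ := by
  have hms : ∀ a, MeasurableSet (h ⁻¹' {a}) := fun a => hm (measurableSet_singleton a)
  have := integrableOn_iUnion_of_summable_integral_norm (μ := μ) (f := fun x => info μ h (h x))
    (s := fun a => h ⁻¹' {a}) (fun a => by
      refine (integrableOn_const (C := info μ h a) (measure_ne_top _ _)).congr_fun ?_ (hms a)
      intro x hx
      simp only [show h x = a from hx]) (by
      convert hs using 2 with a
      rw [setIntegral_congr_fun (hms a) (g := fun _ => info μ h a)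
        (fun x hx => by simp only [show h x = a from hx, Real.norm_of_nonneg (info_nonneg h a)])]
      simp [info, negMulLog])
  have h2 : (⋃ a, h ⁻¹' {a}) = Set.univ := by
    ext y
    simp
  rwa [h2, integrableOn_univ] at this

theorem ae_pos (h : X → ℕ) : ∀ᵐ x ∂μ, 0 < μ.real (h ⁻¹' {h x}) := by
  have : ∀ᵐ x ∂μ, ∀ a, μ (h ⁻¹' {a}) = 0 → x ∉ h ⁻¹' {a} := by
    rw [ae_all_iff]
    intro a
    by_cases h0 : μ (h ⁻¹' {a}) = 0
    · filter_upwards [measure_eq_zero_iff_ae_notMem.1 h0] with x hx _ using hx
    · exact Eventually.of_forall fun x h1 => absurd h1 h0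
  filter_upwards [this] with x hx
  refine lt_of_le_of_ne measureReal_nonneg fun h0 => hx (h x) ?_ rfl
  exact (measureReal_eq_zero_iff (measure_ne_top _ _)).1 h0.symm

/-- The reference measure for coding a symbol or the absence of a prediction error. -/
noncomputable def refM (μ : Measure X) (h : X → ℕ) (ε : ℝ) : Measure ℕ :=
  ENNReal.ofReal (1 - ε) • Measure.dirac 0 + ENNReal.ofReal ε • μ.map fun x => h x + 1

theorem refM_prob {h : X → ℕ} (hm : Measurable h) {ε : ℝ} (h0 : 0 < ε) (h1 : ε < 1) :
    IsProbabilityMeasure (refM μ h ε) := by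
  have := Measure.isProbabilityMeasure_map (μ := μ) (f := fun x => h x + 1)
    (hm.add_const 1).aemeasurable
  constructor
  simp only [refM, Measure.coe_add, Measure.coe_smul, Pi.add_apply, Pi.smul_apply, measure_univ,
    smul_eq_mul, mul_one]
  rw [← ENNReal.ofReal_add (by linarith) h0.le]
  simp

open scoped Classical in
/-- The cost of coding the symbol `a`, given whether it was correctly predicted. -/
noncomputable def cost (μ : Measure X) (h : X → ℕ) (ε : ℝ) (b : Prop) (a : ℕ) : ℝ :=
  -log (1 - ε) + if b then 0 else -log ε + info μ h a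

theorem exp_cost_le {h : X → ℕ} (hm : Measurable h) {ε : ℝ} (h0 : 0 < ε) (h1 : ε < 1)
    (b : Prop) [Decidable b] {a : ℕ} (ha : 0 < μ.real (h ⁻¹' {a})) :
    exp (-cost μ h ε b a) ≤ (refM μ h ε).real {if b then 0 else a + 1} := by
  have := refM_prob (μ := μ) hm h0 h1
  rw [cost, measureReal_def]
  split_ifs with hb
  · rw [add_zero, neg_neg, exp_log (by linarith)]
    refine (ENNReal.ofReal_le_iff_le_toReal (measure_ne_top _ _)).1 ?_
    simp [refM]
  · rw [info, neg_add, neg_add, neg_neg, neg_neg, neg_neg, exp_add, exp_add, exp_log (by linarith),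
      exp_log h0, exp_log ha]
    refine (mul_le_of_le_one_left (by positivity) (by linarith)).trans ?_
    refine (ENNReal.ofReal_le_iff_le_toReal (measure_ne_top _ _)).1 ?_
    simp only [refM, Measure.coe_add, Measure.coe_smul, Pi.add_apply, Pi.smul_apply, smul_eq_mul]
    refine le_add_left ?_
    rw [ENNReal.ofReal_mul h0.le, ofReal_measureReal, Measure.map_apply (hm.add_const 1)
      (measurableSet_singleton _)]
    refine le_of_eq ?_
    congr 2
    ext x
    simp

open scoped Classical in
theorem integrable_cost {h : X → ℕ} (hm : Measurable h)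
    (hs : Summable fun a => negMulLog (μ.real (h ⁻¹' {a}))) (ε : ℝ) {R : X → X}
    (hR : MeasurePreserving R μ μ) {b : X → Prop} (hb : MeasurableSet {x | b x}) :
    Integrable (fun x => cost μ h ε (b x) (h (R x))) μ := by
  have h1 : Integrable (fun x => -log ε + info μ h (h (R x))) μ :=
    (integrable_const _).add (hR.integrable_comp_of_integrable (integrable_info hm hs))
  have h2 := (integrable_const (-log (1 - ε))).add (h1.indicator hb.compl)
  refine h2.congr (Eventually.of_forall fun x => ?_)
  by_cases hx : b x <;> simp [cost, hx]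

open scoped Classical in
theorem exists_cost_le {h : X → ℕ} (hm : Measurable h)
    (hs : Summable fun a => negMulLog (μ.real (h ⁻¹' {a}))) {η : ℝ} (hη : 0 < η) :
    ∃ ε δ : ℝ, 0 < ε ∧ ε < 1 ∧ 0 < δ ∧ ∀ R : X → X, MeasurePreserving R μ μ → ∀ b : X → Prop,
      MeasurableSet {x | b x} → μ.real {x | ¬ b x} ≤ δ →
      ∫ x, cost μ h ε (b x) (h (R x)) ∂μ ≤ η := by
  set ε : ℝ := 1 - exp (-(η / 3)) with hε
  have hε0 : 0 < ε := by
    have : exp (-(η / 3)) < 1 := exp_lt_one_iff.2 (by linarith)
    linarith
  have hε1 : ε < 1 := by linarith [exp_pos (-(η / 3))]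
  have hlog : -log (1 - ε) = η / 3 := by simp [hε]
  set J : X → ℝ := fun x => -log ε + info μ h (h x) with hJ
  have hJi : Integrable J μ := (integrable_const _).add (integrable_info hm hs)
  have hJm : Measurable J :=
    (measurable_of_countable fun a : ℕ => -log ε + info μ h a).comp hm
  have hlim := tendsto_integral_of_dominated_convergence (μ := μ)
    (F := fun (n : ℕ) x => max (J x - n) 0) (f := fun _ => 0) (fun x => |J x|)
    (fun n => ((hJm.sub_const _).max measurable_const).aestronglyMeasurable) hJi.abs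
    (fun n => Eventually.of_forall fun x => by
      rw [Real.norm_of_nonneg (le_max_right _ _)]
      exact max_le (by linarith [le_abs_self (J x), show (0 : ℝ) ≤ n from Nat.cast_nonneg n])
        (abs_nonneg _))
    (Eventually.of_forall fun x => by
      refine tendsto_const_nhds.congr' ?_
      filter_upwards [tendsto_natCast_atTop_atTop.eventually_ge_atTop (J x)] with n hn
      rw [max_eq_right (by linarith)])
  rw [integral_zero] at hlim
  obtain ⟨n, hn, hn1⟩ := ((hlim.eventually (gt_mem_nhds (show 0 < η / 3 by linarith))).and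
    (eventually_gt_atTop 0)).exists
  have hn0 : (0 : ℝ) < n := by exact_mod_cast hn1
  refine ⟨ε, η / 3 / n, hε0, hε1, by positivity, fun R hR b hb hδ => ?_⟩
  have hmax : Integrable (fun x => max (J x - n) 0) μ := (hJi.sub (integrable_const _)).pos_part
  have hind : Integrable (Set.indicator {x | ¬ b x} (1 : X → ℝ)) μ :=
    (integrable_const _).indicator hb.compl
  have h1 : ∫ x, cost μ h ε (b x) (h (R x)) ∂μ ≤
      ∫ x, (η / 3 + n * Set.indicator {x | ¬ b x} 1 x + max (J (R x) - n) 0) ∂μ := by
    refine integral_mono (integrable_cost hm hs ε hR hb)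
      (((integrable_const _).add (hind.const_mul _)).add
        (hR.integrable_comp_of_integrable hmax)) fun x => ?_
    simp only [cost, hlog]
    by_cases hx : b x
    · simp [hx]
    · simp only [hx, ↓reduceIte, Set.indicator_of_mem (show x ∈ {x | ¬ b x} from hx),
        Pi.one_apply, mul_one]
      have := le_max_left (J (R x) - n) 0
      simp only [hJ] at this ⊢
      linarith
  refine h1.trans ?_
  have h2 : ∫ x, max (J (R x) - n) 0 ∂μ = ∫ x, max (J x - n) 0 ∂μ := by
    rw [← integral_map (f := fun x => max (J x - n) 0) hR.measurable.aemeasurable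
      ((hJm.sub_const _).max measurable_const).aestronglyMeasurable, hR.map_eq]
  have i1 : Integrable (fun x => η / 3 + n * Set.indicator {x | ¬ b x} (1 : X → ℝ) x) μ :=
    (integrable_const _).add (hind.const_mul _)
  have i2 : Integrable (fun x => max (J (R x) - n) 0) μ := hR.integrable_comp_of_integrable hmax
  have hbc : MeasurableSet {x | ¬ b x} := hb.compl
  rw [integral_add i1 i2, integral_add (integrable_const _) (hind.const_mul _),
    integral_const_mul, integral_indicator_one hbc, h2]
  simp only [integral_const, probReal_univ, smul_eq_mul, one_mul]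
  have h3 : n * μ.real {x | ¬ b x} ≤ η / 3 := by
    rw [le_div_iff₀' hn0] at hδ
    exact hδ
  linarith

end Pool.Agent.P.MP_ac93c9_an
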