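import Pool.Agent.P.MP_ac93c9_an.Defs

namespace Pool.Agent.P.MP_ac93c9_an

open Filter Topology Finset MeasureTheory

variable {X : Type*}

/-- Functions determined by the first `K` symbols. -/
def Loc (T : X → X) (f : X → ℕ) (K : ℕ) {α : Type*} (F : X → α) : Prop :=
  ∀ y y', (∀ i < K, f (T^[i] y) = f (T^[i] y')) → F y = F y'

/-- Bounded functions determined by finitely many symbols. -/
def BL (T : X → X) (f : X → ℕ) (F : X → ℝ) : Prop :=
  ∃ K C, Loc T f K F ∧ ∀ y, |F y| ≤ C

/-- The cylinder of length `K` around `y`. -/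
def cyl (T : X → X) (f : X → ℕ) (K : ℕ) (y : X) : Set X :=
  {y' | ∀ i < K, f (T^[i] y') = f (T^[i] y)}

section
variable {T : X → X} {f : X → ℕ}

theorem Loc.mono {K K' : ℕ} {α : Type*} {F : X → α} (h : Loc T f K F) (hK : K ≤ K') :
    Loc T f K' F := fun y y' h' => h y y' fun i hi => h' i (by omega)

theorem Loc.iter {K : ℕ} {α : Type*} {F : X → α} (h : Loc T f K F) (k : ℕ) :
    Loc T f (K + k) fun y => F (T^[k] y) := fun y y' h' => h _ _ fun i hi => by
  rw [← Function.iterate_add_apply, ← Function.iterate_add_apply]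
  exact h' _ (by omega)

theorem loc_sym {K i : ℕ} (h : i < K) : Loc T f K fun y => f (T^[i] y) := fun _ _ h' => h' i h

theorem Loc.comp {K : ℕ} {α β : Type*} {F : X → α} (h : Loc T f K F) (g : α → β) :
    Loc T f K fun y => g (F y) := fun y y' h' => by simp only [h y y' h']

theorem Loc.comp₂ {K : ℕ} {α β γ : Type*} {F : X → α} {G : X → β} (h : Loc T f K F)
    (h2 : Loc T f K G) (g : α → β → γ) :
    Loc T f K fun y => g (F y) (G y) := fun y y' h' => by simp only [h y y' h', h2 y y' h']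

theorem loc_cyl (K : ℕ) : Loc T f K (cyl T f K) := fun y y' h => by
  ext z
  exact forall_congr' fun i => forall_congr' fun hi => by rw [h i hi]

theorem mem_cyl_self (K : ℕ) (y : X) : y ∈ cyl T f K y := fun _ _ => rfl

theorem BL.const (c : ℝ) : BL T f fun _ => c := ⟨0, |c|, fun _ _ _ => rfl, fun _ => le_rfl⟩

theorem BL.add {F G : X → ℝ} (hF : BL T f F) (hG : BL T f G) : BL T f fun y => F y + G y := by
  obtain ⟨K, C, h1, h2⟩ := hF
  obtain ⟨K', C', h1', h2'⟩ := hG
  exact ⟨max K K', C + C', (h1.mono (le_max_left _ _)).comp₂ (h1'.mono (le_max_right _ _)) (· + ·),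
    fun y => (abs_add_le _ _).trans (add_le_add (h2 y) (h2' y))⟩

theorem BL.mul {F G : X → ℝ} (hF : BL T f F) (hG : BL T f G) : BL T f fun y => F y * G y := by
  obtain ⟨K, C, h1, h2⟩ := hF
  obtain ⟨K', C', h1', h2'⟩ := hG
  refine ⟨max K K', C * C',
    (h1.mono (le_max_left _ _)).comp₂ (h1'.mono (le_max_right _ _)) (· * ·), fun y => ?_⟩
  rw [abs_mul]
  exact mul_le_mul (h2 y) (h2' y) (abs_nonneg _) ((abs_nonneg _).trans (h2 y))

theorem BL.sub {F G : X → ℝ} (hF : BL T f F) (hG : BL T f G) : BL T f fun y => F y - G y := by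
  have := hF.add ((BL.const (-1)).mul hG)
  simpa [sub_eq_add_neg] using this

theorem BL.sq {F : X → ℝ} (hF : BL T f F) : BL T f fun y => F y ^ 2 := by
  simpa [pow_two] using hF.mul hF

theorem BL.abs {F : X → ℝ} (hF : BL T f F) : BL T f fun y => |F y| := by
  obtain ⟨K, C, h1, h2⟩ := hF
  exact ⟨K, C, h1.comp _, fun y => by simpa using h2 y⟩

theorem BL.iter {F : X → ℝ} (hF : BL T f F) (k : ℕ) : BL T f fun y => F (T^[k] y) := by
  obtain ⟨K, C, h1, h2⟩ := hF
  exact ⟨K + k, C, h1.iter k, fun y => h2 _⟩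

theorem Loc.bl {K : ℕ} {F : X → ℝ} (h : Loc T f K F) (hb : ∀ y, |F y| ≤ 1) : BL T f F :=
  ⟨K, 1, h, hb⟩

theorem Loc.bl' {K : ℕ} {F : X → ℝ} (h : Loc T f K F) (hb : ∀ y, 0 ≤ F y ∧ F y ≤ 1) : BL T f F :=
  ⟨K, 1, h, fun y => by rw [abs_of_nonneg (hb y).1]; exact (hb y).2⟩

end

/-- The standing assumptions on the system. -/
structure Sys [TopologicalSpace X] [MeasurableSpace X] (μ : Measure X) (T : X → X) (f : X → ℕ) :
    Prop where
  hT : Continuous T
  hf : Continuous f
  mp : MeasurePreserving T μ μ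
  two : ∀ y, 2 ≤ f y

variable [TopologicalSpace X] [MeasurableSpace X] {μ : Measure X} {T : X → X} {f : X → ℕ}

theorem Sys.isOpen_cyl (S : Sys μ T f) (K : ℕ) (y : X) : IsOpen (cyl T f K y) := by
  have : cyl T f K y = ⋂ i ∈ range K, (fun y' => f (T^[i] y')) ⁻¹' {f (T^[i] y)} := by
    ext z
    simp [cyl]
  rw [this]
  exact isOpen_biInter_finset fun i _ =>
    (isOpen_discrete _).preimage (S.hf.comp (S.hT.iterate i))

theorem Sys.isLocallyConstant (S : Sys μ T f) {K : ℕ} {α : Type*} {F : X → α} (h : Loc T f K F) :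
    IsLocallyConstant F := by
  rw [IsLocallyConstant.iff_eventually_eq]
  intro y
  filter_upwards [(S.isOpen_cyl K y).mem_nhds (mem_cyl_self K y)] with z hz using h z y hz

theorem Sys.continuous (S : Sys μ T f) {F : X → ℝ} (h : BL T f F) : Continuous F := by
  obtain ⟨K, C, h1, -⟩ := h
  exact (S.isLocallyConstant h1).continuous

variable [OpensMeasurableSpace X]

theorem Sys.measurable (S : Sys μ T f) {K : ℕ} {α : Type*} [MeasurableSpace α] {F : X → α}
    (h : Loc T f K F) : Measurable F := fun s _ => (S.isLocallyConstant h s).measurableSet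

theorem Sys.measurableSet (S : Sys μ T f) {K : ℕ} {p : X → Prop} (h : Loc T f K p) :
    MeasurableSet {y | p y} := by
  have := (S.isLocallyConstant h {True}).measurableSet
  convert this using 1
  ext y
  simp

theorem Sys.integral_iter (S : Sys μ T f) {F : X → ℝ} (h : Measurable F) (k : ℕ) :
    ∫ y, F (T^[k] y) ∂μ = ∫ y, F y ∂μ := by
  have h1 := S.mp.iterate k
  rw [← integral_map h1.measurable.aemeasurable h.aestronglyMeasurable, h1.map_eq]

variable [IsProbabilityMeasure μ]

theorem Sys.integrable (S : Sys μ T f) {F : X → ℝ} (h : BL T f F) : Integrable F μ := by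
  have hc := S.continuous h
  obtain ⟨K, C, -, h2⟩ := h
  exact Integrable.of_bound hc.measurable.aestronglyMeasurable C (Eventually.of_forall h2)

theorem Sys.exists_tail (S : Sys μ T f) {ε : ℝ} (hε : 0 < ε) :
    ∃ K : ℕ, 2 ≤ K ∧ ∀ L, μ.real {y | K < f (T^[L] y)} ≤ ε := by
  have hm : ∀ K : ℕ, MeasurableSet {y | K < f y} := fun K =>
    S.hf.measurable (MeasurableSet.of_discrete (s := {a | K < a}))
  have h1 := tendsto_measure_iInter_atTop (μ := μ) (s := fun K : ℕ => {y | K < f y})
    (fun K => (hm K).nullMeasurableSet) (fun a b hab y hy => lt_of_le_of_lt hab hy)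
    ⟨0, measure_ne_top _ _⟩
  have h2 : (⋂ K : ℕ, {y | K < f y}) = ∅ := by
    ext y
    simp only [Set.mem_iInter, Set.mem_setOf_eq, Set.mem_empty_iff_false, iff_false]
    exact fun h => lt_irrefl _ (h (f y))
  rw [h2, measure_empty] at h1
  have h3 := (ENNReal.tendsto_toReal ENNReal.zero_ne_top).comp h1
  obtain ⟨K, hK1, hK2⟩ := ((h3.eventually (gt_mem_nhds (by simpa using hε))).and
    (eventually_ge_atTop 2)).exists
  refine ⟨K, hK2, fun L => ?_⟩
  have := (S.mp.iterate L).measureReal_preimage (hm K).nullMeasurableSet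
  exact this.le.trans hK1.le

end Pool.Agent.P.MP_ac93c9_an
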