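import Pool.Agent.P.MP_ac93c9_an.Ces

namespace Pool.Agent.P.MP_ac93c9_an

open Filter Topology Finset MeasureTheory

theorem tendsto_avg_of_sq {z : ℕ → ℝ} (hz : ∀ i, |z i| ≤ 1)
    (h : Tendsto (fun n => avg z (n * n)) atTop (𝓝 0)) : Tendsto (avg z) atTop (𝓝 0) := by
  have hs : Tendsto Nat.sqrt atTop atTop := by
    rw [tendsto_atTop]
    intro b
    filter_upwards [eventually_ge_atTop (b * b)] with N hN
    exact Nat.le_sqrt.2 hN
  have h1 : Tendsto (fun n : ℕ => |avg z (n * n)| + 2 / (n : ℝ)) atTop (𝓝 0) := by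
    have := (tendsto_zero_iff_abs_tendsto_zero _ |>.1 h).add (tendsto_const_div_atTop_nhds_zero_nat (2 : ℝ))
    simpa using this
  rw [tendsto_zero_iff_abs_tendsto_zero]
  refine squeeze_zero' (Eventually.of_forall fun _ => abs_nonneg _) ?_ (h1.comp hs)
  filter_upwards [eventually_ge_atTop 1] with N hN
  simp only [Function.comp]
  set n := Nat.sqrt N with hn
  have hn1 : 1 ≤ n := Nat.le_sqrt.2 (by omega)
  have h2 : n * n ≤ N := Nat.sqrt_le N
  have h3 : N ≤ n * n + n + n := Nat.sqrt_le_add N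
  have hnpos : (0 : ℝ) < n := by exact_mod_cast hn1
  have h2' : (n : ℝ) * n ≤ N := by exact_mod_cast h2
  have h3' : (N : ℝ) ≤ n * n + n + n := by exact_mod_cast h3
  have h4 : |psum z N - psum z (n * n)| ≤ 2 * n := by
    rw [psum_sub_psum z h2]
    refine (abs_sum_le_sum_abs _ _).trans ?_
    have := sum_le_card_nsmul (Ico (n * n) N) (fun i => |z i|) 1 (fun i _ => hz i)
    rw [Nat.card_Ico, nsmul_eq_mul, mul_one, Nat.cast_sub h2] at this
    push_cast at this
    linarith
  have h5 : |psum z N| ≤ |psum z (n * n)| + 2 * n := by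
    have := abs_add_le (psum z N - psum z (n * n)) (psum z (n * n))
    rw [sub_add_cancel] at this
    linarith
  have hnn : (0 : ℝ) < n * n := by positivity
  rw [avg, avg, abs_div, abs_div, Nat.abs_cast, Nat.abs_cast]
  push_cast
  calc |psum z N| / N ≤ (|psum z (n * n)| + 2 * n) / (n * n) :=
        div_le_div₀ (by positivity) h5 hnn h2'
    _ = |psum z (n * n)| / (n * n) + 2 / n := by field_simp

theorem slln {Ω : Type*} [MeasurableSpace Ω] (P : Measure Ω) [IsProbabilityMeasure P]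
    (Z : ℕ → Ω → ℝ) (hm : ∀ i, Measurable (Z i)) (hb : ∀ i ω, |Z i ω| ≤ 1) (W : ℕ)
    (h : ∀ i k, i + W ≤ k → ∫ ω, Z i ω * Z k ω ∂P = 0) :
    ∀ᵐ ω ∂P, Tendsto (avg fun i => Z i ω) atTop (𝓝 0) := by
  have hb2 : ∀ i k ω, |Z i ω * Z k ω| ≤ 1 := fun i k ω => by
    rw [abs_mul]
    exact mul_le_one₀ (hb i ω) (abs_nonneg _) (hb k ω)
  have hint : ∀ i k, Integrable (fun ω => Z i ω * Z k ω) P := fun i k =>
    Integrable.of_bound ((hm i).mul (hm k)).aestronglyMeasurable 1
      (Eventually.of_forall fun ω => hb2 i k ω)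
  have hsq : ∀ N ω, (psum (fun i => Z i ω) N) ^ 2 =
      ∑ i ∈ range N, ∑ k ∈ range N, Z i ω * Z k ω := fun N ω => by
    rw [psum, sq, sum_mul_sum]
  have hint2 : ∀ N, Integrable (fun ω => (psum (fun i => Z i ω) N) ^ 2) P := fun N => by
    simp only [hsq]
    exact integrable_finsetSum _ fun i _ => integrable_finsetSum _ fun k _ => hint i k
  have hE : ∀ N : ℕ, ∫ ω, (psum (fun i => Z i ω) N) ^ 2 ∂P ≤ N * (2 * W) := by
    intro N
    simp only [hsq]
    rw [integral_finsetSum _ fun i _ => integrable_finsetSum _ fun k _ => hint i k]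
    have : ∀ i ∈ range N, ∫ ω, ∑ k ∈ range N, Z i ω * Z k ω ∂P ≤ 2 * W := by
      intro i _
      rw [integral_finsetSum _ fun k _ => hint i k]
      have h1 : ∀ k ∈ range N, ∫ ω, Z i ω * Z k ω ∂P ≤
          if k ∈ Ico (i - W) (i + W) then (1 : ℝ) else 0 := by
        intro k _
        split_ifs with hc
        · calc ∫ ω, Z i ω * Z k ω ∂P ≤ ∫ _ω, (1 : ℝ) ∂P :=
                integral_mono (hint i k) (integrable_const _) fun ω => (abs_le.1 (hb2 i k ω)).2
            _ = 1 := by simp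
        · rw [mem_Ico] at hc
          rcases le_or_gt (i + W) k with h1 | h1
          · exact (h i k h1).le
          · simp only [mul_comm (Z i _)]
            exact (h k i (by omega)).le
      refine (sum_le_sum h1).trans ?_
      rw [sum_boole]
      have h2 : #{k ∈ range N | k ∈ Ico (i - W) (i + W)} ≤ #(Ico (i - W) (i + W)) :=
        card_le_card fun k hk => (mem_filter.1 hk).2
      rw [Nat.card_Ico] at h2
      exact_mod_cast h2.trans (by omega)
    have h3 := sum_le_card_nsmul _ _ _ this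
    simpa using h3
  have hE2 : ∀ n : ℕ, ∫ ω, (avg (fun i => Z i ω) (n * n)) ^ 2 ∂P ≤ 2 * W * (1 / (n : ℝ) ^ 2) := by
    intro n
    simp only [avg, div_pow]
    rw [integral_div]
    rcases Nat.eq_zero_or_pos n with rfl | hn
    · simp
    have hnpos : (0 : ℝ) < n := by exact_mod_cast hn
    have := hE (n * n)
    rw [div_le_iff₀ (by positivity)]
    refine this.trans (le_of_eq ?_)
    push_cast
    field_simp
  have hint3 : ∀ n : ℕ, Integrable (fun ω => (avg (fun i => Z i ω) (n * n)) ^ 2) P := fun n => by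
    simp only [avg, div_pow]
    exact (hint2 _).div_const _
  have hsum : Summable fun n : ℕ => 2 * (W : ℝ) * (1 / (n : ℝ) ^ 2) :=
    (Real.summable_one_div_nat_pow.2 one_lt_two).mul_left _
  have hfin : ∫⁻ ω, ∑' n : ℕ, ENNReal.ofReal ((avg (fun i => Z i ω) (n * n)) ^ 2) ∂P ≠ ⊤ := by
    rw [lintegral_tsum fun n => (hint3 n).aemeasurable.ennreal_ofReal]
    refine ne_top_of_le_ne_top (b := ∑' n : ℕ, ENNReal.ofReal (2 * (W : ℝ) * (1 / (n : ℝ) ^ 2)))
      ?_ (ENNReal.tsum_le_tsum fun n => ?_)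
    · rw [← ENNReal.ofReal_tsum_of_nonneg (fun n => by positivity) hsum]
      exact ENNReal.ofReal_ne_top
    · rw [← ofReal_integral_eq_lintegral_ofReal (hint3 n)
        (Eventually.of_forall fun ω => sq_nonneg _)]
      exact ENNReal.ofReal_le_ofReal (hE2 n)
  have hae := ae_lt_top'
    (AEMeasurable.tsum fun n => (hint3 n).aemeasurable.ennreal_ofReal) hfin
  filter_upwards [hae] with ω hω
  apply tendsto_avg_of_sq (fun i => hb i ω)
  have h1 := ENNReal.tendsto_atTop_zero_of_tsum_ne_top hω.ne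
  have h2 : Tendsto (fun n : ℕ => (avg (fun i => Z i ω) (n * n)) ^ 2) atTop (𝓝 0) := by
    have := (ENNReal.tendsto_toReal ENNReal.zero_ne_top).comp h1
    simpa [Function.comp_def, ENNReal.toReal_ofReal (sq_nonneg _)] using this
  have h3 := (Real.continuous_sqrt.tendsto 0).comp h2
  rw [tendsto_zero_iff_abs_tendsto_zero]
  simpa [Function.comp_def, Real.sqrt_sq_eq_abs] using h3

end Pool.Agent.P.MP_ac93c9_an
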