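import Pool.Agent.P.MP_ac93c9_an.Expansion
import Pool.Agent.P.MP_ac93c9_an.SLLN

namespace Pool.Agent.P.MP_ac93c9_an

open Filter Topology Finset MeasureTheory ProbabilityTheory

/-- The law of one digit. -/
noncomputable def rho (Q : ℕ) (t : ℝ) : Measure ℕ :=
  ∑ c ∈ range Q, ENNReal.ofReal (pr Q t c) • Measure.dirac c

theorem rho_prob {Q : ℕ} (hQ : 2 ≤ Q) {t : ℝ} (ht : |t| ≤ 1) : IsProbabilityMeasure (rho Q t) := by
  constructor
  simp only [rho, Measure.coe_finsetSum, Measure.coe_smul, Finset.sum_apply, Pi.smul_apply,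
    measure_univ, smul_eq_mul, mul_one]
  rw [← ENNReal.ofReal_sum_of_nonneg fun c _ => pr_nonneg Q ht c, sum_pr hQ, ENNReal.ofReal_one]

theorem integral_rho (Q : ℕ) {t : ℝ} (ht : |t| ≤ 1) (h : ℕ → ℝ) :
    ∫ c, h c ∂(rho Q t) = ∑ c ∈ range Q, pr Q t c * h c := by
  rw [rho, integral_finsetSum_measure]
  · refine sum_congr rfl fun c _ => ?_
    rw [integral_smul_measure, integral_dirac, ENNReal.toReal_ofReal (pr_nonneg Q ht c),
      smul_eq_mul]
  · intro c _
    exact (integrable_dirac (by simp)).smul_measure ENNReal.ofReal_ne_top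

theorem ae_rho_lt (Q : ℕ) (t : ℝ) : ∀ᵐ c ∂(rho Q t), c < Q := by
  rw [ae_iff]
  simp only [rho, Measure.coe_finsetSum, Measure.coe_smul, Finset.sum_apply, Pi.smul_apply,
    smul_eq_mul]
  refine sum_eq_zero fun c hc => ?_
  rw [Measure.dirac_apply, Set.indicator_of_notMem (by simpa using hc), mul_zero]

/-- Dependence on the first `m` coordinates only. -/
def Dep (m : ℕ) (G : (ℕ → ℕ) → ℝ) : Prop := ∀ ω ω' : ℕ → ℕ, (∀ k < m, ω k = ω' k) → G ω = G ω'

theorem Dep.factor {m : ℕ} {G : (ℕ → ℕ) → ℝ} (h : Dep m G) :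
    ∃ G' : (range m → ℕ) → ℝ, G = G' ∘ fun ω (i : range m) => ω i := by
  refine ⟨fun x => G fun k => if hk : k ∈ range m then x ⟨k, hk⟩ else 0, ?_⟩
  ext ω
  refine h _ _ fun k hk => ?_
  simp [hk]

theorem Dep.measurable {m : ℕ} {G : (ℕ → ℕ) → ℝ} (h : Dep m G) : Measurable G := by
  obtain ⟨G', rfl⟩ := h.factor
  exact (measurable_of_countable G').comp (by fun_prop)

/-- The law of the digit sequence. -/
noncomputable def PP (q : ℕ → ℕ) (t : ℕ → ℝ) : Measure (ℕ → ℕ) :=
  Measure.infinitePi fun m => rho (q m) (t m)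

section
variable {q : ℕ → ℕ} {t : ℕ → ℝ} (hq : ∀ n, 2 ≤ q n) (ht : ∀ n, |t n| ≤ 1)
include hq ht

theorem PP_prob : IsProbabilityMeasure (PP q t) := by
  have := fun m => rho_prob (hq m) (ht m)
  unfold PP
  infer_instance

theorem ae_PP_lt : ∀ᵐ ω ∂(PP q t), ∀ m, ω m < q m := by
  have := fun m => rho_prob (hq m) (ht m)
  rw [ae_all_iff]
  intro m
  exact (measurePreserving_eval_infinitePi (fun m => rho (q m) (t m))
    m).quasiMeasurePreserving.ae (ae_rho_lt _ _)

theorem integral_dep_mul {m : ℕ} {G : (ℕ → ℕ) → ℝ} (hG : Dep m G) (h : ℕ → ℝ) :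
    ∫ ω, G ω * h (ω m) ∂(PP q t) =
      (∫ ω, G ω ∂(PP q t)) * ∑ c ∈ range (q m), pr (q m) (t m) c * h c := by
  have := fun m => rho_prob (hq m) (ht m)
  have hind : iIndepFun (fun i (ω : ℕ → ℕ) => ω i) (PP q t) :=
    iIndepFun_infinitePi (X := fun _ x => x) (by fun_prop)
  have h1 := hind.indepFun_finset (range m) {m} (by simp) (by fun_prop)
  have hm := hG.measurable
  obtain ⟨G', rfl⟩ := hG.factor
  have h2 := h1.comp (measurable_of_countable G')
    (measurable_of_countable fun x : ({m} : Finset ℕ) → ℕ => h (x ⟨m, mem_singleton_self m⟩))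
  have hm2 : Measurable fun ω : ℕ → ℕ => h (ω m) :=
    (measurable_of_countable h).comp (measurable_pi_apply m)
  have h3 := h2.integral_fun_mul_eq_mul_integral hm.aestronglyMeasurable hm2.aestronglyMeasurable
  refine h3.trans ?_
  congr 1
  rw [← integral_rho _ (ht m)]
  have := (measurePreserving_eval_infinitePi (fun m => rho (q m) (t m)) m).map_eq
  rw [← this, integral_map (measurable_pi_apply m).aemeasurable
    (measurable_of_countable h).aestronglyMeasurable]
  rfl

theorem integral_step {m : ℕ} {Φ : (ℕ → ℕ) → ℕ → ℝ} (hΦ : ∀ c, Dep m fun ω => Φ ω c) {C : ℝ}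
    (hC : ∀ ω c, |Φ ω c| ≤ C) :
    ∫ ω, Φ ω (ω m) ∂(PP q t) = ∫ ω, ∑ c ∈ range (q m), pr (q m) (t m) c * Φ ω c ∂(PP q t) := by
  have := PP_prob hq ht
  have hint : ∀ c, Integrable (fun ω => Φ ω c) (PP q t) := fun c =>
    Integrable.of_bound (hΦ c).measurable.aestronglyMeasurable C
      (Eventually.of_forall fun ω => hC ω c)
  have h1 : ∫ ω, Φ ω (ω m) ∂(PP q t) =
      ∫ ω, ∑ c ∈ range (q m), Φ ω c * (if ω m = c then (1 : ℝ) else 0) ∂(PP q t) := by
    refine integral_congr_ae ?_
    filter_upwards [ae_PP_lt hq ht] with ω hω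
    simp [hω m]
  rw [h1, integral_finsetSum, integral_finsetSum]
  · refine sum_congr rfl fun c hc => ?_
    rw [integral_dep_mul hq ht (hΦ c) (fun c' => if c' = c then (1 : ℝ) else 0),
      integral_const_mul]
    simp [mem_range.1 hc, mul_comm]
  · exact fun c _ => (hint c).const_mul _
  · intro c _
    refine (hint c).mul_bdd (c := 1) ?_ (Eventually.of_forall fun ω => ?_)
    · exact ((measurable_of_countable fun c' => if c' = c then (1 : ℝ) else 0).comp
        (measurable_pi_apply m)).aestronglyMeasurable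
    · split_ifs <;> simp

end

/-- Truncation of a digit sequence. -/
def trunc (j : ℕ) (e : ℕ → ℕ) : ℕ → ℕ := fun k => if k < j then e k else 0

theorem trunc_succ (j : ℕ) (e : ℕ → ℕ) : trunc (j + 1) e = Function.update (trunc j e) j (e j) := by
  ext k
  rcases eq_or_ne k j with rfl | h
  · simp [trunc]
  · rw [Function.update_of_ne h]
    simp only [trunc]
    refine if_congr ⟨fun h' => ?_, fun h' => ?_⟩ rfl rfl <;> omega

theorem trunc_win_congr {i j : ℕ} {ω ω' : ℕ → ℕ} (h : ∀ k < i + 1 + j, ω k = ω' k) :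
    trunc j (win i ω) = trunc j (win i ω') := by
  ext k
  simp only [trunc, win]
  split_ifs with hk
  · exact h _ (by omega)
  · rfl

section
variable {q : ℕ → ℕ} {t : ℕ → ℝ} (hq : ∀ n, 2 ≤ q n) (ht : ∀ n, |t n| ≤ 1)
include hq ht

theorem integral_mul_trunc {i : ℕ} {H : (ℕ → ℕ) → ℝ} (hH : Dep (i + 1) H) (hH1 : ∀ ω, |H ω| ≤ 1)
    (j : ℕ) {F : (ℕ → ℕ) → ℝ} (hF : ∀ d, 0 ≤ F d ∧ F d ≤ 1) :
    ∫ ω, H ω * F (trunc j (win i ω)) ∂(PP q t) =
      (∫ ω, H ω ∂(PP q t)) * Ex (win i q) (win i t) j F := by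
  induction j generalizing F with
  | zero =>
    have : ∀ ω, trunc 0 (win i ω) = fun _ => 0 := fun ω => by ext k; simp [trunc]
    simp only [this, Ex]
    rw [integral_mul_const]
  | succ j ih =>
    simp only [Ex]
    rw [← ih (F := fun d => ∑ c ∈ range (win i q j), pr (win i q j) (win i t j) c *
      F (Function.update d j c)) fun d => step_bounds (hq _) (ht _) fun c => hF _]
    simp only [trunc_succ]
    have := integral_step hq ht (m := i + 1 + j)
      (Φ := fun ω c => H ω * F (Function.update (trunc j (win i ω)) j c)) (C := 1)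
      (fun c ω ω' h => by
        simp only
        rw [hH ω ω' fun k hk => h k (by omega), trunc_win_congr h])
      (fun ω c => by
        rw [abs_mul, abs_of_nonneg (hF _).1]
        exact mul_le_one₀ (hH1 ω) (hF _).1 (hF _).2)
    refine this.trans ?_
    congr 1
    ext ω
    rw [mul_sum]
    exact sum_congr rfl fun c _ => by simp only [win]; ring

theorem integral_trunc (i j : ℕ) {F : (ℕ → ℕ) → ℝ} (hF : ∀ d, 0 ≤ F d ∧ F d ≤ 1) :
    ∫ ω, F (trunc j (win i ω)) ∂(PP q t) = Ex (win i q) (win i t) j F := by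
  have := PP_prob hq ht
  have := integral_mul_trunc hq ht (i := i) (H := fun _ => 1) (fun _ _ _ => rfl) (by simp) j hF
  simpa using this

theorem ae_test (κ : Test) :
    ∀ᵐ ω ∂(PP q t), Tendsto (fun N => avg (fun i => κ.F (win i q) (win i ω)) N -
      avg (fun i => Ex (win i q) (win i t) κ.W (κ.F (win i q))) N) atTop (𝓝 0) := by
  have := PP_prob hq ht
  have htr : ∀ i ω, κ.F (win i q) (win i ω) = κ.F (win i q) (trunc κ.W (win i ω)) := fun i ω =>
    κ.F_congr (fun _ _ => rfl) fun k hk => by simp [trunc, hk]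
  have hEx : ∀ i, 0 ≤ Ex (win i q) (win i t) κ.W (κ.F (win i q)) ∧
      Ex (win i q) (win i t) κ.W (κ.F (win i q)) ≤ 1 := fun i =>
    Ex_bounds (fun _ => hq _) (fun _ => ht _) _ (κ.F_bounds _)
  set Z : ℕ → (ℕ → ℕ) → ℝ := fun i ω =>
    κ.F (win i q) (trunc κ.W (win i ω)) - Ex (win i q) (win i t) κ.W (κ.F (win i q)) with hZ
  have hdep : ∀ i, Dep (i + 1 + κ.W) (Z i) := fun i ω ω' h => by
    simp only [hZ]
    rw [trunc_win_congr h]
  have hb : ∀ i ω, |Z i ω| ≤ 1 := fun i ω => by
    have h1 := κ.F_bounds (win i q) (trunc κ.W (win i ω))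
    have h2 := hEx i
    rw [abs_le]
    simp only [hZ]
    constructor <;> linarith [h1.1, h1.2, h2.1, h2.2]
  have := slln (PP q t) Z (fun i => (hdep i).measurable) hb κ.W (by
    intro i k hik
    have hd : Dep (k + 1) (Z i) := fun ω ω' h => hdep i ω ω' fun k' hk' => h k' (by omega)
    have h1 := integral_mul_trunc hq ht hd (hb i) κ.W (κ.F_bounds (win k q))
    have hi : Integrable (Z i) (PP q t) := Integrable.of_bound
      (hdep i).measurable.aestronglyMeasurable 1 (Eventually.of_forall (hb i))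
    have hdk : Dep (k + 1 + κ.W) fun ω => κ.F (win k q) (trunc κ.W (win k ω)) :=
      fun ω ω' h => by simp only; rw [trunc_win_congr h]
    have e : ∀ ω, Z i ω * Z k ω = Z i ω * κ.F (win k q) (trunc κ.W (win k ω)) -
        Z i ω * Ex (win k q) (win k t) κ.W (κ.F (win k q)) := fun ω => by
      rw [← mul_sub]
    simp only [e]
    rw [integral_sub, h1, integral_mul_const, sub_self]
    · refine hi.mul_bdd (c := 1) hdk.measurable.aestronglyMeasurable
        (Eventually.of_forall fun ω => ?_)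
      rw [Real.norm_of_nonneg (κ.F_bounds _ _).1]
      exact (κ.F_bounds _ _).2
    · exact hi.mul_const _)
  filter_upwards [this] with ω hω
  refine hω.congr fun N => ?_
  simp only [avg, psum, hZ, htr, sum_sub_distrib, sub_div]

theorem measure_cyl_le {τ : ℝ} (hτ : ∀ n, |t n| ≤ τ) (n : ℕ) (D : ℕ → ℕ) :
    (PP q t).real {ω | ∀ k < n, ω (k + 1) = D k} ≤ (1 + τ) ^ n / prodQ q n := by
  have := PP_prob hq ht
  have hb : ∀ d, 0 ≤ blk n D d ∧ blk n D d ≤ 1 := fun d => by
    unfold blk
    split_ifs <;> simp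
  have h1 := integral_trunc hq ht 0 n hb
  have hmeas : MeasurableSet {ω : ℕ → ℕ | ∀ k < n, ω (k + 1) = D k} := by
    simp only [Set.setOf_forall]
    exact MeasurableSet.iInter fun k => MeasurableSet.iInter fun _ =>
      measurableSet_eq_fun (measurable_pi_apply _) measurable_const
  have h2 : (fun ω => blk n D (trunc n (win 0 ω))) =
      Set.indicator {ω : ℕ → ℕ | ∀ k < n, ω (k + 1) = D k} 1 := by
    ext ω
    simp only [blk, trunc, win, Set.indicator, Set.mem_setOf_eq, Pi.one_apply]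
    refine if_congr (forall_congr' fun k => forall_congr' fun hk => ?_) rfl rfl
    rw [if_pos hk, show 0 + 1 + k = k + 1 by ring]
  rw [h2, integral_indicator_one hmeas, Ex_blk] at h1
  rw [h1]
  have h3 : (1 + τ) ^ n / prodQ q n = ∏ k ∈ range n, ((1 + τ) / ((win 0 q k : ℕ) : ℝ)) := by
    rw [prod_div_distrib, prod_const, card_range]
    congr 1
    clear h1 h2 hmeas hb
    induction n with
    | zero => simp [prodQ_zero]
    | succ n ih =>
      rw [prod_range_succ, ← ih, prodQ_succ]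
      simp only [win]
      rw [show 0 + 1 + n = n + 1 by ring]
      push_cast
      rfl
  rw [h3]
  exact prod_le_prod (fun k _ => pr_nonneg _ (ht _) _) fun k _ => pr_le _ (hτ _) _

end

end Pool.Agent.P.MP_ac93c9_an
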